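import Pool.Agent.U485.EH.Mo
import Pool.Agent.H441R3.BV.Dy

/-!
Elementary sums. (`dir`, `harm`, `tau_mul`, `tau_pow_div` are copied from `TH212.PL.L1`.)
-/

set_option autoImplicit false

namespace Pool.Agent.U485.EH

open Finset

lemma dir (X : ℕ) (F : ℕ → ℕ → ℝ) :
    ∑ n ∈ Icc 1 X, ∑ d ∈ n.divisors, F d (n / d) = ∑ d ∈ Icc 1 X, ∑ m ∈ Icc 1 (X / d), F d m := by
  have h1 : ∀ n ∈ Icc 1 X, ∑ d ∈ n.divisors, F d (n / d) = ∑ d ∈ Icc 1 X, if d ∣ n then F d (n / d) else 0 := by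
    intro n hn
    rw [mem_Icc] at hn
    rw [← sum_filter]
    apply sum_congr _ fun _ _ => rfl
    ext d
    rw [Nat.mem_divisors, mem_filter, mem_Icc]
    constructor
    · rintro ⟨h1, h2⟩
      exact ⟨⟨Nat.pos_of_dvd_of_pos h1 (by omega), (Nat.le_of_dvd (by omega) h1).trans hn.2⟩, h1⟩
    · rintro ⟨_, h1⟩
      exact ⟨h1, by omega⟩
  rw [sum_congr rfl h1, sum_comm]
  apply sum_congr rfl
  intro d hd
  rw [mem_Icc] at hd
  rw [← sum_filter]
  apply sum_nbij' (fun n => n / d) (fun m => d * m)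
  · intro n hn
    rw [mem_filter, mem_Icc] at hn
    rw [mem_Icc]
    obtain ⟨⟨h1, h2⟩, c, rfl⟩ := hn
    rw [Nat.mul_div_cancel_left _ (by omega)]
    refine ⟨Nat.pos_of_ne_zero (by rintro rfl; simp at h1), ?_⟩
    rw [Nat.le_div_iff_mul_le (by omega), mul_comm]
    exact h2
  · intro m hm
    rw [mem_Icc] at hm
    rw [mem_filter, mem_Icc]
    refine ⟨⟨Nat.mul_pos (by omega) (by omega), ?_⟩, dvd_mul_right _ _⟩
    have := (Nat.le_div_iff_mul_le (by omega : 0 < d)).1 hm.2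
    rw [mul_comm]
    exact this
  · intro n hn
    rw [mem_filter] at hn
    exact Nat.mul_div_cancel' hn.2
  · intro m _
    exact Nat.mul_div_cancel_left _ (by omega)
  · intro n _
    rfl

lemma log1_nonneg (X : ℕ) : 0 ≤ 1 + Real.log X := by
  have := Real.log_natCast_nonneg X
  linarith

lemma harm (Q : ℕ) : ∑ q ∈ Icc 1 Q, 1 / (q : ℝ) ≤ 1 + Real.log Q := by
  have h5 := harmonic_le_one_add_log Q
  rw [harmonic_eq_sum_Icc] at h5
  push_cast at h5
  simpa [one_div] using h5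

lemma tau_mul (m n : ℕ) : (m * n).divisors.card ≤ m.divisors.card * n.divisors.card := by
  rw [Nat.divisors_mul]
  exact card_mul_le

/-- moments of the divisor function -/
lemma tau_pow_div (m X : ℕ) : ∑ n ∈ Icc 1 X, (n.divisors.card : ℝ) ^ m / n ≤ (1 + Real.log X) ^ (2 ^ m) := by
  induction m with
  | zero =>
    simp only [pow_zero, pow_one]
    exact harm X
  | succ m ih =>
    have e1 := dir X (fun d k => ((d.divisors.card : ℝ) ^ m / d) * ((k.divisors.card : ℝ) ^ m / k))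
    have e2 : ∀ n ∈ Icc 1 X, (n.divisors.card : ℝ) ^ (m + 1) / n ≤
        ∑ d ∈ n.divisors, ((d.divisors.card : ℝ) ^ m / d) * (((n / d).divisors.card : ℝ) ^ m / ((n / d : ℕ) : ℝ)) := by
      intro n hn
      rw [mem_Icc] at hn
      have hn0 : (0 : ℝ) < n := by exact_mod_cast hn.1
      have e3 : ∀ d ∈ n.divisors, (n.divisors.card : ℝ) ^ m / n ≤
          ((d.divisors.card : ℝ) ^ m / d) * (((n / d).divisors.card : ℝ) ^ m / ((n / d : ℕ) : ℝ)) := by
        intro d hd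
        have h1 := Nat.dvd_of_mem_divisors hd
        have h2 := tau_mul d (n / d)
        rw [Nat.mul_div_cancel' h1] at h2
        have h3 : (n.divisors.card : ℝ) ^ m ≤ (d.divisors.card : ℝ) ^ m * ((n / d).divisors.card : ℝ) ^ m := by
          rw [← mul_pow]
          exact pow_le_pow_left₀ (Nat.cast_nonneg _) (by exact_mod_cast h2) m
        have h4 : (n : ℝ) = (d : ℝ) * ((n / d : ℕ) : ℝ) := by
          rw [← Nat.cast_mul, Nat.mul_div_cancel' h1]
        calc (n.divisors.card : ℝ) ^ m / n ≤ (d.divisors.card : ℝ) ^ m * ((n / d).divisors.card : ℝ) ^ m / n :=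
              div_le_div_of_nonneg_right h3 hn0.le
          _ = _ := by rw [h4, mul_div_mul_comm]
      have e4 := sum_le_sum e3
      rw [sum_const, nsmul_eq_mul] at e4
      refine le_trans (le_of_eq ?_) e4
      ring
    refine (sum_le_sum e2).trans ?_
    rw [e1]
    have hnn : ∀ k : ℕ, 0 ≤ (k.divisors.card : ℝ) ^ m / k := fun k => by positivity
    have e5 : ∀ d ∈ Icc 1 X, ∑ k ∈ Icc 1 (X / d), ((d.divisors.card : ℝ) ^ m / d) * ((k.divisors.card : ℝ) ^ m / k) ≤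
        ((d.divisors.card : ℝ) ^ m / d) * (1 + Real.log X) ^ (2 ^ m) := by
      intro d _
      rw [← mul_sum]
      apply mul_le_mul_of_nonneg_left _ (hnn d)
      refine le_trans ?_ ih
      exact sum_le_sum_of_subset_of_nonneg (Icc_subset_Icc_right (Nat.div_le_self _ _)) (fun k _ _ => hnn k)
    refine (sum_le_sum e5).trans ?_
    rw [← sum_mul]
    refine (mul_le_mul_of_nonneg_right ih (pow_nonneg (log1_nonneg X) _)).trans (le_of_eq ?_)
    rw [← pow_add, pow_succ]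
    congr 1
    omega

lemma dir2 (X : ℕ) (F : ℕ → ℕ → ℝ) :
    ∑ n ∈ Icc 1 X, ∑ d ∈ n.divisors, F d (n / d) = ∑ j ∈ Icc 1 X, ∑ d ∈ Icc 1 (X / j), F d j := by
  rw [← dir X (fun j d => F d j)]
  apply sum_congr rfl
  intro n hn
  rw [mem_Icc] at hn
  rw [← Nat.sum_div_divisors n (fun d => F d (n / d))]
  apply sum_congr rfl
  intro j hj
  rw [Nat.div_div_self (Nat.dvd_of_mem_divisors hj) (by omega)]

lemma high_gen (M R : ℕ) (w : ℕ → ℝ) :
    ∑ m ∈ Icc 1 M, (1 / (m : ℝ)) * ∑ d ∈ m.divisors.filter (fun d => ¬ d ≤ R), w d =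
      ∑ j ∈ Icc 1 M, (1 / (j : ℝ)) * ∑ d ∈ (Icc 1 (M / j)).filter (fun d => ¬ d ≤ R), w d / d := by
  have h := dir2 M (fun d j => if ¬ d ≤ R then (1 / (j : ℝ)) * (w d / d) else 0)
  have e2 : ∀ j ∈ Icc 1 M, ∑ d ∈ Icc 1 (M / j), (if ¬ d ≤ R then (1 / (j : ℝ)) * (w d / d) else 0) =
      (1 / (j : ℝ)) * ∑ d ∈ (Icc 1 (M / j)).filter (fun d => ¬ d ≤ R), w d / d := by
    intro j _
    rw [← sum_filter, mul_sum]
  rw [sum_congr rfl e2] at h
  rw [← h]
  apply sum_congr rfl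
  intro m hm
  rw [mem_Icc] at hm
  rw [mul_sum, sum_filter]
  apply sum_congr rfl
  intro d hd
  have hdm := Nat.dvd_of_mem_divisors hd
  have hd1 : 0 < d := Nat.pos_of_dvd_of_pos hdm (by omega)
  split_ifs
  · rfl
  · have h3 : (m : ℝ) = (d : ℝ) * ((m / d : ℕ) : ℝ) := by
      rw [← Nat.cast_mul, Nat.mul_div_cancel' hdm]
    rw [h3]
    have h4 : (d : ℝ) ≠ 0 := by positivity
    rw [one_div_mul_eq_div, one_div_mul_eq_div, div_div]

lemma abel_aux (W : ℕ → ℝ) (A B : ℝ) (hB : 0 ≤ B)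
    (hW : ∀ d, 0 ≤ W d) (h : ∀ n : ℕ, ∑ d ∈ Icc 1 n, W d ≤ A + B * (n : ℝ) ^ 2) (R k : ℕ) :
    ∑ d ∈ Icc (R + 1) (R + k), W d / d - (∑ d ∈ Icc (R + 1) (R + k), W d) / ((R : ℝ) + k + 1) ≤
      A * (1 / ((R : ℝ) + 1) - 1 / ((R : ℝ) + k + 1)) + B * k := by
  induction k with
  | zero =>
    simp
  | succ k ih =>
    have hs : Icc (R + 1) (R + (k + 1)) = insert (R + k + 1) (Icc (R + 1) (R + k)) := by
      ext d
      rw [mem_insert, mem_Icc, mem_Icc]
      omega
    have hn : R + k + 1 ∉ Icc (R + 1) (R + k) := by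
      rw [mem_Icc]
      omega
    rw [hs, sum_insert hn, sum_insert hn]
    set G := ∑ d ∈ Icc (R + 1) (R + k), W d with hG
    set S := ∑ d ∈ Icc (R + 1) (R + k), W d / (d : ℝ) with hS
    have hGb : W (R + k + 1) + G ≤ A + B * ((R : ℝ) + k + 1) ^ 2 := by
      have h1 := h (R + k + 1)
      have h2 : W (R + k + 1) + G = ∑ d ∈ Icc (R + 1) (R + (k + 1)), W d := by
        rw [hs, sum_insert hn]
      rw [h2]
      push_cast at h1
      refine le_trans ?_ h1
      apply sum_le_sum_of_subset_of_nonneg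
      · intro d hd
        rw [mem_Icc] at hd ⊢
        omega
      · intro d _ _
        exact hW d
    push_cast
    have hR0 : (0 : ℝ) ≤ R := Nat.cast_nonneg R
    have hk0 : (0 : ℝ) ≤ k := Nat.cast_nonneg k
    set u : ℝ := (R : ℝ) + k + 1 with hu
    have hu0 : 0 < u := by linarith
    have hu1 : (R : ℝ) + (k + 1) + 1 = u + 1 := by rw [hu]; ring
    rw [hu1]
    have key : W (R + k + 1) / u + G / u - (W (R + k + 1) + G) / (u + 1) ≤
        A * (1 / u - 1 / (u + 1)) + B := by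
      have e1 : W (R + k + 1) / u + G / u - (W (R + k + 1) + G) / (u + 1) =
          (W (R + k + 1) + G) / (u * (u + 1)) := by
        field_simp
        ring
      have e2 : A * (1 / u - 1 / (u + 1)) + B = (A + B * (u * (u + 1))) / (u * (u + 1)) := by
        field_simp
        ring
      rw [e1, e2]
      apply div_le_div_of_nonneg_right _ (by positivity)
      refine hGb.trans ?_
      nlinarith
    have e3 : A * (1 / ((R : ℝ) + 1) - 1 / (u + 1)) + B * (k + 1) =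
        (A * (1 / ((R : ℝ) + 1) - 1 / u) + B * k) + (A * (1 / u - 1 / (u + 1)) + B) := by ring
    rw [e3]
    linarith

/-- partial summation -/
lemma abel (W : ℕ → ℝ) (A B : ℝ) (hA : 0 ≤ A) (hB : 0 ≤ B)
    (hW : ∀ d, 0 ≤ W d) (h : ∀ n : ℕ, ∑ d ∈ Icc 1 n, W d ≤ A + B * (n : ℝ) ^ 2) (R M : ℕ) :
    ∑ d ∈ (Icc 1 M).filter (fun d => ¬ d ≤ R), W d / d ≤ A / ((R : ℝ) + 1) + 2 * B * M := by
  rcases Nat.lt_or_ge M (R + 1) with hM | hM
  · have : (Icc 1 M).filter (fun d => ¬ d ≤ R) = ∅ := by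
      rw [filter_eq_empty_iff]
      intro d hd
      rw [mem_Icc] at hd
      omega
    rw [this, sum_empty]
    positivity
  · obtain ⟨k, rfl⟩ : ∃ k, M = R + k := ⟨M - R, by omega⟩
    have hs : (Icc 1 (R + k)).filter (fun d => ¬ d ≤ R) = Icc (R + 1) (R + k) := by
      ext d
      rw [mem_filter, mem_Icc, mem_Icc]
      omega
    rw [hs]
    have h1 := abel_aux W A B hB hW h R k
    have h2 : ∑ d ∈ Icc (R + 1) (R + k), W d ≤ A + B * ((R + k : ℕ) : ℝ) ^ 2 := by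
      refine le_trans ?_ (h (R + k))
      apply sum_le_sum_of_subset_of_nonneg
      · intro d hd
        rw [mem_Icc] at hd ⊢
        omega
      · intro d _ _
        exact hW d
    push_cast at h2 ⊢
    have hR0 : (0 : ℝ) ≤ R := Nat.cast_nonneg R
    have hk0 : (0 : ℝ) ≤ k := Nat.cast_nonneg k
    set u : ℝ := (R : ℝ) + k + 1 with hu
    have hu0 : 0 < u := by linarith
    have h3 : (∑ d ∈ Icc (R + 1) (R + k), W d) / u ≤ A * (1 / u) + B * ((R : ℝ) + k) := by
      rw [div_le_iff₀ hu0]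
      have e1 : (A * (1 / u) + B * ((R : ℝ) + k)) * u = A + B * (((R : ℝ) + k) * u) := by
        field_simp
      rw [e1]
      refine h2.trans ?_
      have : ((R : ℝ) + k) ^ 2 ≤ ((R : ℝ) + k) * u := by
        rw [sq, hu]
        nlinarith
      nlinarith
    have e2 : A / ((R : ℝ) + 1) = A * (1 / ((R : ℝ) + 1)) := by ring
    rw [e2]
    nlinarith

lemma sum_inv_sq (n : ℕ) : ∑ j ∈ Icc 1 n, 1 / (j : ℝ) ^ 2 ≤ 2 := by
  have h : ∀ n : ℕ, 1 ≤ n → ∑ j ∈ Icc 1 n, 1 / (j : ℝ) ^ 2 ≤ 2 - 1 / (n : ℝ) := by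
    intro n hn
    induction n, hn using Nat.le_induction with
    | base => norm_num
    | succ n hn ih =>
      rw [sum_Icc_succ_top (by omega)]
      have hn0 : (0 : ℝ) < n := by exact_mod_cast hn
      have h1 : 1 / (((n + 1 : ℕ) : ℝ)) ^ 2 ≤ 1 / (n : ℝ) - 1 / (((n + 1 : ℕ) : ℝ)) := by
        push_cast
        rw [div_sub_div _ _ hn0.ne' (by positivity), div_le_div_iff₀ (by positivity) (by positivity)]
        nlinarith
      linarith
  rcases Nat.eq_zero_or_pos n with h0 | h0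
  · subst h0
    simp
  · have h1 := h n h0
    have : 0 ≤ 1 / (n : ℝ) := by positivity
    linarith

/-- **the high part**, mean square over the lifts -/
lemma high (q a y M R : ℕ) (hq : 1 ≤ q) (haq : a.Coprime q) :
    ∑ m ∈ Icc 1 M, (1 / (m : ℝ)) * ∑ d ∈ m.divisors.filter (fun d => ¬ d ≤ R), W (FF q a y) d ≤
      12 * CC q a y 1 0 * ((((y / q + 1 : ℕ) : ℝ)) * (1 + Real.log M) / ((R : ℝ) + 1) + 4 * M) +
      2 * ((piN y : ℝ) / (Nat.totient q : ℝ)) ^ 2 * (1 + Real.log M) ^ 3 / ((R : ℝ) + 1) := by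
  have hlM : 0 ≤ 1 + Real.log M := log1_nonneg M
  have hC0 : 0 ≤ CC q a y 1 0 := CC_nonneg _ _ _ _ _
  set N := CC q a y 1 0 with hN
  set K : ℝ := ((y / q + 1 : ℕ) : ℝ) with hK
  have hK0 : 0 ≤ K := Nat.cast_nonneg _
  set Y : ℝ := ((piN y : ℝ) / (Nat.totient q : ℝ)) ^ 2 with hY
  have hY0 : 0 ≤ Y := by positivity
  have hR0 : (0 : ℝ) < (R : ℝ) + 1 := by positivity
  -- reduction
  have h1 : ∑ m ∈ Icc 1 M, (1 / (m : ℝ)) * ∑ d ∈ m.divisors.filter (fun d => ¬ d ≤ R), W (FF q a y) d ≤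
      2 * ∑ m ∈ Icc 1 M, (1 / (m : ℝ)) * ∑ d ∈ m.divisors.filter (fun d => ¬ d ≤ R), W (CC q a y) d +
      2 * ∑ m ∈ Icc 1 M, (1 / (m : ℝ)) * ∑ d ∈ m.divisors.filter (fun d => ¬ d ≤ R), Y * (1 / (Nat.totient d : ℝ)) := by
    rw [mul_sum, mul_sum, ← sum_add_distrib]
    apply sum_le_sum
    intro m hm
    rw [mem_Icc] at hm
    have e1 : 2 * ((1 / (m : ℝ)) * ∑ d ∈ m.divisors.filter (fun d => ¬ d ≤ R), W (CC q a y) d) +
        2 * ((1 / (m : ℝ)) * ∑ d ∈ m.divisors.filter (fun d => ¬ d ≤ R), Y * (1 / (Nat.totient d : ℝ))) =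
        (1 / (m : ℝ)) * ∑ d ∈ m.divisors.filter (fun d => ¬ d ≤ R),
          (2 * W (CC q a y) d + 2 * (Y * (1 / (Nat.totient d : ℝ)))) := by
      have e2 : ∑ d ∈ m.divisors.filter (fun d => ¬ d ≤ R), 2 * W (CC q a y) d =
          2 * ∑ d ∈ m.divisors.filter (fun d => ¬ d ≤ R), W (CC q a y) d := (mul_sum _ _ _).symm
      have e3 : ∑ d ∈ m.divisors.filter (fun d => ¬ d ≤ R), 2 * (Y * (1 / (Nat.totient d : ℝ))) =
          2 * ∑ d ∈ m.divisors.filter (fun d => ¬ d ≤ R), Y * (1 / (Nat.totient d : ℝ)) := (mul_sum _ _ _).symm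
      rw [sum_add_distrib, e2, e3]
      ring
    rw [e1]
    apply mul_le_mul_of_nonneg_left _ (by positivity)
    apply sum_le_sum
    intro d hd
    rw [mem_filter] at hd
    have hd1 : 1 ≤ d := Nat.pos_of_dvd_of_pos (Nat.dvd_of_mem_divisors hd.1) (by omega)
    have h2 := W_FF q a y d
    have h3 := W_GG q a y d hq hd1 haq
    linarith
  -- the primes
  have h2 : ∑ m ∈ Icc 1 M, (1 / (m : ℝ)) * ∑ d ∈ m.divisors.filter (fun d => ¬ d ≤ R), W (CC q a y) d ≤
      6 * N * K * (1 + Real.log M) / ((R : ℝ) + 1) + 24 * N * M := by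
    rw [high_gen]
    have h3 : ∀ j ∈ Icc 1 M, (1 / (j : ℝ)) * ∑ d ∈ (Icc 1 (M / j)).filter (fun d => ¬ d ≤ R), W (CC q a y) d / d ≤
        (6 * K * N) / ((R : ℝ) + 1) * (1 / (j : ℝ)) + 12 * N * M * (1 / (j : ℝ) ^ 2) := by
      intro j hj
      rw [mem_Icc] at hj
      have hj0 : (0 : ℝ) < j := by exact_mod_cast hj.1
      have h4 := abel (W (CC q a y)) (6 * K * N) (6 * N) (by positivity) (by positivity)
        (fun d => W_nonneg _ d) (fun n => by
          refine (ls_CC q a y n).trans (le_of_eq ?_)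
          rw [← hK, ← hN]
          ring) R (M / j)
      have h5 : ((M / j : ℕ) : ℝ) ≤ (M : ℝ) / j := Nat.cast_div_le
      calc (1 / (j : ℝ)) * ∑ d ∈ (Icc 1 (M / j)).filter (fun d => ¬ d ≤ R), W (CC q a y) d / d
          ≤ (1 / (j : ℝ)) * ((6 * K * N) / ((R : ℝ) + 1) + 2 * (6 * N) * ((M / j : ℕ) : ℝ)) :=
            mul_le_mul_of_nonneg_left h4 (by positivity)
        _ ≤ (1 / (j : ℝ)) * ((6 * K * N) / ((R : ℝ) + 1) + 2 * (6 * N) * ((M : ℝ) / j)) := by gcongr
        _ = _ := by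
            field_simp
            ring
    refine (sum_le_sum h3).trans ?_
    rw [sum_add_distrib, ← mul_sum, ← mul_sum]
    have h4 := harm M
    have h5 := sum_inv_sq M
    calc (6 * K * N) / ((R : ℝ) + 1) * ∑ j ∈ Icc 1 M, 1 / (j : ℝ) + 12 * N * M * ∑ j ∈ Icc 1 M, 1 / (j : ℝ) ^ 2
        ≤ (6 * K * N) / ((R : ℝ) + 1) * (1 + Real.log M) + 12 * N * M * 2 := by
          apply add_le_add
          · exact mul_le_mul_of_nonneg_left h4 (by positivity)
          · exact mul_le_mul_of_nonneg_left h5 (by positivity)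
      _ = _ := by ring
  -- the expected number
  have h3 : ∑ m ∈ Icc 1 M, (1 / (m : ℝ)) * ∑ d ∈ m.divisors.filter (fun d => ¬ d ≤ R), Y * (1 / (Nat.totient d : ℝ)) ≤
      Y * (1 + Real.log M) ^ 3 / ((R : ℝ) + 1) := by
    rw [high_gen]
    have h4 : ∀ j ∈ Icc 1 M, (1 / (j : ℝ)) * ∑ d ∈ (Icc 1 (M / j)).filter (fun d => ¬ d ≤ R),
        (Y * (1 / (Nat.totient d : ℝ))) / d ≤ (1 / (j : ℝ)) * (Y / ((R : ℝ) + 1) * (1 + Real.log M) ^ 2) := by
      intro j _
      apply mul_le_mul_of_nonneg_left _ (by positivity)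
      have h5 : ∀ d ∈ (Icc 1 (M / j)).filter (fun d => ¬ d ≤ R), (Y * (1 / (Nat.totient d : ℝ))) / d ≤
          Y / ((R : ℝ) + 1) * (1 / (Nat.totient d : ℝ)) := by
        intro d hd
        rw [mem_filter, mem_Icc] at hd
        have h6 : ((R : ℝ) + 1) ≤ d := by
          have : R + 1 ≤ d := by omega
          exact_mod_cast this
        calc (Y * (1 / (Nat.totient d : ℝ))) / d ≤ (Y * (1 / (Nat.totient d : ℝ))) / ((R : ℝ) + 1) :=
              div_le_div_of_nonneg_left (by positivity) hR0 h6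
          _ = _ := by ring
      refine (sum_le_sum h5).trans ?_
      rw [← mul_sum]
      apply mul_le_mul_of_nonneg_left _ (by positivity)
      refine le_trans ?_ (Pool.Agent.H441R3.BV.sum_inv_tot M)
      apply sum_le_sum_of_subset_of_nonneg
      · intro d hd
        rw [mem_filter, mem_Icc] at hd
        rw [mem_Icc]
        exact ⟨hd.1.1, hd.1.2.trans (Nat.div_le_self _ _)⟩
      · intro d _ _
        positivity
    refine (sum_le_sum h4).trans ?_
    rw [← sum_mul]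
    calc (∑ j ∈ Icc 1 M, 1 / (j : ℝ)) * (Y / ((R : ℝ) + 1) * (1 + Real.log M) ^ 2) ≤
        (1 + Real.log M) * (Y / ((R : ℝ) + 1) * (1 + Real.log M) ^ 2) := by
          apply mul_le_mul_of_nonneg_right (harm M) (by positivity)
      _ = _ := by ring
  refine h1.trans ?_
  calc _ ≤ 2 * (6 * N * K * (1 + Real.log M) / ((R : ℝ) + 1) + 24 * N * M) +
        2 * (Y * (1 + Real.log M) ^ 3 / ((R : ℝ) + 1)) := by linarith
    _ = _ := by ring

end Pool.Agent.U485.EH
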