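import Pool.Agent.U485.EH.Ar
import Pool.Agent.H441R3.BV.Fin

/-!
The theorem of Bombieri and Vinogradov with divisor weights and with all the maxima inside.
-/

set_option autoImplicit false

namespace Pool.Agent.U485.EH

open Finset Filter
open Pool.Agent.H441R3.BV (main_nat one_le_log)
open Pool.Agent.H300R2.WEH (err piR)

/-- `|π(y; q, a) - π(y) / φ(q)|` -/
noncomputable def er (y q a : ℕ) : ℝ := |(piA y q a : ℝ) - (piN y : ℝ) / (Nat.totient q : ℝ)|

lemma er_nonneg (y q a : ℕ) : 0 ≤ er y q a := abs_nonneg _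

/-- the function whose supremum is `Es` -/
noncomputable def ef (r : ℕ) (p : ℕ × ℕ) : NNReal := if p.2.Coprime r then Real.toNNReal (er p.1 r p.2) else 0

/-- the maximum over the heights `y ≤ N` and the invertible classes -/
noncomputable def Es (N r : ℕ) : ℝ := (((range (N + 1)) ×ˢ (range r)).sup (ef r) : NNReal)

lemma Es_nonneg (N r : ℕ) : 0 ≤ Es N r := NNReal.coe_nonneg _

lemma piA_mod (y q a : ℕ) : piA y q (a % q) = piA y q a := by
  unfold piA
  congr 1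
  apply filter_congr
  intro p _
  have : a % q ≡ a [MOD q] := Nat.mod_modEq a q
  constructor
  · rintro ⟨h1, h2⟩
    exact ⟨h1, h2.trans this⟩
  · rintro ⟨h1, h2⟩
    exact ⟨h1, h2.trans this.symm⟩

lemma le_Es (N r y a : ℕ) (hr : 1 ≤ r) (hy : y ≤ N) (ha : a.Coprime r) : er y r a ≤ Es N r := by
  have h1 : ef r (y, a % r) ≤ ((range (N + 1)) ×ˢ (range r)).sup (ef r) := by
    apply le_sup (f := ef r)
    rw [mem_product, mem_range, mem_range]
    exact ⟨by simp only; omega, Nat.mod_lt _ hr⟩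
  have h2 : (a % r).Coprime r := (ZMod.coprime_mod_iff_coprime a r).mpr ha
  unfold ef at h1
  simp only at h1
  rw [if_pos h2] at h1
  have h3 : er y r (a % r) ≤ Es N r := by
    unfold Es
    refine (Real.le_coe_toNNReal _).trans ?_
    exact_mod_cast h1
  unfold er at h3 ⊢
  rw [piA_mod] at h3
  exact h3

lemma Es_attained (N r : ℕ) (hr : 1 ≤ r) : ∃ y a : ℕ, y ≤ N ∧ a.Coprime r ∧ Es N r ≤ er y r a := by
  have hne : ((range (N + 1)) ×ˢ (range r)).Nonempty := by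
    refine ⟨(0, 0), ?_⟩
    rw [mem_product, mem_range, mem_range]
    exact ⟨by simp, hr⟩
  obtain ⟨p, hp, h⟩ := exists_mem_eq_sup _ hne (ef r)
  rw [mem_product, mem_range, mem_range] at hp
  by_cases hc : p.2.Coprime r
  · refine ⟨p.1, p.2, by omega, hc, ?_⟩
    unfold Es
    rw [h]
    unfold ef
    rw [if_pos hc, Real.coe_toNNReal _ (er_nonneg _ _ _)]
  · refine ⟨0, 1, by omega, Nat.coprime_one_left r, ?_⟩
    unfold Es
    rw [h]
    unfold ef
    rw [if_neg hc]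
    exact er_nonneg _ _ _

lemma piN_le (y : ℕ) : (piN y : ℝ) ≤ y := by
  unfold piN
  have h := card_filter_le (Icc 1 y) (fun p : ℕ => p.Prime)
  rw [Nat.card_Icc, Nat.add_sub_cancel] at h
  exact_mod_cast h

lemma piN_mono {y N : ℕ} (h : y ≤ N) : piN y ≤ piN N := by
  unfold piN
  exact card_le_card (filter_subset_filter _ (Icc_subset_Icc_right h))

lemma piA_le (y q a : ℕ) (hq : 1 ≤ q) : (piA y q a : ℝ) ≤ (y : ℝ) / q + 1 := by
  have h1 : piA y q a ≤ y / q + 1 := by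
    have h2 : piA y q a = piA y q (a % q) := (piA_mod y q a).symm
    have h3 := CC_eq q (a % q) y 1 0 hq (Nat.mod_lt _ hq)
    rw [mul_one, mul_zero, add_zero] at h3
    have h4 : CC q (a % q) y 1 0 ≤ ((y / q + 1 : ℕ) : ℝ) := by
      rw [CC_one]
      refine (sum_le_card_nsmul _ _ 1 (fun k _ => ?_)).trans ?_
      · unfold cc
        split_ifs <;> norm_num
      · simp
    rw [h3] at h4
    rw [h2]
    exact_mod_cast h4
  have h5 : ((y / q : ℕ) : ℝ) ≤ (y : ℝ) / q := Nat.cast_div_le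
  calc (piA y q a : ℝ) ≤ ((y / q + 1 : ℕ) : ℝ) := by exact_mod_cast h1
    _ = ((y / q : ℕ) : ℝ) + 1 := by push_cast; ring
    _ ≤ _ := by linarith

/-- the trivial bound -/
lemma Es_triv (N r : ℕ) (hr : 1 ≤ r) (hrN : r ≤ N) : Es N r ≤ 2 * N * (1 / (Nat.totient r : ℝ)) := by
  obtain ⟨y, a, hy, _, h⟩ := Es_attained N r hr
  refine h.trans ?_
  have hφ : (0 : ℝ) < Nat.totient r := by exact_mod_cast Nat.totient_pos.2 hr
  have hφr : (Nat.totient r : ℝ) ≤ r := by exact_mod_cast Nat.totient_le r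
  have hr0 : (0 : ℝ) < r := by exact_mod_cast hr
  have hrN' : (r : ℝ) ≤ N := by exact_mod_cast hrN
  have hyN : (y : ℝ) ≤ N := by exact_mod_cast hy
  have h1 := piA_le y r a hr
  have h2 : (y : ℝ) / r + 1 ≤ 2 * N * (1 / (Nat.totient r : ℝ)) := by
    have h3 : (y : ℝ) / r + 1 ≤ 2 * N / r := by
      rw [div_add_one hr0.ne']
      apply div_le_div_of_nonneg_right _ hr0.le
      linarith
    refine h3.trans ?_
    rw [mul_one_div]
    exact div_le_div_of_nonneg_left (by positivity) hφ hφr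
  have h4 : (piN y : ℝ) / (Nat.totient r : ℝ) ≤ 2 * N * (1 / (Nat.totient r : ℝ)) := by
    rw [mul_one_div]
    apply div_le_div_of_nonneg_right _ hφ.le
    have := piN_le y
    linarith
  have h5 : 0 ≤ (piN y : ℝ) / (Nat.totient r : ℝ) := by positivity
  have h6 : (0 : ℝ) ≤ piA y r a := Nat.cast_nonneg _
  unfold er
  rw [abs_le]
  constructor <;> linarith

lemma piR_eq' (y d l : ℕ) : piR (y : ℝ) d l = piA y d l := by
  unfold piR piA
  rw [Nat.floor_natCast]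

lemma piR_one (y : ℕ) : piR (y : ℝ) 1 0 = piN y := by
  unfold piR piN
  rw [Nat.floor_natCast]
  congr 1
  apply filter_congr
  intro p _
  simp [Nat.modEq_one]

/-- from `li` to `π` -/
lemma er_le (y r a : ℕ) (hr : 1 ≤ r) : er y r a ≤ err y r a + err y 1 0 * (1 / (Nat.totient r : ℝ)) := by
  have hφ : (0 : ℝ) < Nat.totient r := by exact_mod_cast Nat.totient_pos.2 hr
  unfold er err
  rw [piR_eq', piR_one, Nat.totient_one, Nat.cast_one, div_one]
  set L := ∫ t in (2 : ℝ)..(y : ℝ), 1 / Real.log t with hL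
  have e1 : (piA y r a : ℝ) - (piN y : ℝ) / (Nat.totient r : ℝ) =
      ((piA y r a : ℝ) - L / (Nat.totient r : ℝ)) - ((piN y : ℝ) - L) * (1 / (Nat.totient r : ℝ)) := by ring
  rw [e1]
  refine (abs_sub _ _).trans ?_
  rw [abs_mul, abs_of_nonneg (by positivity : 0 ≤ 1 / (Nat.totient r : ℝ))]

lemma er_small (y r a : ℕ) (hy : y < 2) : er y r a = 0 := by
  have h1 : piA y r a = 0 := by
    unfold piA
    rw [card_eq_zero, filter_eq_empty_iff]
    rintro p hp ⟨h2, _⟩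
    rw [mem_Icc] at hp
    have := h2.two_le
    omega
  have h2 : piN y = 0 := by
    unfold piN
    rw [card_eq_zero, filter_eq_empty_iff]
    intro p hp h2
    rw [mem_Icc] at hp
    have := h2.two_le
    omega
  unfold er
  rw [h1, h2]
  simp

/-- eventual inequalities -/
lemma ev_nat (K : ℝ) (k : ℕ) (s : ℝ) (hs : 0 < s) : ∃ x0 : ℕ, 3 ≤ x0 ∧ ∀ N : ℕ, x0 ≤ N →
    K * Real.log N ^ k ≤ (N : ℝ) ^ s := by
  have ev := tendsto_natCast_atTop_atTop (R := ℝ) |>.eventually (Pool.Agent.H398R2.BV.ev_log K k s hs)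
  obtain ⟨x0, h⟩ := eventually_atTop.1 ev
  exact ⟨max x0 3, le_max_right _ _, fun N hN => h N ((le_max_left _ _).trans hN)⟩

lemma ev_sqrt (K : ℝ) (k : ℕ) : ∃ x0 : ℕ, 3 ≤ x0 ∧ ∀ N : ℕ, x0 ≤ N → K * Real.log N ^ k ≤ Real.sqrt N := by
  obtain ⟨x0, h0, h⟩ := ev_nat K k (1 / 2) (by norm_num)
  refine ⟨x0, h0, fun N hN => ?_⟩
  rw [Real.sqrt_eq_rpow]
  exact h N hN

/-- Bombieri-Vinogradov, sum of the maxima -/
lemma bv_one (U : ℕ) : ∃ C : ℝ, 0 ≤ C ∧ ∃ x0 : ℕ, 3 ≤ x0 ∧ ∀ N : ℕ, x0 ≤ N → ∀ D : ℕ,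
    (D : ℝ) * Real.log N ^ (U + 4) ≤ Real.sqrt N → ∑ r ∈ Icc 1 D, Es N r ≤ C * (N / Real.log N ^ U) := by
  obtain ⟨C, hC, x1, h1⟩ := main_nat (U + 2)
  obtain ⟨x2, hx2, h2⟩ := ev_sqrt 1 (U + 4)
  refine ⟨10 * C, by positivity, max x1 x2, hx2.trans (le_max_right _ _), fun N hN D hD => ?_⟩
  have hN1 : x1 ≤ N := (le_max_left _ _).trans hN
  have hN2 : x2 ≤ N := (le_max_right _ _).trans hN
  have hN3 : 3 ≤ N := hx2.trans hN2
  have hl := one_le_log hN3
  set L := Real.log N with hL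
  have hL0 : 0 < L := by linarith
  have hNr : (0 : ℝ) < N := by
    have : 0 < N := by omega
    exact_mod_cast this
  have hs0 : 0 ≤ Real.sqrt N := Real.sqrt_nonneg _
  have hs2 : Real.sqrt N * Real.sqrt N = N := Real.mul_self_sqrt hNr.le
  have hll : Real.log L ≤ L := (Real.log_le_sub_one_of_pos hL0).trans (by linarith)
  have hll0 : 0 ≤ Real.log L := Real.log_nonneg hl
  -- the error terms for small moduli
  have key : ∀ E : ℕ, (E : ℝ) * L ^ (U + 4) ≤ Real.sqrt N →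
      E ^ 2 ≤ N ∧ (N : ℝ) / L ^ (U + 2) + E * Real.sqrt N * Real.log L ^ 2 ≤ 2 * (N / L ^ (U + 2)) := by
    intro E hE
    have hE0 : (0 : ℝ) ≤ E := Nat.cast_nonneg _
    have hp : 1 ≤ L ^ (U + 4) := one_le_pow₀ hl
    constructor
    · have h3 : (E : ℝ) ≤ Real.sqrt N := by nlinarith
      have h4 : (E : ℝ) ^ 2 ≤ N := by
        calc (E : ℝ) ^ 2 ≤ Real.sqrt N ^ 2 := pow_le_pow_left₀ hE0 h3 2
          _ = N := Real.sq_sqrt hNr.le
      exact_mod_cast h4
    · have h5 : (E : ℝ) * Real.sqrt N * Real.log L ^ 2 ≤ N / L ^ (U + 2) := by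
        rw [le_div_iff₀ (by positivity)]
        calc (E : ℝ) * Real.sqrt N * Real.log L ^ 2 * L ^ (U + 2) ≤
            (E : ℝ) * Real.sqrt N * L ^ 2 * L ^ (U + 2) := by gcongr
          _ = Real.sqrt N * ((E : ℝ) * L ^ (U + 4)) := by ring
          _ ≤ Real.sqrt N * Real.sqrt N := by gcongr
          _ = N := hs2
      linarith
  -- the prime number theorem
  have hpnt : ∀ y : ℕ, 2 ≤ y → y ≤ N → err (y : ℝ) 1 0 ≤ 2 * C * (N / L ^ (U + 2)) := by
    intro y hy2 hyN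
    have k1 := key 1 (by
      rw [Nat.cast_one]
      exact h2 N hN2)
    have h3 := h1 N hN1 1 (by nlinarith) (fun _ => (y : ℝ)) (fun _ => ⟨by exact_mod_cast hy2, by
      rw [Nat.floor_natCast]
      exact hyN⟩) (fun _ => 0) (by
        intro d hd
        rw [mem_Icc] at hd
        have : d = 1 := by omega
        subst this
        exact Nat.coprime_one_right 0)
    rw [Icc_self, sum_singleton] at h3
    refine h3.trans ?_
    calc C * ((N : ℝ) / Real.log N ^ (U + 2) + ((1 : ℕ) : ℝ) * Real.sqrt N * Real.log (Real.log N) ^ 2) ≤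
        C * (2 * (N / L ^ (U + 2))) := mul_le_mul_of_nonneg_left k1.2 hC
      _ = _ := by ring
  -- the choice
  have hch : ∀ r : ℕ, ∃ p : ℕ × ℕ, p.1 ≤ N ∧ (1 ≤ r → p.2.Coprime r ∧ Es N r ≤ er p.1 r p.2) := by
    intro r
    by_cases hr : 1 ≤ r
    · obtain ⟨y, a, h3, h4, h5⟩ := Es_attained N r hr
      exact ⟨(y, a), h3, fun _ => ⟨h4, h5⟩⟩
    · exact ⟨(0, 0), Nat.zero_le _, fun h => absurd h hr⟩
  choose p hpN hp using hch
  have k2 := key D hD
  have hPnn : 0 ≤ 2 * C * (N / L ^ (U + 2)) := by positivity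
  have hpt : ∀ r ∈ Icc 1 D, Es N r ≤ err ((max 2 (p r).1 : ℕ) : ℝ) r (p r).2 +
      (2 * C * (N / L ^ (U + 2))) * (1 / (Nat.totient r : ℝ)) := by
    intro r hr
    rw [mem_Icc] at hr
    obtain ⟨h4, h5⟩ := hp r hr.1
    refine h5.trans ?_
    rcases Nat.lt_or_ge (p r).1 2 with h6 | h6
    · rw [er_small _ _ _ h6]
      have : 0 ≤ err ((max 2 (p r).1 : ℕ) : ℝ) r (p r).2 := Pool.Agent.H300R2.WEH.err_nonneg _ _ _
      positivity
    · rw [max_eq_right h6]
      refine (er_le _ _ _ hr.1).trans ?_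
      apply add_le_add le_rfl
      apply mul_le_mul_of_nonneg_right _ (by positivity)
      exact hpnt _ h6 (hpN r)
  refine (sum_le_sum hpt).trans ?_
  rw [sum_add_distrib, ← mul_sum]
  have h3 := h1 N hN1 D k2.1 (fun r => ((max 2 (p r).1 : ℕ) : ℝ)) (fun r => ⟨by
      exact_mod_cast le_max_left 2 (p r).1, by
      rw [Nat.floor_natCast]
      exact max_le (by omega) (hpN r)⟩) (fun r => (p r).2) (by
        intro r hr
        rw [mem_Icc] at hr
        exact (hp r hr.1).1)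
  have h4 : ∑ d ∈ Icc 1 D, err ((max 2 (p d).1 : ℕ) : ℝ) d (p d).2 ≤ 2 * C * (N / L ^ (U + 2)) := by
    refine h3.trans ?_
    calc C * ((N : ℝ) / Real.log N ^ (U + 2) + (D : ℝ) * Real.sqrt N * Real.log (Real.log N) ^ 2) ≤
        C * (2 * (N / L ^ (U + 2))) := mul_le_mul_of_nonneg_left k2.2 hC
      _ = _ := by ring
  have h5 := Pool.Agent.H441R3.BV.sum_inv_tot D
  have hDN : (D : ℝ) ≤ N := by
    have : D ≤ N := by
      have := k2.1
      nlinarith
    exact_mod_cast this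
  have h6 : 1 + Real.log D ≤ 2 * L := by
    rcases Nat.eq_zero_or_pos D with h0 | h0
    · subst h0
      simp only [Nat.cast_zero, Real.log_zero]
      linarith
    · have : Real.log D ≤ L := Real.log_le_log (by exact_mod_cast h0) hDN
      linarith
  have h7 : 0 ≤ 1 + Real.log D := log1_nonneg D
  have h8 : (1 + Real.log D) ^ 2 ≤ 4 * L ^ 2 := by
    calc (1 + Real.log D) ^ 2 ≤ (2 * L) ^ 2 := pow_le_pow_left₀ h7 h6 2
      _ = _ := by ring
  have h9 : (2 * C * ((N : ℝ) / L ^ (U + 2))) * ∑ r ∈ Icc 1 D, 1 / (Nat.totient r : ℝ) ≤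
      (2 * C * (N / L ^ (U + 2))) * (4 * L ^ 2) := mul_le_mul_of_nonneg_left (h5.trans h8) hPnn
  have h10 : (2 * C * ((N : ℝ) / L ^ (U + 2))) * (4 * L ^ 2) = 8 * C * (N / L ^ U) := by
    rw [pow_add]
    field_simp
    ring
  have h11 : (N : ℝ) / L ^ (U + 2) ≤ N / L ^ U := by
    apply div_le_div_of_nonneg_left hNr.le (by positivity)
    exact pow_le_pow_right₀ hl (by omega)
  have h12 : 2 * C * ((N : ℝ) / L ^ (U + 2)) ≤ 2 * C * (N / L ^ U) := mul_le_mul_of_nonneg_left h11 (by positivity)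
  linarith

/-- **Bombieri-Vinogradov with divisor weights** -/
lemma bv_tau (U : ℕ) : ∃ B : ℕ, ∃ C : ℝ, 0 ≤ C ∧ ∃ x0 : ℕ, 3 ≤ x0 ∧ ∀ N : ℕ, x0 ≤ N → ∀ D : ℕ,
    (D : ℝ) * Real.log N ^ B ≤ Real.sqrt N →
    ∑ r ∈ Icc 1 D, (r.divisors.card : ℝ) ^ 2 * (Es N r + 1) ≤ C * (N / Real.log N ^ U) := by
  obtain ⟨C, hC, x1, hx1, h1⟩ := bv_one (2 * U + 32)
  obtain ⟨x2, hx2, h2⟩ := ev_sqrt 1 (U + 4)
  refine ⟨2 * U + 36, C + 2 * 2 ^ 32 + 16, by positivity, max x1 x2, hx1.trans (le_max_left _ _),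
    fun N hN D hD => ?_⟩
  have hN1 : x1 ≤ N := (le_max_left _ _).trans hN
  have hN2 : x2 ≤ N := (le_max_right _ _).trans hN
  have hN3 : 3 ≤ N := hx2.trans hN2
  have hl := one_le_log hN3
  set L := Real.log N with hL
  have hL0 : 0 < L := by linarith
  have hNr : (0 : ℝ) < N := by
    have : 0 < N := by omega
    exact_mod_cast this
  have hs0 : 0 ≤ Real.sqrt N := Real.sqrt_nonneg _
  have hs2 : Real.sqrt N * Real.sqrt N = N := Real.mul_self_sqrt hNr.le
  have hD0 : (0 : ℝ) ≤ D := Nat.cast_nonneg _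
  have hDs : (D : ℝ) ≤ Real.sqrt N := by
    have : 1 ≤ L ^ (2 * U + 36) := one_le_pow₀ hl
    nlinarith
  have hs1 : Real.sqrt N ≤ N := by
    have : 1 ≤ Real.sqrt N := by
      rw [Real.one_le_sqrt]
      have : 1 ≤ N := by omega
      exact_mod_cast this
    nlinarith
  have hDN : (D : ℝ) ≤ N := hDs.trans hs1
  have hDN' : D ≤ N := by exact_mod_cast hDN
  have h6 : 1 + Real.log D ≤ 2 * L := by
    rcases Nat.eq_zero_or_pos D with h0 | h0
    · subst h0
      simp only [Nat.cast_zero, Real.log_zero]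
      linarith
    · have : Real.log D ≤ L := Real.log_le_log (by exact_mod_cast h0) hDN
      linarith
  have h7 : 0 ≤ 1 + Real.log D := log1_nonneg D
  set τ : ℕ → ℝ := fun r => (r.divisors.card : ℝ) with hτ
  have hτ0 : ∀ r, 0 ≤ τ r := fun r => Nat.cast_nonneg _
  set lam : ℝ := L ^ (U + 32) with hlam
  have hlam0 : 0 < lam := by positivity
  -- the three sums
  have s1 : ∑ r ∈ Icc 1 D, Es N r ≤ C * (N / L ^ (2 * U + 32)) := h1 N hN1 D hD
  have s2 : ∑ r ∈ Icc 1 D, τ r ^ 4 * Es N r ≤ 2 * N * (2 * L) ^ 32 := by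
    have e1 : ∀ r ∈ Icc 1 D, τ r ^ 4 * Es N r ≤ 2 * N * (τ r ^ 5 / r) := by
      intro r hr
      rw [mem_Icc] at hr
      have e2 := Es_triv N r hr.1 (hr.2.trans hDN')
      have e3 := Pool.Agent.H441R3.BV.inv_tot_le r hr.1
      have h4 := hτ0 r
      calc τ r ^ 4 * Es N r ≤ τ r ^ 4 * (2 * N * (1 / (Nat.totient r : ℝ))) := by gcongr
        _ ≤ τ r ^ 4 * (2 * N * (τ r / r)) := by gcongr
        _ = _ := by ring
    refine (sum_le_sum e1).trans ?_
    rw [← mul_sum]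
    apply mul_le_mul_of_nonneg_left _ (by positivity)
    refine (tau_pow_div 5 D).trans ?_
    exact pow_le_pow_left₀ h7 h6 32
  have s3 : ∑ r ∈ Icc 1 D, τ r ^ 2 ≤ 16 * (N / L ^ U) := by
    have e1 : ∀ r ∈ Icc 1 D, τ r ^ 2 ≤ D * (τ r ^ 2 / r) := by
      intro r hr
      rw [mem_Icc] at hr
      have hr0 : (0 : ℝ) < r := by exact_mod_cast hr.1
      have hrD : (r : ℝ) ≤ D := by exact_mod_cast hr.2
      rw [mul_div_assoc', le_div_iff₀ hr0, mul_comm]
      exact mul_le_mul_of_nonneg_right hrD (by positivity)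
    refine (sum_le_sum e1).trans ?_
    rw [← mul_sum]
    have e2 : ∑ r ∈ Icc 1 D, τ r ^ 2 / r ≤ 16 * L ^ 4 := by
      refine (tau_pow_div 2 D).trans ?_
      calc (1 + Real.log D) ^ (2 ^ 2) ≤ (2 * L) ^ (2 ^ 2) := pow_le_pow_left₀ h7 h6 _
        _ = _ := by ring
    have e3 := h2 N hN2
    rw [one_mul] at e3
    calc (D : ℝ) * ∑ r ∈ Icc 1 D, τ r ^ 2 / r ≤ Real.sqrt N * (16 * L ^ 4) := by
          apply mul_le_mul hDs e2 _ hs0
          exact sum_nonneg fun r _ => by positivity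
      _ ≤ 16 * (N / L ^ U) := by
          rw [mul_div_assoc', le_div_iff₀ (by positivity)]
          calc Real.sqrt N * (16 * L ^ 4) * L ^ U = 16 * Real.sqrt N * L ^ (U + 4) := by ring
            _ ≤ 16 * Real.sqrt N * Real.sqrt N := by gcongr
            _ = 16 * N := by rw [mul_assoc, hs2]
  -- the combination
  have hpt : ∀ r ∈ Icc 1 D, τ r ^ 2 * (Es N r + 1) ≤
      lam⁻¹ * (τ r ^ 4 * Es N r) + lam * Es N r + τ r ^ 2 := by
    intro r _
    have e1 := Es_nonneg N r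
    have e2 : τ r ^ 2 ≤ lam⁻¹ * τ r ^ 4 + lam := by
      have e3 : 0 ≤ lam⁻¹ * (τ r ^ 2 - lam) ^ 2 := by positivity
      have e4 : lam⁻¹ * (τ r ^ 2 - lam) ^ 2 = lam⁻¹ * τ r ^ 4 - 2 * τ r ^ 2 + lam := by
        field_simp
        ring
      nlinarith [sq_nonneg (τ r)]
    nlinarith
  refine (sum_le_sum hpt).trans ?_
  rw [sum_add_distrib, sum_add_distrib, ← mul_sum, ← mul_sum]
  have t1 : lam⁻¹ * ∑ r ∈ Icc 1 D, τ r ^ 4 * Es N r ≤ 2 * 2 ^ 32 * (N / L ^ U) := by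
    calc lam⁻¹ * ∑ r ∈ Icc 1 D, τ r ^ 4 * Es N r ≤ lam⁻¹ * (2 * N * (2 * L) ^ 32) := by gcongr
      _ = _ := by
          rw [hlam, pow_add, mul_pow]
          field_simp
  have t2 : lam * ∑ r ∈ Icc 1 D, Es N r ≤ C * (N / L ^ U) := by
    calc lam * ∑ r ∈ Icc 1 D, Es N r ≤ lam * (C * (N / L ^ (2 * U + 32))) := by gcongr
      _ = _ := by
          rw [hlam, show 2 * U + 32 = (U + 32) + U by ring, pow_add L (U + 32) U]
          field_simp
  calc _ ≤ 2 * 2 ^ 32 * (N / L ^ U) + C * (N / L ^ U) + 16 * (N / L ^ U) := add_le_add (add_le_add t1 t2) s3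
    _ = _ := by ring

end Pool.Agent.U485.EH
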