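import Mathlib
import Pool.Agent.Helper112.LS

/-!
Fourier analysis modulo `m` of compatible families of functions on the residue classes.
-/

set_option autoImplicit false

namespace Pool.Agent.U485.EH

open Finset
open Pool.Agent.Helper112

lemma orth (m : ℕ) (hm : 1 ≤ m) (k : ℤ) :
    ∑ b ∈ range m, ee ((b : ℝ) * (k / m)) = if (m : ℤ) ∣ k then (m : ℂ) else 0 := by
  have hm0 : (m : ℝ) ≠ 0 := by
    have : 0 < m := hm
    positivity
  have e1 : ∀ b ∈ range m, ee ((b : ℝ) * (k / m)) = ee ((k : ℝ) / m) ^ b := fun b _ => ls_ee_nat_mul b _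
  rw [sum_congr rfl e1]
  split_ifs with h
  · obtain ⟨j, rfl⟩ := h
    have : (((m : ℤ) * j : ℤ) : ℝ) / m = (j : ℝ) := by
      push_cast
      field_simp
    rw [this, ls_ee_int]
    simp
  · have hne : ee ((k : ℝ) / m) ≠ 1 := by
      intro h1
      obtain ⟨n, hn⟩ := ls_ee_eq_one h1
      apply h
      refine ⟨n, ?_⟩
      rw [div_eq_iff hm0] at hn
      have : (k : ℝ) = ((m : ℤ) * n : ℤ) := by
        push_cast
        rw [hn]
        ring
      exact_mod_cast this
    rw [geom_sum_eq hne]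
    have : ee ((k : ℝ) / m) ^ m = 1 := by
      rw [← ls_ee_nat_mul, mul_div_cancel₀ _ hm0, ls_ee_int]
    rw [this, sub_self, zero_div]

lemma orth2 (m : ℕ) (hm : 1 ≤ m) (h h' : ℕ) (hh : h < m) (hh' : h' < m) :
    ∑ b ∈ range m, ee ((b : ℝ) * h' / m - (b : ℝ) * h / m) = if h = h' then (m : ℂ) else 0 := by
  have e1 : ∀ b ∈ range m, ee ((b : ℝ) * h' / m - (b : ℝ) * h / m) =
      ee ((b : ℝ) * ((((h' : ℤ) - h : ℤ) : ℝ) / m)) := by
    intro b _
    congr 1
    push_cast
    ring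
  rw [sum_congr rfl e1, orth m hm]
  congr 1
  rw [eq_iff_iff]
  constructor
  · rintro ⟨j, hj⟩
    have : j = 0 := by
      by_contra hne
      have h1 : (m : ℤ) ≤ |(m : ℤ) * j| := by
        rw [abs_mul, Nat.abs_cast]
        have : 1 ≤ |j| := Int.one_le_abs hne
        nlinarith
      rw [← hj] at h1
      have h2 : |(h' : ℤ) - h| < m := by
        rw [abs_lt]
        constructor <;> omega
      omega
    subst this
    omega
  · rintro rfl
    simp

/-- Parseval's identity modulo `m` -/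
lemma pars (m : ℕ) (hm : 1 ≤ m) (u : ℕ → ℂ) :
    ∑ b ∈ range m, ‖∑ h ∈ range m, u h * ee (-((b : ℝ) * h / m))‖ ^ 2 = m * ∑ h ∈ range m, ‖u h‖ ^ 2 := by
  have key : ∑ b ∈ range m, (∑ h ∈ range m, u h * ee (-((b : ℝ) * h / m))) *
      (starRingEnd ℂ) (∑ h ∈ range m, u h * ee (-((b : ℝ) * h / m))) =
      m * ∑ h ∈ range m, u h * (starRingEnd ℂ) (u h) := by
    simp_rw [map_sum, sum_mul_sum]
    rw [sum_comm, mul_sum]
    apply sum_congr rfl
    intro h hh
    rw [sum_comm]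
    have e1 : ∀ h' ∈ range m, ∑ b ∈ range m, u h * ee (-((b : ℝ) * h / m)) *
        (starRingEnd ℂ) (u h' * ee (-((b : ℝ) * h' / m))) =
        u h * (starRingEnd ℂ) (u h') * if h = h' then (m : ℂ) else 0 := by
      intro h' hh'
      rw [← orth2 m hm h h' (mem_range.1 hh) (mem_range.1 hh'), mul_sum]
      apply sum_congr rfl
      intro b _
      rw [map_mul, ls_conj_ee, neg_neg, sub_eq_add_neg, ls_ee_add]
      ring
    rw [sum_congr rfl e1, sum_eq_single_of_mem h hh]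
    · rw [if_pos rfl]
      ring
    · intro h' _ hne
      rw [if_neg (Ne.symm hne), mul_zero]
  have cv : ∀ z : ℂ, z * (starRingEnd ℂ) z = ((‖z‖ ^ 2 : ℝ) : ℂ) := by
    intro z
    rw [Complex.mul_conj, Complex.normSq_eq_norm_sq]
  simp_rw [cv] at key
  exact_mod_cast key

/-- fractions with the denominator `m`, sorted by the reduced denominator -/
lemma split (m : ℕ) (hm : 1 ≤ m) {R : Type*} [AddCommMonoid R] (G : ℕ → R) :
    ∑ h ∈ range m, G h = ∑ d ∈ m.divisors, ∑ h ∈ (range d).filter (fun h => h.Coprime d), G (h * (m / d)) := by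
  rw [sum_sigma']
  symm
  apply sum_bij' (fun (s : Σ _ : ℕ, ℕ) _ => s.2 * (m / s.1))
    (fun h _ => (⟨m / Nat.gcd h m, h / Nat.gcd h m⟩ : Σ _ : ℕ, ℕ))
  · rintro ⟨d, h⟩ hs
    rw [mem_sigma, mem_filter, mem_range, Nat.mem_divisors] at hs
    obtain ⟨⟨⟨e, he⟩, _⟩, h2, h3⟩ := hs
    simp only at *
    subst he
    have hd : 0 < d := by
      rcases Nat.eq_zero_or_pos d with h | h
      · subst h; omega
      · exact h
    have hee : 0 < e := by
      rcases Nat.eq_zero_or_pos e with h | h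
      · subst h; omega
      · exact h
    rw [mem_range, Nat.mul_div_cancel_left _ hd]
    exact Nat.mul_lt_mul_of_pos_right h2 hee
  · intro h hh
    rw [mem_range] at hh
    rw [mem_sigma, mem_filter, mem_range, Nat.mem_divisors]
    have hg : 0 < Nat.gcd h m := Nat.gcd_pos_of_pos_right _ (by omega)
    refine ⟨⟨Nat.div_dvd_of_dvd (Nat.gcd_dvd_right h m), by omega⟩, ?_, ?_⟩
    · simp only
      exact Nat.div_lt_div_of_lt_of_dvd (Nat.gcd_dvd_right h m) hh
    · simp only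
      exact Nat.coprime_div_gcd_div_gcd hg
  · rintro ⟨d, h⟩ hs
    rw [mem_sigma, mem_filter, mem_range, Nat.mem_divisors] at hs
    obtain ⟨⟨⟨e, he⟩, _⟩, h2, h3⟩ := hs
    simp only at *
    subst he
    have hd : 0 < d := by
      rcases Nat.eq_zero_or_pos d with h | h
      · subst h; omega
      · exact h
    have hee : 0 < e := by
      rcases Nat.eq_zero_or_pos e with h | h
      · subst h; omega
      · exact h
    rw [Nat.mul_div_cancel_left _ hd]
    have hg : Nat.gcd (h * e) (d * e) = e := by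
      rw [Nat.gcd_mul_right, h3, one_mul]
    rw [hg, Nat.mul_div_cancel _ hee, Nat.mul_div_cancel _ hee]
  · intro h hh
    simp only
    have hg : 0 < Nat.gcd h m := Nat.gcd_pos_of_pos_right _ (by omega)
    rw [Nat.div_div_self (Nat.gcd_dvd_right h m) (by omega)]
    exact Nat.div_mul_cancel (Nat.gcd_dvd_left h m)
  · rintro ⟨d, h⟩ _
    rfl

/-- the reduced denominator of `h (m / d) / m` -/
lemma red (m d h : ℕ) (hm : 1 ≤ m) (hd : d ∣ m) (hh : h.Coprime d) : m / Nat.gcd (h * (m / d)) m = d := by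
  obtain ⟨e, rfl⟩ := hd
  have hd : 0 < d := by
    rcases Nat.eq_zero_or_pos d with h | h
    · subst h; omega
    · exact h
  have hee : 0 < e := by
    rcases Nat.eq_zero_or_pos e with h | h
    · subst h; omega
    · exact h
  rw [Nat.mul_div_cancel_left _ hd, Nat.gcd_mul_right, hh, one_mul, Nat.mul_div_cancel _ hee]

/-- the Fourier transform modulo `m` -/
noncomputable def hat (F : ℕ → ℕ → ℝ) (m h : ℕ) : ℂ := ∑ b ∈ range m, (F m b : ℂ) * ee ((b : ℝ) * h / m)

/-- compatible family of functions on the residue classes -/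
def Compat (F : ℕ → ℕ → ℝ) : Prop :=
  ∀ m d : ℕ, 1 ≤ m → d ∣ m → ∀ b₀ < d, ∑ b ∈ (range m).filter (fun b => b % d = b₀), F m b = F d b₀

lemma ee_per (b h d : ℕ) (hd : 1 ≤ d) : ee ((b : ℝ) * h / d) = ee (((b % d : ℕ) : ℝ) * h / d) := by
  have hd0 : (d : ℝ) ≠ 0 := by
    have : 0 < d := hd
    positivity
  have e1 : (b : ℝ) * h / d = ((b % d : ℕ) : ℝ) * h / d + ((((b / d) * h : ℕ) : ℕ) : ℝ) := by
    have e2 : (b : ℝ) = (d : ℝ) * ((b / d : ℕ) : ℝ) + ((b % d : ℕ) : ℝ) := by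
      exact_mod_cast (Nat.div_add_mod b d).symm
    rw [e2]
    have e3 : (d * (b / d) + b % d) % d = b % d := by rw [Nat.div_add_mod]
    push_cast
    field_simp
    ring
  rw [e1, ls_ee_add, ls_ee_nat, mul_one]

lemma hat_compat (F : ℕ → ℕ → ℝ) (hF : Compat F) (m d h : ℕ) (hm : 1 ≤ m) (hd : d ∣ m) :
    hat F m (h * (m / d)) = hat F d h := by
  have hd1 : 1 ≤ d := Nat.pos_of_dvd_of_pos hd hm
  have hd0 : (d : ℝ) ≠ 0 := by
    have : 0 < d := hd1
    positivity
  have hm0 : (m : ℝ) ≠ 0 := by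
    have : 0 < m := hm
    positivity
  unfold hat
  have hmaps : ∀ b ∈ range m, b % d ∈ range d := fun b _ => mem_range.2 (Nat.mod_lt _ hd1)
  rw [← sum_fiberwise_of_maps_to hmaps]
  apply sum_congr rfl
  intro b₀ hb₀
  rw [← hF m d hm hd b₀ (mem_range.1 hb₀), Complex.ofReal_sum, sum_mul]
  apply sum_congr rfl
  intro b hb
  rw [mem_filter] at hb
  congr 1
  have e1 : (b : ℝ) * ((h * (m / d) : ℕ) : ℝ) / m = (b : ℝ) * h / d := by
    obtain ⟨e, rfl⟩ := hd
    have he : (e : ℝ) ≠ 0 := by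
      intro h0
      apply hm0
      push_cast
      rw [h0, mul_zero]
    rw [Nat.mul_div_cancel_left _ hd1]
    push_cast
    field_simp
  rw [e1, ee_per b h d hd1, hb.2]

lemma inv_hat (F : ℕ → ℕ → ℝ) (m : ℕ) (hm : 1 ≤ m) (t : ℕ) (ht : t < m) :
    ∑ h ∈ range m, hat F m h * ee (-((t : ℝ) * h / m)) = m * (F m t : ℂ) := by
  unfold hat
  simp_rw [sum_mul]
  rw [sum_comm]
  have e1 : ∀ b ∈ range m, ∑ h ∈ range m, (F m b : ℂ) * ee ((b : ℝ) * h / m) * ee (-((t : ℝ) * h / m)) =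
      (F m b : ℂ) * if t = b then (m : ℂ) else 0 := by
    intro b hb
    rw [← orth2 m hm t b ht (mem_range.1 hb), mul_sum]
    apply sum_congr rfl
    intro h _
    rw [mul_assoc, ← ls_ee_add]
    congr 2
    ring
  rw [sum_congr rfl e1, sum_eq_single_of_mem t (mem_range.2 ht)]
  · rw [if_pos rfl]
    ring
  · intro b _ hne
    rw [if_neg (Ne.symm hne), mul_zero]

/-- the part of `d F(d, t)` from the primitive frequencies -/
noncomputable def P (F : ℕ → ℕ → ℝ) (d t : ℕ) : ℂ :=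
  ∑ h ∈ (range d).filter (fun h => h.Coprime d), hat F d h * ee (-((t : ℝ) * h / d))

/-- the mean square of the Fourier transform over the primitive frequencies -/
noncomputable def W (F : ℕ → ℕ → ℝ) (d : ℕ) : ℝ :=
  ∑ h ∈ (range d).filter (fun h => h.Coprime d), ‖hat F d h‖ ^ 2

lemma W_nonneg (F : ℕ → ℕ → ℝ) (d : ℕ) : 0 ≤ W F d := sum_nonneg fun _ _ => by positivity

/-- periodic family -/
def Per (F : ℕ → ℕ → ℝ) : Prop := ∀ m t : ℕ, 1 ≤ m → F m t = F m (t % m)

lemma sum_P (F : ℕ → ℕ → ℝ) (hF : Compat F) (hP : Per F) (m : ℕ) (hm : 1 ≤ m) (t : ℕ) :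
    ∑ d ∈ m.divisors, P F d t = m * (F m t : ℂ) := by
  have hm0 : (m : ℝ) ≠ 0 := by
    have : 0 < m := hm
    positivity
  rw [hP m t hm, ← inv_hat F m hm (t % m) (Nat.mod_lt _ hm), split m hm]
  apply sum_congr rfl
  intro d hd
  have hdm := Nat.dvd_of_mem_divisors hd
  have hd1 : 1 ≤ d := Nat.pos_of_dvd_of_pos hdm hm
  unfold P
  apply sum_congr rfl
  intro h _
  rw [hat_compat F hF m d h hm hdm]
  congr 1
  have e1 : (((t % m : ℕ) : ℝ)) * ((h * (m / d) : ℕ) : ℝ) / m = ((t % m : ℕ) : ℝ) * h / d := by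
    obtain ⟨e, rfl⟩ := hdm
    have he : (e : ℝ) ≠ 0 := by
      intro h0
      apply hm0
      push_cast
      rw [h0, mul_zero]
    rw [Nat.mul_div_cancel_left _ hd1]
    have hd0 : (d : ℝ) ≠ 0 := by
      have : 0 < d := hd1
      positivity
    push_cast
    field_simp
  rw [e1, ← ls_conj_ee, ← ls_conj_ee, ee_per t h d hd1, ee_per (t % m) h d hd1, Nat.mod_mod_of_dvd _ hdm]

lemma P_le (F : ℕ → ℕ → ℝ) (hF : Compat F) (hP : Per F) (d : ℕ) (hd : 1 ≤ d) (t : ℕ) :
    ‖P F d t‖ ≤ ∑ j ∈ d.divisors, (j : ℝ) * |F j t| := by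
  have h1 := (ArithmeticFunction.sum_eq_iff_sum_mul_moebius_eq (R := ℂ) (f := fun d => P F d t)
    (g := fun m => (m : ℂ) * (F m t : ℂ))).1 (fun n hn => sum_P F hF hP n hn t) d hd
  have h2 : P F d t = ∑ x ∈ d.divisorsAntidiagonal, (ArithmeticFunction.moebius x.1 : ℂ) *
      ((x.2 : ℂ) * (F x.2 t : ℂ)) := h1.symm
  rw [h2]
  refine (norm_sum_le _ _).trans ?_
  have h3 : ∀ x ∈ d.divisorsAntidiagonal, ‖(ArithmeticFunction.moebius x.1 : ℂ) *
      ((x.2 : ℂ) * (F x.2 t : ℂ))‖ ≤ (x.2 : ℝ) * |F x.2 t| := by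
    intro x _
    rw [norm_mul, norm_mul, Complex.norm_real, Complex.norm_natCast, Real.norm_eq_abs]
    have h4 : ‖(ArithmeticFunction.moebius x.1 : ℂ)‖ ≤ 1 := by
      rw [Complex.norm_intCast]
      exact_mod_cast ArithmeticFunction.abs_moebius_le_one
    have h5 : 0 ≤ (x.2 : ℝ) * |F x.2 t| := by positivity
    nlinarith [norm_nonneg (ArithmeticFunction.moebius x.1 : ℂ)]
  refine (sum_le_sum h3).trans (le_of_eq ?_)
  rw [Nat.sum_divisorsAntidiagonal' (f := fun _ j => (j : ℝ) * |F j t|)]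

/-- the part of `F(m, t)` from the frequencies with denominators `≤ R` -/
noncomputable def Lo (F : ℕ → ℕ → ℝ) (R m t : ℕ) : ℂ :=
  (1 / (m : ℂ)) * ∑ d ∈ m.divisors.filter (fun d => d ≤ R), P F d t

/-- the part of `F(m, t)` from the frequencies with denominators `> R` -/
noncomputable def Hi (F : ℕ → ℕ → ℝ) (R m t : ℕ) : ℂ :=
  (1 / (m : ℂ)) * ∑ d ∈ m.divisors.filter (fun d => ¬ d ≤ R), P F d t

lemma F_eq (F : ℕ → ℕ → ℝ) (hF : Compat F) (hP : Per F) (R m : ℕ) (hm : 1 ≤ m) (t : ℕ) :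
    (F m t : ℂ) = Lo F R m t + Hi F R m t := by
  have hm0 : (m : ℂ) ≠ 0 := by
    have : m ≠ 0 := by omega
    exact_mod_cast this
  unfold Lo Hi
  rw [← mul_add, sum_filter_add_sum_filter_not, sum_P F hF hP m hm t]
  field_simp

lemma Lo_le (F : ℕ → ℕ → ℝ) (hF : Compat F) (hP : Per F) (R m : ℕ) (hm : 1 ≤ m) (t : ℕ) :
    ‖Lo F R m t‖ ≤ (m.divisors.card : ℝ) / m * ∑ j ∈ m.divisors.filter (fun j => j ≤ R), (j : ℝ) * |F j t| := by
  unfold Lo
  rw [norm_mul, norm_div, norm_one, Complex.norm_natCast, div_mul_eq_mul_div, div_mul_eq_mul_div, one_mul]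
  apply div_le_div_of_nonneg_right _ (Nat.cast_nonneg _)
  refine (norm_sum_le _ _).trans ?_
  have h1 : ∀ d ∈ m.divisors.filter (fun d => d ≤ R), ‖P F d t‖ ≤
      ∑ j ∈ m.divisors.filter (fun j => j ≤ R), (j : ℝ) * |F j t| := by
    intro d hd
    rw [mem_filter, Nat.mem_divisors] at hd
    have hd1 : 1 ≤ d := Nat.pos_of_dvd_of_pos hd.1.1 hm
    refine (P_le F hF hP d hd1 t).trans ?_
    apply sum_le_sum_of_subset_of_nonneg
    · intro j hj
      rw [Nat.mem_divisors] at hj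
      rw [mem_filter, Nat.mem_divisors]
      exact ⟨⟨hj.1.trans hd.1.1, by omega⟩, (Nat.le_of_dvd hd1 hj.1).trans hd.2⟩
    · intro j _ _
      positivity
  refine (sum_le_card_nsmul _ _ _ h1).trans ?_
  rw [nsmul_eq_mul]
  apply mul_le_mul_of_nonneg_right
  · exact_mod_cast card_filter_le _ _
  · exact sum_nonneg fun j _ => by positivity

/-- Parseval's identity for the high part -/
lemma Hi_sq (F : ℕ → ℕ → ℝ) (hF : Compat F) (R m : ℕ) (hm : 1 ≤ m) :
    ∑ b ∈ range m, ‖Hi F R m b‖ ^ 2 = (1 / (m : ℝ)) * ∑ d ∈ m.divisors.filter (fun d => ¬ d ≤ R), W F d := by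
  have hm0 : (m : ℝ) ≠ 0 := by
    have : 0 < m := hm
    positivity
  set u : ℕ → ℂ := fun h => if ¬ m / Nat.gcd h m ≤ R then hat F m h else 0 with hu
  have h1 : ∀ b ∈ range m, ‖Hi F R m b‖ ^ 2 = (1 / (m : ℝ)) ^ 2 *
      ‖∑ h ∈ range m, u h * ee (-((b : ℝ) * h / m))‖ ^ 2 := by
    intro b _
    unfold Hi
    rw [norm_mul, mul_pow, norm_div, norm_one, Complex.norm_natCast]
    congr 3
    rw [split m hm, sum_filter]
    apply sum_congr rfl
    intro d hd
    have hdm := Nat.dvd_of_mem_divisors hd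
    have hd1 : 1 ≤ d := Nat.pos_of_dvd_of_pos hdm hm
    have hd0 : (d : ℝ) ≠ 0 := by
      have : 0 < d := hd1
      positivity
    have e0 : ∀ h ∈ (range d).filter (fun h => h.Coprime d), u (h * (m / d)) *
        ee (-((b : ℝ) * ((h * (m / d) : ℕ) : ℝ) / m)) =
        if ¬ d ≤ R then hat F d h * ee (-((b : ℝ) * h / d)) else 0 := by
      intro h hh
      rw [mem_filter] at hh
      rw [hu]
      simp only
      rw [red m d h hm hdm hh.2, hat_compat F hF m d h hm hdm]
      have e1 : (b : ℝ) * ((h * (m / d) : ℕ) : ℝ) / m = (b : ℝ) * h / d := by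
        obtain ⟨e, rfl⟩ := hdm
        have he : (e : ℝ) ≠ 0 := by
          intro h0
          apply hm0
          push_cast
          rw [h0, mul_zero]
        rw [Nat.mul_div_cancel_left _ hd1]
        push_cast
        field_simp
      rw [e1]
      split_ifs <;> simp
    rw [sum_congr rfl e0]
    by_cases h : d ≤ R
    · simp [h]
    · simp [h, P]
  rw [sum_congr rfl h1, ← mul_sum, pars m hm, split m hm, sum_filter]
  have h2 : ∀ d ∈ m.divisors, ∑ h ∈ (range d).filter (fun h => h.Coprime d), ‖u (h * (m / d))‖ ^ 2 =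
      if ¬ d ≤ R then W F d else 0 := by
    intro d hd
    have hdm := Nat.dvd_of_mem_divisors hd
    have e0 : ∀ h ∈ (range d).filter (fun h => h.Coprime d), ‖u (h * (m / d))‖ ^ 2 =
        if ¬ d ≤ R then ‖hat F d h‖ ^ 2 else 0 := by
      intro h hh
      rw [mem_filter] at hh
      rw [hu]
      simp only
      rw [red m d h hm hdm hh.2, hat_compat F hF m d h hm hdm]
      split_ifs <;> simp
    rw [sum_congr rfl e0]
    by_cases h : d ≤ R
    · simp [h]
    · simp [h, W]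
  rw [sum_congr rfl h2]
  field_simp

/-- Parseval's identity for all the frequencies -/
lemma F_sq (F : ℕ → ℕ → ℝ) (hF : Compat F) (m : ℕ) (hm : 1 ≤ m) :
    ∑ b ∈ range m, F m b ^ 2 = (1 / (m : ℝ)) * ∑ d ∈ m.divisors, W F d := by
  have hm0 : (m : ℝ) ≠ 0 := by
    have : 0 < m := hm
    positivity
  have h1 : ∀ b ∈ range m, F m b ^ 2 = (1 / (m : ℝ)) ^ 2 *
      ‖∑ h ∈ range m, hat F m h * ee (-((b : ℝ) * h / m))‖ ^ 2 := by
    intro b hb
    rw [inv_hat F m hm b (mem_range.1 hb), norm_mul, Complex.norm_natCast, Complex.norm_real,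
      Real.norm_eq_abs, mul_pow, sq_abs]
    field_simp
  rw [sum_congr rfl h1, ← mul_sum, pars m hm, split m hm]
  have h2 : ∀ d ∈ m.divisors, ∑ h ∈ (range d).filter (fun h => h.Coprime d), ‖hat F m (h * (m / d))‖ ^ 2 =
      W F d := by
    intro d hd
    have hdm := Nat.dvd_of_mem_divisors hd
    unfold W
    apply sum_congr rfl
    intro h _
    rw [hat_compat F hF m d h hm hdm]
  rw [sum_congr rfl h2]
  field_simp

/-- the crude bound for the mean square over the primitive frequencies -/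
lemma W_le (F : ℕ → ℕ → ℝ) (hF : Compat F) (d : ℕ) (hd : 1 ≤ d) : W F d ≤ d * ∑ b ∈ range d, F d b ^ 2 := by
  have hd0 : (0 : ℝ) < d := by exact_mod_cast hd
  rw [F_sq F hF d hd, ← mul_assoc, mul_one_div_cancel hd0.ne', one_mul]
  exact single_le_sum (f := fun e => W F e) (fun e _ => W_nonneg F e) (Nat.mem_divisors_self d (by omega))

end Pool.Agent.U485.EH
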