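import Pool.Agent.U485.EH.Mn

/-!
The low part; the mean square over all the lifts.
-/

set_option autoImplicit false

namespace Pool.Agent.U485.EH

open Finset Filter
open Pool.Agent.H441R3.BV (one_le_log)

lemma low_gen (M R : ℕ) (w : ℕ → ℝ) :
    ∑ m ∈ Icc 1 M, (1 / (m : ℝ)) * ∑ d ∈ m.divisors.filter (fun d => d ≤ R), w d =
      ∑ j ∈ Icc 1 M, (1 / (j : ℝ)) * ∑ d ∈ (Icc 1 (M / j)).filter (fun d => d ≤ R), w d / d := by
  have h := dir2 M (fun d j => if d ≤ R then (1 / (j : ℝ)) * (w d / d) else 0)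
  have e2 : ∀ j ∈ Icc 1 M, ∑ d ∈ Icc 1 (M / j), (if d ≤ R then (1 / (j : ℝ)) * (w d / d) else 0) =
      (1 / (j : ℝ)) * ∑ d ∈ (Icc 1 (M / j)).filter (fun d => d ≤ R), w d / d := by
    intro j _
    rw [← sum_filter, mul_sum]
  rw [sum_congr rfl e2] at h
  rw [← h]
  apply sum_congr rfl
  intro m hm
  rw [mem_Icc] at hm
  rw [mul_sum, sum_filter]
  apply sum_congr rfl
  intro d hd
  have hdm := Nat.dvd_of_mem_divisors hd
  have hd1 : 0 < d := Nat.pos_of_dvd_of_pos hdm (by omega)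
  split_ifs
  · have h3 : (m : ℝ) = (d : ℝ) * ((m / d : ℕ) : ℝ) := by
      rw [← Nat.cast_mul, Nat.mul_div_cancel' hdm]
    rw [h3]
    have h4 : (d : ℝ) ≠ 0 := by positivity
    rw [one_div_mul_eq_div, one_div_mul_eq_div, div_div]
  · rfl

/-- pairs of a modulus and a cofactor -/
lemma pairs (Q R : ℕ) (G : ℕ → ℝ) (hG : ∀ r, 0 ≤ G r) :
    ∑ q ∈ Icc 1 Q, ∑ d ∈ Icc 1 R, (d.divisors.card : ℝ) * G (q * d) ≤
      ∑ r ∈ Icc 1 (Q * R), (r.divisors.card : ℝ) ^ 2 * G r := by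
  rw [← sum_product']
  have hmaps : ∀ p ∈ (Icc 1 Q) ×ˢ (Icc 1 R), p.1 * p.2 ∈ Icc 1 (Q * R) := by
    intro p hp
    rw [mem_product, mem_Icc, mem_Icc] at hp
    rw [mem_Icc]
    exact ⟨Nat.mul_pos hp.1.1 hp.2.1, Nat.mul_le_mul hp.1.2 hp.2.2⟩
  rw [← sum_fiberwise_of_maps_to hmaps]
  apply sum_le_sum
  intro r hr
  rw [mem_Icc] at hr
  have h1 : ∀ p ∈ ((Icc 1 Q) ×ˢ (Icc 1 R)).filter (fun p => p.1 * p.2 = r),
      (p.2.divisors.card : ℝ) * G (p.1 * p.2) ≤ (r.divisors.card : ℝ) * G r := by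
    intro p hp
    rw [mem_filter] at hp
    rw [hp.2]
    apply mul_le_mul_of_nonneg_right _ (hG r)
    have : p.2.divisors ⊆ r.divisors := Nat.divisors_subset_of_dvd (by omega) ⟨p.1, by rw [← hp.2]; ring⟩
    exact_mod_cast card_le_card this
  refine (sum_le_card_nsmul _ _ _ h1).trans ?_
  rw [nsmul_eq_mul, sq, mul_assoc]
  apply mul_le_mul_of_nonneg_right _ (mul_nonneg (Nat.cast_nonneg _) (hG r))
  have h2 : ((Icc 1 Q) ×ˢ (Icc 1 R)).filter (fun p => p.1 * p.2 = r) ⊆ r.divisorsAntidiagonal := by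
    intro p hp
    rw [mem_filter] at hp
    rw [Nat.mem_divisorsAntidiagonal]
    exact ⟨hp.2, by omega⟩
  have h3 : r.divisorsAntidiagonal.card = r.divisors.card := by
    rw [← Nat.map_div_right_divisors, card_map]
  rw [← h3]
  exact_mod_cast card_le_card h2

/-- the low part of the mean square -/
lemma low_sum : ∃ C : ℝ, 1 ≤ C ∧ ∀ N : ℕ, 3 ≤ N → ∀ Q R : ℕ, Q * Q ≤ N → ∀ M : ℕ → ℕ, (∀ q, M q ≤ N) →
    ∀ a y : ℕ → ℕ, (∀ q ∈ Icc 1 Q, a q < q ∧ (a q).Coprime q) → (∀ q, y q ≤ N) →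
    ∑ q ∈ Icc 1 Q, (Nat.totient q : ℝ) * ∑ m ∈ Icc 1 (M q), (1 / (m : ℝ)) *
      ∑ d ∈ m.divisors.filter (fun d => d ≤ R), W (FF q (a q) (y q)) d ≤
      C * N * Real.log N * ∑ r ∈ Icc 1 (Q * R), (r.divisors.card : ℝ) ^ 2 * (Es N r + 1) := by
  obtain ⟨c1, hc1, hbt⟩ := bt
  obtain ⟨c2, hc2, hpi⟩ := piN_bt
  refine ⟨2 * (c1 + c2), by linarith, fun N hN Q R hQ M hM a y ha hy => ?_⟩
  have hl := one_le_log hN
  set L := Real.log N with hL
  have hL0 : 0 < L := by linarith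
  have hNr : (0 : ℝ) < N := by
    have : 0 < N := by omega
    exact_mod_cast this
  have hpt : ∀ q ∈ Icc 1 Q, (Nat.totient q : ℝ) * ∑ m ∈ Icc 1 (M q), (1 / (m : ℝ)) *
      ∑ d ∈ m.divisors.filter (fun d => d ≤ R), W (FF q (a q) (y q)) d ≤
      (2 * (c1 + c2) * N * L) * ∑ d ∈ Icc 1 R, (d.divisors.card : ℝ) * (Es N (q * d) + 1) := by
    intro q hq
    have hq' := mem_Icc.1 hq
    have hlM0 : 0 ≤ 1 + Real.log (M q) := log1_nonneg (M q)
    have hlM : 1 + Real.log (M q) ≤ 2 * L := log_le2 hN (hM q)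
    have hq0 : (0 : ℝ) < q := by exact_mod_cast hq'.1
    have hφ : (0 : ℝ) < Nat.totient q := by exact_mod_cast Nat.totient_pos.2 hq'.1
    have hqq : q * q ≤ N := (Nat.mul_le_mul hq'.2 hq'.2).trans hQ
    obtain ⟨ha1, ha2⟩ := ha q hq
    have h2 := hbt N hN q (a q) (y q) hq'.1 hqq (hy q)
    have h3 := hpi N hN (y q) (hy q)
    have hcomp := FF_compat q (a q) (y q) hq'.1 ha2
    -- one d
    have hW : ∀ d : ℕ, 1 ≤ d → W (FF q (a q) (y q)) d / d ≤
        ((c1 + c2) * N / (Nat.totient q : ℝ)) * (Es N (q * d) + 1) := by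
      intro d hd
      have hd0 : (0 : ℝ) < d := by exact_mod_cast hd
      rw [div_le_iff₀ hd0]
      refine (W_le _ hcomp d hd).trans ?_
      have h4 : ∀ b ∈ range d, FF q (a q) (y q) d b ^ 2 ≤
          (Es N (q * d) + 1) * (CC q (a q) (y q) d b + GG q (a q) (y q) d b) := by
        intro b _
        have h5 := FF_le N q (a q) (y q) d b hq'.1 hd ha1 ha2 (hy q)
        have h6 := CC_nonneg q (a q) (y q) d b
        have h7 := GG_nonneg q (a q) (y q) d b
        have h8 : |FF q (a q) (y q) d b| ≤ CC q (a q) (y q) d b + GG q (a q) (y q) d b := by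
          unfold FF
          rw [abs_le]
          constructor <;> linarith
        rw [← sq_abs, sq]
        exact mul_le_mul h5 h8 (abs_nonneg _) (by linarith [Es_nonneg N (q * d)])
      have h5 : ∑ b ∈ range d, (CC q (a q) (y q) d b + GG q (a q) (y q) d b) ≤
          (c1 + c2) * N / (Nat.totient q : ℝ) := by
        rw [sum_add_distrib]
        have e1 : ∑ b ∈ range d, CC q (a q) (y q) d b = CC q (a q) (y q) 1 0 := by
          have := CC_compat q (a q) (y q) d 1 hd (one_dvd d) 0 (by norm_num)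
          rw [← this]
          apply sum_congr _ (fun _ _ => rfl)
          ext b
          simp [Nat.mod_one]
        have e2 : ∑ b ∈ range d, GG q (a q) (y q) d b = (piN (y q) : ℝ) / (Nat.totient q : ℝ) := by
          have := GG_compat q (a q) (y q) hq'.1 ha2 d 1 hd (one_dvd d) 0 (by norm_num)
          have e3 : GG q (a q) (y q) 1 0 = (piN (y q) : ℝ) / (Nat.totient q : ℝ) := by
            unfold GG
            rw [if_pos (Nat.coprime_one_right _), mul_one]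
          rw [← e3, ← this]
          apply sum_congr _ (fun _ _ => rfl)
          ext b
          simp [Nat.mod_one]
        rw [e1, e2]
        have e4 : CC q (a q) (y q) 1 0 ≤ c1 * N / (Nat.totient q : ℝ) := by
          refine h2.trans ?_
          rw [mul_div_assoc]
          apply mul_le_mul_of_nonneg_left _ (by linarith)
          apply div_le_div_of_nonneg_left hNr.le hφ
          nlinarith
        have e5 : (piN (y q) : ℝ) / (Nat.totient q : ℝ) ≤ c2 * N / (Nat.totient q : ℝ) := by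
          apply div_le_div_of_nonneg_right _ hφ.le
          refine h3.trans ?_
          apply mul_le_mul_of_nonneg_left _ (by linarith)
          exact div_le_self hNr.le hl
        calc _ ≤ c1 * N / (Nat.totient q : ℝ) + c2 * N / (Nat.totient q : ℝ) := add_le_add e4 e5
          _ = _ := by ring
      have h6 : 0 ≤ Es N (q * d) + 1 := by linarith [Es_nonneg N (q * d)]
      calc (d : ℝ) * ∑ b ∈ range d, FF q (a q) (y q) d b ^ 2 ≤
          d * ∑ b ∈ range d, (Es N (q * d) + 1) * (CC q (a q) (y q) d b + GG q (a q) (y q) d b) := by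
            apply mul_le_mul_of_nonneg_left _ hd0.le
            exact sum_le_sum h4
        _ ≤ d * ((Es N (q * d) + 1) * ((c1 + c2) * N / (Nat.totient q : ℝ))) := by
            rw [← mul_sum]
            gcongr
        _ = _ := by ring
    rw [low_gen]
    have h7 : ∀ j ∈ Icc 1 (M q), (1 / (j : ℝ)) * ∑ d ∈ (Icc 1 (M q / j)).filter (fun d => d ≤ R),
        W (FF q (a q) (y q)) d / d ≤ (1 / (j : ℝ)) * (((c1 + c2) * N / (Nat.totient q : ℝ)) *
          ∑ d ∈ Icc 1 R, (d.divisors.card : ℝ) * (Es N (q * d) + 1)) := by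
      intro j _
      apply mul_le_mul_of_nonneg_left _ (by positivity)
      rw [mul_sum]
      have h8 : ∑ d ∈ (Icc 1 (M q / j)).filter (fun d => d ≤ R), W (FF q (a q) (y q)) d / d ≤
          ∑ d ∈ Icc 1 R, W (FF q (a q) (y q)) d / d := by
        apply sum_le_sum_of_subset_of_nonneg
        · intro d hd
          rw [mem_filter, mem_Icc] at hd
          rw [mem_Icc]
          exact ⟨hd.1.1, hd.2⟩
        · intro d _ _
          exact div_nonneg (W_nonneg _ _) (Nat.cast_nonneg _)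
      refine h8.trans ?_
      apply sum_le_sum
      intro d hd
      rw [mem_Icc] at hd
      refine (hW d hd.1).trans ?_
      apply mul_le_mul_of_nonneg_left _ (by positivity)
      have h9 : (1 : ℝ) ≤ d.divisors.card := by
        have : 1 ≤ d.divisors.card := card_pos.2 (Nat.nonempty_divisors.2 (by omega))
        exact_mod_cast this
      have h10 : 0 ≤ Es N (q * d) + 1 := by linarith [Es_nonneg N (q * d)]
      nlinarith
    have h8 := sum_le_sum h7
    rw [← sum_mul] at h8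
    have hS0 : 0 ≤ ∑ d ∈ Icc 1 R, (d.divisors.card : ℝ) * (Es N (q * d) + 1) :=
      sum_nonneg fun d _ => mul_nonneg (Nat.cast_nonneg _) (by linarith [Es_nonneg N (q * d)])
    have hY0 : 0 ≤ ((c1 + c2) * N / (Nat.totient q : ℝ)) *
        ∑ d ∈ Icc 1 R, (d.divisors.card : ℝ) * (Es N (q * d) + 1) := mul_nonneg (by positivity) hS0
    calc (Nat.totient q : ℝ) * _ ≤ (Nat.totient q : ℝ) * ((∑ j ∈ Icc 1 (M q), 1 / (j : ℝ)) *
          (((c1 + c2) * N / (Nat.totient q : ℝ)) *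
          ∑ d ∈ Icc 1 R, (d.divisors.card : ℝ) * (Es N (q * d) + 1))) := mul_le_mul_of_nonneg_left h8 hφ.le
      _ ≤ (Nat.totient q : ℝ) * ((2 * L) * (((c1 + c2) * N / (Nat.totient q : ℝ)) *
          ∑ d ∈ Icc 1 R, (d.divisors.card : ℝ) * (Es N (q * d) + 1))) := by
          apply mul_le_mul_of_nonneg_left _ hφ.le
          exact mul_le_mul_of_nonneg_right ((harm (M q)).trans hlM) hY0
      _ = _ := by
          set S := ∑ d ∈ Icc 1 R, (d.divisors.card : ℝ) * (Es N (q * d) + 1)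
          clear_value S
          clear h8 h7 hW hcomp
          field_simp
  refine (sum_le_sum hpt).trans ?_
  rw [← mul_sum]
  apply mul_le_mul_of_nonneg_left _ (by positivity)
  exact pairs Q R (fun r => Es N r + 1) (fun r => by linarith [Es_nonneg N r])

/-- the mean square over the lifts, for classes `a q < q` -/
lemma meansq (A : ℕ) : ∃ B : ℕ, ∃ C : ℝ, 0 ≤ C ∧ ∃ x0 : ℕ, 3 ≤ x0 ∧ ∀ N : ℕ, x0 ≤ N → ∀ Q : ℕ,
    (Q : ℝ) * Real.log N ^ B ≤ Real.sqrt N → ∀ M : ℕ → ℕ, (∀ q, M q ≤ N) →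
    ∀ a y : ℕ → ℕ, (∀ q ∈ Icc 1 Q, a q < q ∧ (a q).Coprime q) → (∀ q, y q ≤ N) →
    ∑ q ∈ Icc 1 Q, (Nat.totient q : ℝ) * ∑ m ∈ Icc 1 (M q), ∑ b ∈ range m, FF q (a q) (y q) m b ^ 2 ≤
      C * ((∑ q ∈ Icc 1 Q, (M q : ℝ)) * N / Real.log N + N ^ 2 / Real.log N ^ A) := by
  obtain ⟨B0, C1, hC1, x1, hx1, hbv⟩ := bv_tau (A + 1)
  obtain ⟨C2, hC2, hhigh⟩ := high_sum
  obtain ⟨C3, hC3, hlow⟩ := low_sum
  refine ⟨B0 + A + 3, C2 + C3 * C1, by positivity, x1, hx1, fun N hN Q hQ M hM a y ha hy => ?_⟩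
  have hN3 : 3 ≤ N := hx1.trans hN
  have hl := one_le_log hN3
  set L := Real.log N with hL
  have hL0 : 0 < L := by linarith
  have hNr : (0 : ℝ) < N := by
    have : 0 < N := by omega
    exact_mod_cast this
  have hs0 : 0 ≤ Real.sqrt N := Real.sqrt_nonneg _
  have hQ0 : (0 : ℝ) ≤ Q := Nat.cast_nonneg _
  set R := ⌊L ^ (A + 3)⌋₊ with hR
  have hR1 : (R : ℝ) ≤ L ^ (A + 3) := Nat.floor_le (by positivity)
  have hR2 : L ^ (A + 3) ≤ (R : ℝ) + 1 := (Nat.lt_floor_add_one _).le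
  have hQs : (Q : ℝ) ≤ Real.sqrt N := by
    have : 1 ≤ L ^ (B0 + A + 3) := one_le_pow₀ hl
    nlinarith
  have hQQ : Q * Q ≤ N := by
    have h1 : (Q : ℝ) * Q ≤ N := by
      calc (Q : ℝ) * Q ≤ Real.sqrt N * Real.sqrt N := mul_le_mul hQs hQs hQ0 hs0
        _ = N := Real.mul_self_sqrt hNr.le
    exact_mod_cast h1
  have hQR : ((Q * R : ℕ) : ℝ) * L ^ B0 ≤ Real.sqrt N := by
    push_cast
    calc (Q : ℝ) * R * L ^ B0 ≤ Q * L ^ (A + 3) * L ^ B0 := by gcongr
      _ = Q * L ^ (B0 + A + 3) := by ring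
      _ ≤ _ := hQ
  have h1 := hbv N hN (Q * R) hQR
  have h2 := hhigh N hN3 Q R hQQ M hM a y (fun q hq => (ha q hq).2) hy
  have h3 := hlow N hN3 Q R hQQ M hM a y ha hy
  have e1 : ∑ q ∈ Icc 1 Q, (Nat.totient q : ℝ) * ∑ m ∈ Icc 1 (M q), ∑ b ∈ range m, FF q (a q) (y q) m b ^ 2 =
      ∑ q ∈ Icc 1 Q, (Nat.totient q : ℝ) * ∑ m ∈ Icc 1 (M q), (1 / (m : ℝ)) *
        ∑ d ∈ m.divisors.filter (fun d => d ≤ R), W (FF q (a q) (y q)) d +
      ∑ q ∈ Icc 1 Q, (Nat.totient q : ℝ) * HH R (M q) q (a q) (y q) := by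
    rw [← sum_add_distrib]
    apply sum_congr rfl
    intro q hq
    have hq' := mem_Icc.1 hq
    unfold HH
    rw [← mul_add, ← sum_add_distrib]
    congr 1
    apply sum_congr rfl
    intro m hm
    rw [mem_Icc] at hm
    rw [← mul_add, sum_filter_add_sum_filter_not, F_sq _ (FF_compat q (a q) (y q) hq'.1 (ha q hq).2) m hm.1]
  rw [e1]
  have h4 : (N : ℝ) ^ 2 * L ^ 3 / ((R : ℝ) + 1) ≤ N ^ 2 / L ^ A := by
    rw [div_le_div_iff₀ (by positivity) (by positivity)]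
    calc (N : ℝ) ^ 2 * L ^ 3 * L ^ A = N ^ 2 * L ^ (A + 3) := by ring
      _ ≤ N ^ 2 * ((R : ℝ) + 1) := by gcongr
  have h5 : C3 * N * L * ∑ r ∈ Icc 1 (Q * R), (r.divisors.card : ℝ) ^ 2 * (Es N r + 1) ≤
      C3 * C1 * (N ^ 2 / L ^ A) := by
    calc C3 * N * L * ∑ r ∈ Icc 1 (Q * R), (r.divisors.card : ℝ) ^ 2 * (Es N r + 1) ≤
        C3 * N * L * (C1 * (N / L ^ (A + 1))) := by gcongr
      _ = _ := by
          rw [pow_succ]
          field_simp
  have hA : 0 ≤ (N : ℝ) ^ 2 / L ^ A := by positivity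
  have hB : 0 ≤ (∑ q ∈ Icc 1 Q, (M q : ℝ)) * N / L := by positivity
  have hC13 : 0 ≤ C3 * C1 := by positivity
  have h6 : C2 * ((∑ q ∈ Icc 1 Q, (M q : ℝ)) * N / L + N ^ 2 * L ^ 3 / ((R : ℝ) + 1)) ≤ C2 * ((∑ q ∈ Icc 1 Q, (M q : ℝ)) * N / L + N ^ 2 / L ^ A) := by
    gcongr
  nlinarith [mul_nonneg hC13 hB]

end Pool.Agent.U485.EH
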