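import Pool.Agent.U485.EH.M1

/-!
Arbitrary representatives of the classes; the mean value over the lifts.
-/

set_option autoImplicit false

namespace Pool.Agent.U485.EH

open Finset Filter
open Pool.Agent.H441R3.BV (one_le_log)

lemma shift_sum (m s : ℕ) (hm : 1 ≤ m) (g : ℕ → ℝ) :
    ∑ b ∈ range m, g ((s + b) % m) = ∑ b ∈ range m, g b := by
  have key : ∀ b u : ℕ, b < m → ((b + u * (m - 1) + u) % m) = b := by
    intro b u hb
    have e1 : b + u * (m - 1) + u = b + m * u := by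
      obtain ⟨k, rfl⟩ : ∃ k, m = k + 1 := ⟨m - 1, by omega⟩
      rw [Nat.add_sub_cancel]
      ring
    rw [e1, Nat.add_mul_mod_self_left, Nat.mod_eq_of_lt hb]
  apply sum_nbij' (fun b => (s + b) % m) (fun b => (b + s * (m - 1)) % m)
  · intro b _
    exact mem_range.2 (Nat.mod_lt _ hm)
  · intro b _
    exact mem_range.2 (Nat.mod_lt _ hm)
  · intro b hb
    rw [mem_range] at hb
    rw [Nat.mod_add_mod, show s + b + s * (m - 1) = b + s * (m - 1) + s by ring]
    exact key b s hb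
  · intro b hb
    rw [mem_range] at hb
    rw [Nat.add_mod_mod, show s + (b + s * (m - 1)) = b + s * (m - 1) + s by ring]
    exact key b s hb
  · intro b _
    rfl

lemma er_congr (y q a a' : ℕ) (h : a ≡ a' [MOD q]) : er y q a = er y q a' := by
  unfold er
  rw [← piA_mod y q a, ← piA_mod y q a']
  have : a % q = a' % q := h
  rw [this]

/-- the sum over the lifts in terms of the smallest representative -/
lemma lifts_eq (y q a m : ℕ) (hm : 1 ≤ m) (f : ℝ → ℝ) :
    ∑ b ∈ (range m).filter (fun b => (a + q * b).Coprime m), f (er y (q * m) (a + q * b)) =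
      ∑ b ∈ (range m).filter (fun b => (a % q + q * b).Coprime m), f (er y (q * m) (a % q + q * b)) := by
  rw [sum_filter, sum_filter]
  rw [← shift_sum m (a / q) hm (fun b => if (a % q + q * b).Coprime m then f (er y (q * m) (a % q + q * b)) else 0)]
  apply sum_congr rfl
  intro b _
  have h1 : a + q * b ≡ a % q + q * ((a / q + b) % m) [MOD (q * m)] := by
    have e1 : a + q * b = a % q + q * (a / q + b) := by
      have := Nat.mod_add_div a q
      calc a + q * b = a % q + q * (a / q) + q * b := by rw [this]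
        _ = _ := by ring
    rw [e1]
    apply Nat.ModEq.add_left
    exact Nat.ModEq.mul_left' q (Nat.mod_modEq _ _).symm
  have h2 : (a + q * b).Coprime m ↔ (a % q + q * ((a / q + b) % m)).Coprime m := by
    have h3 : a + q * b ≡ a % q + q * ((a / q + b) % m) [MOD m] := h1.of_mul_left q
    unfold Nat.Coprime
    rw [h3.gcd_eq]
  rw [er_congr _ _ _ _ h1]
  by_cases h : (a + q * b).Coprime m
  · rw [if_pos h, if_pos (h2.1 h)]
  · rw [if_neg h, if_neg (fun h' => h (h2.2 h'))]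

lemma mod_cop (q a : ℕ) (hq : 1 ≤ q) (ha : a.Coprime q) : a % q < q ∧ (a % q).Coprime q :=
  ⟨Nat.mod_lt _ hq, (ZMod.coprime_mod_iff_coprime a q).mpr ha⟩

/-- **Part 1**: the mean square over the lifts -/
theorem part1 (A : ℕ) : ∃ B : ℕ, ∃ C : ℝ, 0 ≤ C ∧ ∃ x0 : ℕ, 3 ≤ x0 ∧ ∀ N : ℕ, x0 ≤ N → ∀ Q : ℕ,
    (Q : ℝ) * Real.log N ^ B ≤ Real.sqrt N → ∀ M : ℕ → ℕ, (∀ q, M q ≤ N) →
    ∀ a y : ℕ → ℕ, (∀ q ∈ Icc 1 Q, (a q).Coprime q) → (∀ q, y q ≤ N) →
    ∑ q ∈ Icc 1 Q, (Nat.totient q : ℝ) * ∑ m ∈ Icc 1 (M q),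
      ∑ b ∈ (range m).filter (fun b => (a q + q * b).Coprime m), er (y q) (q * m) (a q + q * b) ^ 2 ≤
      C * ((∑ q ∈ Icc 1 Q, (M q : ℝ)) * N / Real.log N + N ^ 2 / Real.log N ^ A) := by
  obtain ⟨B, C, hC, x0, hx0, h⟩ := meansq A
  refine ⟨B, C, hC, x0, hx0, fun N hN Q hQ M hM a y ha hy => ?_⟩
  refine le_trans ?_ (h N hN Q hQ M hM (fun q => a q % q) y (fun q hq => mod_cop q (a q) (mem_Icc.1 hq).1 (ha q hq)) hy)
  apply sum_le_sum
  intro q hq
  apply mul_le_mul_of_nonneg_left _ (Nat.cast_nonneg _)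
  apply sum_le_sum
  intro m hm
  have hq' := mem_Icc.1 hq
  rw [lifts_eq (y q) q (a q) m (mem_Icc.1 hm).1 (fun x => x ^ 2)]
  have h1 : ∀ b ∈ (range m).filter (fun b => (a q % q + q * b).Coprime m),
      er (y q) (q * m) (a q % q + q * b) ^ 2 = FF q (a q % q) (y q) m b ^ 2 := by
    intro b hb
    rw [mem_filter] at hb
    rw [← FF_er q (a q % q) (y q) m b hq'.1 (Nat.mod_lt _ hq'.1) hb.2, sq_abs]
  rw [sum_congr rfl h1]
  exact sum_le_sum_of_subset_of_nonneg (filter_subset _ _) (fun b _ _ => sq_nonneg _)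

lemma count_lifts (q a m : ℕ) (hq : 1 ≤ q) (hm : 1 ≤ m) (haq : a.Coprime q) :
    ((range m).filter (fun b => (a + q * b).Coprime m)).card * Nat.totient q = Nat.totient (q * m) := by
  have h := lift_card q a m 1 0 hq hm (one_dvd m) (by norm_num) haq (Nat.coprime_one_right _)
  rw [mul_one] at h
  rw [← h]
  congr 2
  apply filter_congr
  intro b _
  simp [Nat.mod_one]

/-- **Part 2**: the mean value over the lifts -/
theorem part2 (A : ℕ) : ∃ B : ℕ, ∃ C : ℝ, 0 ≤ C ∧ ∃ x0 : ℕ, 3 ≤ x0 ∧ ∀ N : ℕ, x0 ≤ N → ∀ Q : ℕ,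
    (Q : ℝ) * Real.log N ^ B ≤ Real.sqrt N → ∀ M : ℕ → ℕ, (∀ q, M q ≤ N) → (∑ q ∈ Icc 1 Q, (M q : ℝ)) * Real.log N ^ B ≤ N →
    ∀ a y : ℕ → ℕ, (∀ q ∈ Icc 1 Q, (a q).Coprime q) → (∀ q, y q ≤ N) →
    ∑ q ∈ Icc 1 Q, ∑ m ∈ Icc 1 (M q), ((Nat.totient q : ℝ) / Nat.totient (q * m)) *
      ∑ b ∈ (range m).filter (fun b => (a q + q * b).Coprime m), er (y q) (q * m) (a q + q * b) ≤
      C * (N / Real.log N ^ A) := by
  obtain ⟨B, C, hC, x0, hx0, h⟩ := part1 (2 * A + 4)
  refine ⟨B + 2 * A + 4, 2 * C + 16, by positivity, x0, hx0, fun N hN Q hQ M hMN hM a y ha hy => ?_⟩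
  have hN3 : 3 ≤ N := hx0.trans hN
  have hl := one_le_log hN3
  set L := Real.log N with hL
  have hL0 : 0 < L := by linarith
  have hNr : (0 : ℝ) < N := by
    have : 0 < N := by omega
    exact_mod_cast this
  have hs0 : 0 ≤ Real.sqrt N := Real.sqrt_nonneg _
  have hQ0 : (0 : ℝ) ≤ Q := Nat.cast_nonneg _
  set SM : ℝ := ∑ q ∈ Icc 1 Q, (M q : ℝ) with hSM
  have hSM0 : 0 ≤ SM := sum_nonneg fun _ _ => Nat.cast_nonneg _
  have hQB : (Q : ℝ) * L ^ B ≤ Real.sqrt N := by
    refine le_trans ?_ hQ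
    apply mul_le_mul_of_nonneg_left _ hQ0
    exact pow_le_pow_right₀ hl (by omega)
  have h1 := h N hN Q hQB M hMN a y ha hy
  have hQMN : SM * N / L ≤ N ^ 2 / L ^ (2 * A + 4) := by
    rw [div_le_div_iff₀ hL0 (by positivity)]
    have h2 : SM * L ^ (2 * A + 4) ≤ N := by
      refine le_trans ?_ hM
      apply mul_le_mul_of_nonneg_left _ (by positivity)
      exact pow_le_pow_right₀ hl (by omega)
    calc SM * N * L ^ (2 * A + 4) = N * (SM * L ^ (2 * A + 4)) := by ring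
      _ ≤ N * N := by gcongr
      _ ≤ N ^ 2 * L := by nlinarith
  have h2 : C * (SM * N / L + N ^ 2 / L ^ (2 * A + 4)) ≤ 2 * C * (N ^ 2 / L ^ (2 * A + 4)) := by
    nlinarith
  set lam : ℝ := L ^ (A + 4) / N with hlam
  have hlam0 : 0 < lam := by positivity
  -- one modulus
  have hpt : ∀ q ∈ Icc 1 Q, ∀ m ∈ Icc 1 (M q), ((Nat.totient q : ℝ) / Nat.totient (q * m)) *
      ∑ b ∈ (range m).filter (fun b => (a q + q * b).Coprime m), er (y q) (q * m) (a q + q * b) ≤
      lam * ((Nat.totient q : ℝ) * ∑ b ∈ (range m).filter (fun b => (a q + q * b).Coprime m),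
        er (y q) (q * m) (a q + q * b) ^ 2) +
      lam⁻¹ * ((1 / (Nat.totient q : ℝ)) * (1 / (Nat.totient m : ℝ))) := by
    intro q hq m hm
    have hq' := mem_Icc.1 hq
    have hm' := mem_Icc.1 hm
    have hφ : (0 : ℝ) < Nat.totient q := by exact_mod_cast Nat.totient_pos.2 hq'.1
    have hφm : (0 : ℝ) < Nat.totient m := by exact_mod_cast Nat.totient_pos.2 hm'.1
    have hφ' : (0 : ℝ) < Nat.totient (q * m) := by exact_mod_cast Nat.totient_pos.2 (Nat.mul_pos hq'.1 hm'.1)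
    have h3 : ∀ b ∈ (range m).filter (fun b => (a q + q * b).Coprime m),
        ((Nat.totient q : ℝ) / Nat.totient (q * m)) * er (y q) (q * m) (a q + q * b) ≤
        lam * ((Nat.totient q : ℝ) * er (y q) (q * m) (a q + q * b) ^ 2) +
        lam⁻¹ * ((Nat.totient q : ℝ) / (Nat.totient (q * m) : ℝ) ^ 2) := by
      intro b _
      set e := er (y q) (q * m) (a q + q * b) with he
      have he0 : 0 ≤ e := er_nonneg _ _ _
      have h4 : 0 ≤ (Nat.totient q : ℝ) * lam⁻¹ * (lam * e - 1 / (Nat.totient (q * m) : ℝ)) ^ 2 := by positivity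
      have h5 : (Nat.totient q : ℝ) * lam⁻¹ * (lam * e - 1 / (Nat.totient (q * m) : ℝ)) ^ 2 =
          lam * ((Nat.totient q : ℝ) * e ^ 2) + lam⁻¹ * ((Nat.totient q : ℝ) / (Nat.totient (q * m) : ℝ) ^ 2) -
          2 * (((Nat.totient q : ℝ) / Nat.totient (q * m)) * e) := by
        field_simp
        ring
      have h6 : 0 ≤ ((Nat.totient q : ℝ) / Nat.totient (q * m)) * e := by positivity
      linarith
    rw [mul_sum]
    refine (sum_le_sum h3).trans ?_
    rw [sum_add_distrib, sum_const, nsmul_eq_mul, ← mul_sum, ← mul_sum]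
    apply add_le_add le_rfl
    have h4 : (((range m).filter (fun b => (a q + q * b).Coprime m)).card : ℝ) * Nat.totient q =
        Nat.totient (q * m) := by exact_mod_cast count_lifts q (a q) m hq'.1 hm'.1 (ha q hq)
    have h5 : (((range m).filter (fun b => (a q + q * b).Coprime m)).card : ℝ) *
        (lam⁻¹ * ((Nat.totient q : ℝ) / (Nat.totient (q * m) : ℝ) ^ 2)) =
        lam⁻¹ * (1 / (Nat.totient (q * m) : ℝ)) := by
      calc _ = lam⁻¹ * ((((range m).filter (fun b => (a q + q * b).Coprime m)).card : ℝ) * Nat.totient q) /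
            (Nat.totient (q * m) : ℝ) ^ 2 := by ring
        _ = _ := by
            rw [h4]
            field_simp
    rw [h5]
    apply mul_le_mul_of_nonneg_left _ (by positivity)
    have hsm : (Nat.totient q : ℝ) * Nat.totient m ≤ Nat.totient (q * m) := by
      exact_mod_cast Nat.totient_super_multiplicative q m
    rw [one_div_mul_one_div]
    exact div_le_div_of_nonneg_left (by norm_num) (by positivity) hsm
  have h3 : ∑ q ∈ Icc 1 Q, ∑ m ∈ Icc 1 (M q), ((Nat.totient q : ℝ) / Nat.totient (q * m)) *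
      ∑ b ∈ (range m).filter (fun b => (a q + q * b).Coprime m), er (y q) (q * m) (a q + q * b) ≤
      lam * (∑ q ∈ Icc 1 Q, (Nat.totient q : ℝ) * ∑ m ∈ Icc 1 (M q),
      ∑ b ∈ (range m).filter (fun b => (a q + q * b).Coprime m), er (y q) (q * m) (a q + q * b) ^ 2) +
      lam⁻¹ * (∑ q ∈ Icc 1 Q, (1 / (Nat.totient q : ℝ)) * ∑ m ∈ Icc 1 (M q), 1 / (Nat.totient m : ℝ)) := by
    rw [mul_sum, mul_sum, ← sum_add_distrib]
    apply sum_le_sum
    intro q hq
    rw [mul_sum (f := fun m => ∑ b ∈ (range m).filter (fun b => (a q + q * b).Coprime m),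
      er (y q) (q * m) (a q + q * b) ^ 2), mul_sum, mul_sum, mul_sum, ← sum_add_distrib]
    exact sum_le_sum (hpt q hq)
  refine h3.trans ?_
  have hQN : Q ≤ N := by
    have hp1 : 1 ≤ L ^ (B + 2 * A + 4) := one_le_pow₀ hl
    have h4 : (Q : ℝ) ≤ Real.sqrt N := by nlinarith
    have h5 : Real.sqrt N ≤ N := by
      have : 1 ≤ Real.sqrt N := by
        rw [Real.one_le_sqrt]
        have : 1 ≤ N := by omega
        exact_mod_cast this
      nlinarith [Real.mul_self_sqrt hNr.le]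
    exact_mod_cast h4.trans h5
  have inv : ∀ K : ℕ, K ≤ N → ∑ q ∈ Icc 1 K, 1 / (Nat.totient q : ℝ) ≤ 4 * L ^ 2 := by
    intro K hK
    refine (Pool.Agent.H441R3.BV.sum_inv_tot K).trans ?_
    calc (1 + Real.log K) ^ 2 ≤ (2 * L) ^ 2 := pow_le_pow_left₀ (log1_nonneg K) (log_le2 hN3 hK) 2
      _ = _ := by ring
  have h4 : ∑ q ∈ Icc 1 Q, (1 / (Nat.totient q : ℝ)) * ∑ m ∈ Icc 1 (M q), 1 / (Nat.totient m : ℝ) ≤ 16 * L ^ 4 := by
    calc _ ≤ ∑ q ∈ Icc 1 Q, (1 / (Nat.totient q : ℝ)) * (4 * L ^ 2) := by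
          apply sum_le_sum
          intro q _
          exact mul_le_mul_of_nonneg_left (inv (M q) (hMN q)) (by positivity)
      _ ≤ (4 * L ^ 2) * (4 * L ^ 2) := by
          rw [← sum_mul]
          exact mul_le_mul_of_nonneg_right (inv Q hQN) (by positivity)
      _ = _ := by ring
  calc _ ≤ lam * (2 * C * (N ^ 2 / L ^ (2 * A + 4))) + lam⁻¹ * (16 * L ^ 4) := by
        apply add_le_add
        · exact mul_le_mul_of_nonneg_left (h1.trans h2) hlam0.le
        · exact mul_le_mul_of_nonneg_left h4 (by positivity)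
    _ = 2 * C * (N / L ^ A) + 16 * (N / L ^ A) := by
        rw [hlam, show 2 * A + 4 = (A + 4) + A by ring, pow_add L (A + 4) A, pow_add L A 4]
        field_simp
    _ = _ := by ring

end Pool.Agent.U485.EH
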