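import Pool.Agent.U485.EH.M2

/-!
Few exceptional lifts.
-/

set_option autoImplicit false

namespace Pool.Agent.U485.EH

open Finset Filter
open Pool.Agent.Helper112
open Pool.Agent.H441R3.BV (one_le_log)

/-- number of members of the family in a class -/
noncomputable def mu {ι : Type} (I : Finset ι) (c : ι → ℕ → ℕ) (q r : ℕ) : ℝ :=
  ((I.filter (fun i => c i q % q = r)).card : ℝ)

lemma sum_mu {ι : Type} (I : Finset ι) (c : ι → ℕ → ℕ) (q : ℕ) (hq : 1 ≤ q) (F : ℕ → ℝ) :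
    ∑ i ∈ I, F (c i q % q) = ∑ r ∈ range q, mu I c q r * F r := by
  have hmaps : ∀ i ∈ I, c i q % q ∈ range q := fun a _ => mem_range.2 (Nat.mod_lt _ (by omega))
  rw [← sum_fiberwise_of_maps_to hmaps]
  apply sum_congr rfl
  intro r _
  unfold mu
  rw [← nsmul_eq_mul, ← sum_const]
  apply sum_congr rfl
  intro a ha
  rw [(mem_filter.1 ha).2]

/-- the number of the coincidences -/
noncomputable def en {ι : Type} (I : Finset ι) (c : ι → ℕ → ℕ) (Q : ℕ) : ℕ :=
  ∑ q ∈ Icc 1 Q, ((I ×ˢ I).filter (fun p => c p.1 q ≡ c p.2 q [MOD q])).card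

lemma en_eq {ι : Type} (I : Finset ι) (c : ι → ℕ → ℕ) (Q : ℕ) :
    (en I c Q : ℝ) = ∑ q ∈ Icc 1 Q, ∑ i ∈ I, mu I c q (c i q % q) := by
  unfold en
  push_cast
  apply sum_congr rfl
  intro q _
  rw [card_filter, Nat.cast_sum, sum_product_right]
  apply sum_congr rfl
  intro i _
  unfold mu
  rw [card_filter, Nat.cast_sum]
  apply sum_congr rfl
  intro j _
  rfl

/-- Cauchy-Schwarz (as in `TH926.EH.Fam`) -/
lemma cs_part {ι : Type} (I : Finset ι) (c : ι → ℕ → ℕ) (Q : ℕ) (g : ℕ → ℕ → ℝ) :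
    ∑ i ∈ I, ∑ q ∈ Icc 1 Q, g q (c i q % q) ≤
      Real.sqrt (en I c Q) * Real.sqrt (∑ q ∈ Icc 1 Q, ∑ r ∈ range q, g q r ^ 2) := by
  rw [sum_comm, en_eq]
  have h1 : ∑ q ∈ Icc 1 Q, ∑ i ∈ I, g q (c i q % q) =
      ∑ p ∈ (Icc 1 Q).sigma (fun q => range q), mu I c p.1 p.2 * g p.1 p.2 := by
    rw [sum_sigma]
    apply sum_congr rfl
    intro q hq
    rw [mem_Icc] at hq
    exact sum_mu I c q hq.1 (g q)
  have h2 : ∑ q ∈ Icc 1 Q, ∑ i ∈ I, mu I c q (c i q % q) =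
      ∑ p ∈ (Icc 1 Q).sigma (fun q => range q), mu I c p.1 p.2 ^ 2 := by
    rw [sum_sigma]
    apply sum_congr rfl
    intro q hq
    rw [mem_Icc] at hq
    rw [sum_mu I c q hq.1 (mu I c q)]
    apply sum_congr rfl
    intro r _
    rw [sq]
  have h3 : ∑ q ∈ Icc 1 Q, ∑ r ∈ range q, g q r ^ 2 =
      ∑ p ∈ (Icc 1 Q).sigma (fun q => range q), g p.1 p.2 ^ 2 := by
    rw [sum_sigma]
  rw [h1, h2, h3]
  exact Real.sum_mul_le_sqrt_mul_sqrt _ _ _

lemma en_le {ι : Type} [DecidableEq ι] (I : Finset ι) (c : ι → ℕ → ℕ) (M J : ℕ)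
    (h : ∀ i ∈ I, ∀ j ∈ I, i ≠ j → ((Icc 1 M).filter (fun m => c i m ≡ c j m [MOD m])).card ≤ J) :
    (en I c M : ℝ) ≤ I.card * M + (I.card : ℝ) ^ 2 * J := by
  have h1 : en I c M = ∑ p ∈ I ×ˢ I, ((Icc 1 M).filter (fun m => c p.1 m ≡ c p.2 m [MOD m])).card := by
    unfold en
    simp_rw [card_filter]
    rw [sum_comm]
  have h2 : ∀ p ∈ I ×ˢ I, ((Icc 1 M).filter (fun m => c p.1 m ≡ c p.2 m [MOD m])).card ≤
      (if p.1 = p.2 then M else 0) + J := by
    intro p hp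
    rw [mem_product] at hp
    by_cases hpp : p.1 = p.2
    · rw [if_pos hpp]
      refine (card_filter_le _ _).trans ?_
      rw [Nat.card_Icc]
      omega
    · rw [if_neg hpp, zero_add]
      exact h p.1 hp.1 p.2 hp.2 hpp
  have h3 : en I c M ≤ I.card * M + I.card ^ 2 * J := by
    rw [h1]
    refine (sum_le_sum h2).trans ?_
    rw [sum_add_distrib, sum_const, smul_eq_mul, card_product, sum_product]
    apply add_le_add
    · have h4 : ∀ i ∈ I, ∑ j ∈ I, (if i = j then M else 0) = M := by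
        intro i hi
        rw [sum_ite_eq, if_pos hi]
      rw [sum_congr rfl h4, sum_const, smul_eq_mul]
    · rw [sq]
  exact_mod_cast h3

lemma P_mod (F : ℕ → ℕ → ℝ) (d m t : ℕ) (hm : 1 ≤ m) (hd : d ∣ m) : P F d t = P F d (t % m) := by
  have hd1 : 1 ≤ d := Nat.pos_of_dvd_of_pos hd hm
  unfold P
  apply sum_congr rfl
  intro h _
  rw [← ls_conj_ee, ← ls_conj_ee, ee_per t h d hd1, ee_per (t % m) h d hd1, Nat.mod_mod_of_dvd _ hd]

lemma Hi_mod (F : ℕ → ℕ → ℝ) (R m t : ℕ) (hm : 1 ≤ m) : Hi F R m t = Hi F R m (t % m) := by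
  unfold Hi
  congr 1
  apply sum_congr rfl
  intro d hd
  rw [mem_filter] at hd
  exact P_mod F d m t hm (Nat.dvd_of_mem_divisors hd.1)

/-- the low part is small for all the lifts -/
lemma low_pt (N Q M R : ℕ) (hN : 3 ≤ N) (hM : M ≤ N) (a y : ℕ → ℕ)
    (ha : ∀ q ∈ Icc 1 Q, a q < q ∧ (a q).Coprime q) (hy : ∀ q, y q ≤ N) (t : ℕ → ℕ → ℕ) :
    ∑ q ∈ Icc 1 Q, ∑ m ∈ Icc 1 M, ‖Lo (FF q (a q) (y q)) R m (t q m)‖ ≤
      4 * Real.log N ^ 2 * ∑ r ∈ Icc 1 (Q * R), (r.divisors.card : ℝ) ^ 2 * (Es N r + 1) := by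
  have hl := one_le_log hN
  set L := Real.log N with hL
  have hL0 : 0 < L := by linarith
  have hlM0 : 0 ≤ 1 + Real.log M := log1_nonneg M
  have hlM : 1 + Real.log M ≤ 2 * L := log_le2 hN hM
  have hpt : ∀ q ∈ Icc 1 Q, ∑ m ∈ Icc 1 M, ‖Lo (FF q (a q) (y q)) R m (t q m)‖ ≤
      4 * L ^ 2 * ∑ d ∈ Icc 1 R, (d.divisors.card : ℝ) * (Es N (q * d) + 1) := by
    intro q hq
    have hq' := mem_Icc.1 hq
    obtain ⟨ha1, ha2⟩ := ha q hq
    set G : ℕ → ℝ := fun j => Es N (q * j) + 1 with hG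
    have hG0 : ∀ j, 0 ≤ G j := fun j => by
      have := Es_nonneg N (q * j)
      simp only [hG]
      linarith
    have h1 : ∀ m ∈ Icc 1 M, ‖Lo (FF q (a q) (y q)) R m (t q m)‖ ≤
        ∑ j ∈ m.divisors, (if j ≤ R then (j.divisors.card : ℝ) * G j else 0) *
          (((m / j).divisors.card : ℝ) / ((m / j : ℕ) : ℝ)) := by
      intro m hm
      rw [mem_Icc] at hm
      have hm0 : (0 : ℝ) < m := by exact_mod_cast hm.1
      refine (Lo_le _ (FF_compat q (a q) (y q) hq'.1 ha2) (FF_per q (a q) (y q)) R m hm.1 (t q m)).trans ?_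
      rw [mul_sum, sum_filter]
      apply sum_le_sum
      intro j hj
      have hjm := Nat.dvd_of_mem_divisors hj
      have hj1 : 1 ≤ j := Nat.pos_of_dvd_of_pos hjm hm.1
      have hj0 : (0 : ℝ) < j := by exact_mod_cast hj1
      split_ifs with hjR
      · have h2 := FF_le N q (a q) (y q) j (t q m) hq'.1 hj1 ha1 ha2 (hy q)
        have h3 : (m.divisors.card : ℝ) ≤ (j.divisors.card : ℝ) * ((m / j).divisors.card : ℝ) := by
          have := tau_mul j (m / j)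
          rw [Nat.mul_div_cancel' hjm] at this
          exact_mod_cast this
        have h4 : (m : ℝ) = (j : ℝ) * ((m / j : ℕ) : ℝ) := by
          rw [← Nat.cast_mul, Nat.mul_div_cancel' hjm]
        have h5 : (0 : ℝ) < ((m / j : ℕ) : ℝ) := by
          by_contra hcon
          push Not at hcon
          nlinarith
        calc (m.divisors.card : ℝ) / m * ((j : ℝ) * |FF q (a q) (y q) j (t q m)|) ≤
            ((j.divisors.card : ℝ) * ((m / j).divisors.card : ℝ)) / m * ((j : ℝ) * G j) := by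
              gcongr
          _ = _ := by
              rw [h4]
              field_simp
      · simp
    refine (sum_le_sum h1).trans ?_
    rw [dir M (fun j k => (if j ≤ R then (j.divisors.card : ℝ) * G j else 0) * ((k.divisors.card : ℝ) / (k : ℝ)))]
    have h2 : ∀ j ∈ Icc 1 M, ∑ k ∈ Icc 1 (M / j), (if j ≤ R then (j.divisors.card : ℝ) * G j else 0) *
        ((k.divisors.card : ℝ) / (k : ℝ)) ≤ (if j ≤ R then (j.divisors.card : ℝ) * G j else 0) * (4 * L ^ 2) := by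
      intro j _
      rw [← mul_sum]
      have h3 : 0 ≤ (if j ≤ R then (j.divisors.card : ℝ) * G j else 0) := by
        split_ifs
        · exact mul_nonneg (Nat.cast_nonneg _) (hG0 j)
        · exact le_rfl
      apply mul_le_mul_of_nonneg_left _ h3
      have h4 : ∑ k ∈ Icc 1 (M / j), (k.divisors.card : ℝ) / (k : ℝ) ≤ ∑ k ∈ Icc 1 M, (k.divisors.card : ℝ) ^ 1 / (k : ℝ) := by
        simp only [pow_one]
        apply sum_le_sum_of_subset_of_nonneg (Icc_subset_Icc_right (Nat.div_le_self _ _))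
        intro k _ _
        positivity
      refine h4.trans ((tau_pow_div 1 M).trans ?_)
      calc (1 + Real.log M) ^ (2 ^ 1) ≤ (2 * L) ^ (2 ^ 1) := pow_le_pow_left₀ hlM0 hlM _
        _ = _ := by ring
    refine (sum_le_sum h2).trans ?_
    rw [← sum_mul, mul_comm]
    apply mul_le_mul_of_nonneg_left _ (by positivity)
    rw [← sum_filter]
    apply sum_le_sum_of_subset_of_nonneg
    · intro d hd
      rw [mem_filter, mem_Icc] at hd
      rw [mem_Icc]
      exact ⟨hd.1.1, hd.2⟩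
    · intro d _ _
      exact mul_nonneg (Nat.cast_nonneg _) (hG0 d)
  refine (sum_le_sum hpt).trans ?_
  rw [← mul_sum]
  apply mul_le_mul_of_nonneg_left _ (by positivity)
  exact pairs Q R (fun r => Es N r + 1) (fun r => by linarith [Es_nonneg N r])

/-- the high part for a family of lifts -/
lemma high_fam {ι : Type} [DecidableEq ι] (I : Finset ι) (Q M R J : ℕ) (a y : ℕ → ℕ)
    (ha : ∀ q ∈ Icc 1 Q, (a q).Coprime q) (c : ι → ℕ → ℕ → ℕ)
    (hc : ∀ i ∈ I, ∀ j ∈ I, i ≠ j → ∀ q ∈ Icc 1 Q,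
      ((Icc 1 M).filter (fun m => c i q m ≡ c j q m [MOD m])).card ≤ J) :
    ∑ i ∈ I, ∑ q ∈ Icc 1 Q, ∑ m ∈ Icc 1 M, ‖Hi (FF q (a q) (y q)) R m (c i q m)‖ ≤
      Real.sqrt (I.card * M + (I.card : ℝ) ^ 2 * J) *
      (Real.sqrt (∑ q ∈ Icc 1 Q, 1 / (Nat.totient q : ℝ)) *
        Real.sqrt (∑ q ∈ Icc 1 Q, (Nat.totient q : ℝ) * HH R M q (a q) (y q))) := by
  rw [sum_comm]
  have h1 : ∀ q ∈ Icc 1 Q, ∑ i ∈ I, ∑ m ∈ Icc 1 M, ‖Hi (FF q (a q) (y q)) R m (c i q m)‖ ≤
      Real.sqrt (I.card * M + (I.card : ℝ) ^ 2 * J) * Real.sqrt (HH R M q (a q) (y q)) := by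
    intro q hq
    have hq' := mem_Icc.1 hq
    have e1 : ∑ i ∈ I, ∑ m ∈ Icc 1 M, ‖Hi (FF q (a q) (y q)) R m (c i q m)‖ =
        ∑ i ∈ I, ∑ m ∈ Icc 1 M, (fun m r => ‖Hi (FF q (a q) (y q)) R m r‖) m ((fun i m => c i q m) i m % m) := by
      apply sum_congr rfl
      intro i _
      apply sum_congr rfl
      intro m hm
      simp only
      rw [← Hi_mod _ R m _ (mem_Icc.1 hm).1]
    rw [e1]
    refine (cs_part I (fun i m => c i q m) M (fun m r => ‖Hi (FF q (a q) (y q)) R m r‖)).trans ?_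
    have e2 : ∑ m ∈ Icc 1 M, ∑ r ∈ range m, ‖Hi (FF q (a q) (y q)) R m r‖ ^ 2 = HH R M q (a q) (y q) := by
      unfold HH
      apply sum_congr rfl
      intro m hm
      exact Hi_sq _ (FF_compat q (a q) (y q) hq'.1 (ha q hq)) R m (mem_Icc.1 hm).1
    rw [e2]
    apply mul_le_mul_of_nonneg_right _ (Real.sqrt_nonneg _)
    apply Real.sqrt_le_sqrt
    exact en_le I (fun i m => c i q m) M J (fun i hi j hj hij => hc i hi j hj hij q hq)
  refine (sum_le_sum h1).trans ?_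
  rw [← mul_sum]
  apply mul_le_mul_of_nonneg_left _ (Real.sqrt_nonneg _)
  have h2 : ∀ q ∈ Icc 1 Q, Real.sqrt (HH R M q (a q) (y q)) =
      Real.sqrt (1 / (Nat.totient q : ℝ)) * Real.sqrt ((Nat.totient q : ℝ) * HH R M q (a q) (y q)) := by
    intro q hq
    have hq' := mem_Icc.1 hq
    have hφ : (0 : ℝ) < Nat.totient q := by exact_mod_cast Nat.totient_pos.2 hq'.1
    rw [← Real.sqrt_mul (by positivity)]
    congr 1
    field_simp
  rw [sum_congr rfl h2]
  refine (Real.sum_mul_le_sqrt_mul_sqrt _ _ _).trans (le_of_eq ?_)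
  congr 2
  · apply sum_congr rfl
    intro q _
    rw [Real.sq_sqrt (by positivity)]
  · apply sum_congr rfl
    intro q _
    rw [Real.sq_sqrt (mul_nonneg (Nat.cast_nonneg _) (HH_nonneg _ _ _ _ _))]

end Pool.Agent.U485.EH
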