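import Pool.Agent.U485.EH.M3

/-!
Few exceptional lifts: the theorem.
-/

set_option autoImplicit false

namespace Pool.Agent.U485.EH

open Finset Filter
open Pool.Agent.H441R3.BV (one_le_log)

lemma alg_final (s n M X N T : ℝ) (hs : 0 < s) (hN : 0 < N) (hT : 0 < T)
    (h1 : s * (N / (2 * T)) ≤ Real.sqrt (s * M + s ^ 2 * n) * Real.sqrt X) (hX : 0 ≤ X) (hM : 0 ≤ M) (hn : 0 ≤ n)
    (h2 : n * X ≤ N ^ 2 / (8 * T ^ 2)) : s * N ^ 2 ≤ 8 * T ^ 2 * (M * X) := by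
  have h3 : 0 ≤ s * M + s ^ 2 * n := by positivity
  have h4 : (s * (N / (2 * T))) ^ 2 ≤ (s * M + s ^ 2 * n) * X := by
    calc (s * (N / (2 * T))) ^ 2 ≤ (Real.sqrt (s * M + s ^ 2 * n) * Real.sqrt X) ^ 2 :=
          pow_le_pow_left₀ (by positivity) h1 2
      _ = _ := by rw [mul_pow, Real.sq_sqrt h3, Real.sq_sqrt hX]
  have h5 : (s * (N / (2 * T))) ^ 2 = s ^ 2 * (2 * (N ^ 2 / (8 * T ^ 2))) := by
    field_simp
    ring
  rw [h5] at h4
  have h6 : s ^ 2 * (N ^ 2 / (8 * T ^ 2)) ≤ s * (M * X) := by nlinarith [sq_nonneg s]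
  have h7 : s * (N ^ 2 / (8 * T ^ 2)) ≤ M * X := by
    have h8 : s * (s * (N ^ 2 / (8 * T ^ 2))) ≤ s * (M * X) := by nlinarith
    exact le_of_mul_le_mul_left h8 hs
  rw [mul_div_assoc', div_le_iff₀ (by positivity)] at h7
  linarith

/-- **Part 3**: few exceptional lifts -/
theorem part3 (U : ℕ) : ∃ B : ℕ, ∃ x0 : ℕ, 3 ≤ x0 ∧ ∀ N : ℕ, x0 ≤ N → ∀ Q M J : ℕ,
    (Q : ℝ) * Real.log N ^ B ≤ Real.sqrt N → M ≤ N →
    (J : ℝ) * Q * (M + Real.sqrt N) * Real.log N ^ B ≤ N →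
    ∀ a y : ℕ → ℕ, (∀ q ∈ Icc 1 Q, (a q).Coprime q) → (∀ q, y q ≤ N) →
    ∀ (ι : Type) (I : Finset ι) (c : ι → ℕ → ℕ → ℕ),
    (∀ i ∈ I, ∀ j ∈ I, i ≠ j → ∀ q ∈ Icc 1 Q,
      ((Icc 1 M).filter (fun m => c i q m ≡ c j q m [MOD m])).card ≤ J) →
    (∀ i ∈ I, N / Real.log N ^ U < ∑ q ∈ Icc 1 Q,
      ∑ m ∈ (Icc 1 M).filter (fun m => (a q + q * c i q m).Coprime m), er (y q) (q * m) (a q + q * c i q m)) →
    (I.card : ℝ) ≤ Q * M * (M + Real.sqrt N) / N * Real.log N ^ B := by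
  obtain ⟨B0, C1, hC1, x1, hx1, hbv⟩ := bv_tau (U + 3)
  obtain ⟨C2, hC2, hhigh⟩ := high_sum
  have ev := (Real.tendsto_log_atTop.comp (tendsto_natCast_atTop_atTop (R := ℝ))).eventually
    (eventually_ge_atTop (8 * C1 + 32 * C2))
  obtain ⟨x2, hx2⟩ := eventually_atTop.1 ev
  refine ⟨B0 + 2 * U + 6, max x1 x2, hx1.trans (le_max_left _ _), fun N hN Q M J hQ hM hJ a y ha hy ι I c hc hbad => ?_⟩
  classical
  have hNx1 : x1 ≤ N := (le_max_left _ _).trans hN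
  have hN3 : 3 ≤ N := hx1.trans hNx1
  have hl := one_le_log hN3
  have hlarge : 8 * C1 + 32 * C2 ≤ Real.log N := hx2 N ((le_max_right _ _).trans hN)
  set L := Real.log N with hL
  have hL0 : 0 < L := by linarith
  have hNr : (0 : ℝ) < N := by
    have : 0 < N := by omega
    exact_mod_cast this
  have hs0 : 0 ≤ Real.sqrt N := Real.sqrt_nonneg _
  have hsp : 0 < Real.sqrt N := Real.sqrt_pos.2 hNr
  have hs2 : Real.sqrt N * Real.sqrt N = N := Real.mul_self_sqrt hNr.le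
  have hQ0 : (0 : ℝ) ≤ Q := Nat.cast_nonneg _
  have hM0 : (0 : ℝ) ≤ M := Nat.cast_nonneg _
  have hJ0 : (0 : ℝ) ≤ J := Nat.cast_nonneg _
  rcases I.eq_empty_or_nonempty with hI | hI
  · rw [hI, card_empty, Nat.cast_zero]
    positivity
  have hcard : (0 : ℝ) < I.card := by exact_mod_cast card_pos.2 hI
  rcases Nat.eq_zero_or_pos Q with hQz | hQ1
  · exfalso
    obtain ⟨i, hi⟩ := hI
    have h1 := hbad i hi
    subst hQz
    simp only [show Icc 1 0 = (∅ : Finset ℕ) from rfl, sum_empty] at h1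
    have : 0 < (N : ℝ) / L ^ U := by positivity
    linarith
  have hQ1' : (0 : ℝ) < Q := by exact_mod_cast hQ1
  set R := ⌊Real.sqrt N / (Q * L ^ B0)⌋₊ with hR
  have hR1 : (R : ℝ) ≤ Real.sqrt N / (Q * L ^ B0) := Nat.floor_le (by positivity)
  have hR2 : Real.sqrt N / (Q * L ^ B0) ≤ (R : ℝ) + 1 := (Nat.lt_floor_add_one _).le
  have hQR : ((Q * R : ℕ) : ℝ) * L ^ B0 ≤ Real.sqrt N := by
    rw [le_div_iff₀ (by positivity)] at hR1
    push_cast
    linarith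
  have hQs : (Q : ℝ) ≤ Real.sqrt N := by
    have : 1 ≤ L ^ (B0 + 2 * U + 6) := one_le_pow₀ hl
    nlinarith
  have hQQ : Q * Q ≤ N := by
    have h1 : (Q : ℝ) * Q ≤ N := by
      calc (Q : ℝ) * Q ≤ Real.sqrt N * Real.sqrt N := mul_le_mul hQs hQs hQ0 hs0
        _ = N := hs2
    exact_mod_cast h1
  have hQN : Q ≤ N := by nlinarith
  -- representatives
  set a' : ℕ → ℕ := fun q => a q % q with ha'
  set c' : ι → ℕ → ℕ → ℕ := fun i q m => a q / q + c i q m with hc'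
  have hcop : ∀ q ∈ Icc 1 Q, a' q < q ∧ (a' q).Coprime q := fun q hq => mod_cop q (a q) (mem_Icc.1 hq).1 (ha q hq)
  have hrep : ∀ i q m, a q + q * c i q m = a' q + q * c' i q m := by
    intro i q m
    simp only [ha', hc']
    have := Nat.mod_add_div (a q) q
    calc a q + q * c i q m = a q % q + q * (a q / q) + q * c i q m := by rw [this]
      _ = _ := by ring
  have hcc : ∀ i ∈ I, ∀ j ∈ I, i ≠ j → ∀ q ∈ Icc 1 Q,
      ((Icc 1 M).filter (fun m => c' i q m ≡ c' j q m [MOD m])).card ≤ J := by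
    intro i hi j hj hij q hq
    refine le_trans ?_ (hc i hi j hj hij q hq)
    apply card_le_card
    intro m hm
    rw [mem_filter] at hm ⊢
    refine ⟨hm.1, ?_⟩
    exact Nat.ModEq.add_left_cancel' _ hm.2
  -- the low part
  have hlow := low_pt N Q M R hN3 hM a' y hcop hy
  have hlow2 : ∀ i : ι, ∑ q ∈ Icc 1 Q, ∑ m ∈ Icc 1 M, ‖Lo (FF q (a' q) (y q)) R m (c' i q m)‖ ≤
      (N : ℝ) / (2 * L ^ U) := by
    intro i
    refine (hlow (c' i)).trans ?_
    have h1 := hbv N hNx1 (Q * R) hQR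
    calc 4 * L ^ 2 * ∑ r ∈ Icc 1 (Q * R), (r.divisors.card : ℝ) ^ 2 * (Es N r + 1) ≤
        4 * L ^ 2 * (C1 * (N / L ^ (U + 3))) := by gcongr
      _ = (8 * C1 / L) * ((N : ℝ) / (2 * L ^ U)) := by
          rw [pow_add]
          field_simp
          ring
      _ ≤ 1 * ((N : ℝ) / (2 * L ^ U)) := by
          apply mul_le_mul_of_nonneg_right _ (by positivity)
          rw [div_le_one hL0]
          linarith
      _ = _ := one_mul _
  -- the high part from below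
  have hmain : (I.card : ℝ) * ((N : ℝ) / (2 * L ^ U)) ≤
      ∑ i ∈ I, ∑ q ∈ Icc 1 Q, ∑ m ∈ Icc 1 M, ‖Hi (FF q (a' q) (y q)) R m (c' i q m)‖ := by
    rw [← nsmul_eq_mul, ← sum_const]
    apply sum_le_sum
    intro i hi
    have h1 := hbad i hi
    have h2 : ∑ q ∈ Icc 1 Q, ∑ m ∈ (Icc 1 M).filter (fun m => (a q + q * c i q m).Coprime m),
        er (y q) (q * m) (a q + q * c i q m) ≤
        ∑ q ∈ Icc 1 Q, ∑ m ∈ Icc 1 M, ‖Lo (FF q (a' q) (y q)) R m (c' i q m)‖ +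
        ∑ q ∈ Icc 1 Q, ∑ m ∈ Icc 1 M, ‖Hi (FF q (a' q) (y q)) R m (c' i q m)‖ := by
      rw [← sum_add_distrib]
      apply sum_le_sum
      intro q hq
      rw [← sum_add_distrib, sum_filter]
      apply sum_le_sum
      intro m hm
      have hq' := mem_Icc.1 hq
      have hm' := mem_Icc.1 hm
      split_ifs with h3
      · rw [hrep] at h3 ⊢
        rw [← FF_er q (a' q) (y q) m _ hq'.1 (hcop q hq).1 h3]
        have h4 := F_eq (FF q (a' q) (y q)) (FF_compat q (a' q) (y q) hq'.1 (hcop q hq).2) (FF_per q (a' q) (y q))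
          R m hm'.1 (c' i q m)
        have h5 : |FF q (a' q) (y q) m (c' i q m)| = ‖(FF q (a' q) (y q) m (c' i q m) : ℂ)‖ := by
          rw [Complex.norm_real, Real.norm_eq_abs]
        rw [h5, h4]
        exact norm_add_le _ _
      · positivity
    have h3 := hlow2 i
    have h4 : (N : ℝ) / L ^ U = (N : ℝ) / (2 * L ^ U) + (N : ℝ) / (2 * L ^ U) := by
      field_simp
      ring
    linarith
  -- the high part from above
  have hup := high_fam I Q M R J a' y (fun q hq => (hcop q hq).2) c' hcc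
  have hh := hhigh N hN3 Q R hQQ (fun _ => M) (fun _ => hM) a' y (fun q hq => (hcop q hq).2) hy
  simp only [sum_const, Nat.card_Icc, Nat.add_sub_cancel, nsmul_eq_mul] at hh
  have hφ : ∑ q ∈ Icc 1 Q, 1 / (Nat.totient q : ℝ) ≤ 4 * L ^ 2 := by
    refine (Pool.Agent.H441R3.BV.sum_inv_tot Q).trans ?_
    calc (1 + Real.log Q) ^ 2 ≤ (2 * L) ^ 2 := pow_le_pow_left₀ (log1_nonneg Q) (log_le2 hN3 hQN) 2
      _ = _ := by ring
  have hh2 : ∑ q ∈ Icc 1 Q, (Nat.totient q : ℝ) * HH R M q (a' q) (y q) ≤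
      C2 * (L ^ (B0 + 3) * (Q * N * (M + Real.sqrt N))) := by
    refine hh.trans ?_
    apply mul_le_mul_of_nonneg_left _ (by linarith)
    have h1 : (Q : ℝ) * M * N / L ≤ L ^ (B0 + 3) * (Q * M * N) := by
      rw [div_le_iff₀ hL0]
      have h2 : 1 ≤ L ^ (B0 + 3) * L := by
        rw [← pow_succ]
        exact one_le_pow₀ hl
      have h3 : 0 ≤ (Q : ℝ) * M * N := by positivity
      nlinarith
    have h2 : (N : ℝ) ^ 2 * L ^ 3 / ((R : ℝ) + 1) ≤ L ^ (B0 + 3) * (Q * N * Real.sqrt N) := by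
      rw [div_le_iff₀ (by positivity)]
      have h3 : Real.sqrt N ≤ ((R : ℝ) + 1) * (Q * L ^ B0) := by
        rwa [div_le_iff₀ (by positivity)] at hR2
      calc (N : ℝ) ^ 2 * L ^ 3 = (N * L ^ 3) * (Real.sqrt N * Real.sqrt N) := by rw [hs2]; ring
        _ ≤ (N * L ^ 3) * (Real.sqrt N * (((R : ℝ) + 1) * (Q * L ^ B0))) := by gcongr
        _ = _ := by ring
    calc _ ≤ L ^ (B0 + 3) * (Q * M * N) + L ^ (B0 + 3) * (Q * N * Real.sqrt N) := add_le_add h1 h2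
      _ = _ := by ring
  set X : ℝ := 4 * L ^ 2 * (C2 * (L ^ (B0 + 3) * (Q * N * (M + Real.sqrt N)))) with hX
  have hX0 : 0 ≤ X := by positivity
  have h3 : (I.card : ℝ) * ((N : ℝ) / (2 * L ^ U)) ≤
      Real.sqrt (I.card * M + (I.card : ℝ) ^ 2 * J) * Real.sqrt X := by
    refine (hmain.trans hup).trans ?_
    apply mul_le_mul_of_nonneg_left _ (Real.sqrt_nonneg _)
    rw [hX, Real.sqrt_mul (by positivity)]
    apply mul_le_mul
    · exact Real.sqrt_le_sqrt hφ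
    · exact Real.sqrt_le_sqrt hh2
    · exact Real.sqrt_nonneg _
    · exact Real.sqrt_nonneg _
  have h4 : (J : ℝ) * X ≤ (N : ℝ) ^ 2 / (8 * (L ^ U) ^ 2) := by
    rw [le_div_iff₀ (by positivity)]
    have h5 : 32 * C2 ≤ L := by linarith
    calc (J : ℝ) * X * (8 * (L ^ U) ^ 2) = 32 * C2 * N * (L ^ (B0 + 2 * U + 5) * (J * Q * (M + Real.sqrt N))) := by
          rw [hX]
          ring
      _ ≤ L * N * (L ^ (B0 + 2 * U + 5) * (J * Q * (M + Real.sqrt N))) := by gcongr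
      _ = N * (J * Q * (M + Real.sqrt N) * L ^ (B0 + 2 * U + 6)) := by ring
      _ ≤ N * N := by gcongr
      _ = _ := by ring
  have h5 := alg_final (I.card : ℝ) J M X N (L ^ U) hcard hNr (by positivity) h3 hX0 hM0 hJ0 h4
  -- conclusion
  have h6 : 8 * (L ^ U) ^ 2 * (M * X) ≤ (Q * M * (M + Real.sqrt N) * L ^ (B0 + 2 * U + 6)) * N := by
    have h7 : 32 * C2 ≤ L := by linarith
    calc 8 * (L ^ U) ^ 2 * (M * X) = 32 * C2 * (L ^ (B0 + 2 * U + 5) * (Q * M * (M + Real.sqrt N)) * N) := by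
          rw [hX]
          ring
      _ ≤ L * (L ^ (B0 + 2 * U + 5) * (Q * M * (M + Real.sqrt N)) * N) := by gcongr
      _ = _ := by ring
  have h7 : ((I.card : ℝ) * N) * N ≤ (Q * M * (M + Real.sqrt N) * L ^ (B0 + 2 * U + 6)) * N := by
    calc ((I.card : ℝ) * N) * N = (I.card : ℝ) * N ^ 2 := by ring
      _ ≤ _ := h5.trans h6
  have h8 := le_of_mul_le_mul_right h7 hNr
  rw [div_mul_eq_mul_div, le_div_iff₀ hNr]
  exact h8

end Pool.Agent.U485.EH
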