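import Pool.Agent.U485.EH.M4
import Pool.Agent.H353R2.Z2

/-!
Few exceptional lifts: one integer for all the moduli.
-/

set_option autoImplicit false

namespace Pool.Agent.U485.EH

open Finset Filter
open Pool.Agent.H441R3.BV (one_le_log)

lemma coin (t t' M : ℕ) (h : t < t') :
    ((Icc 1 M).filter (fun m => t ≡ t' [MOD m])).card ≤ (t' - t).divisors.card := by
  apply card_le_card
  intro m hm
  rw [mem_filter] at hm
  rw [Nat.mem_divisors]
  exact ⟨(Nat.modEq_iff_dvd' h.le).1 hm.2, by omega⟩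

/-- **Part 4**: few exceptional integers -/
theorem part4 (U : ℕ) (ε D : ℝ) (hε : 0 < ε) (hD : 0 ≤ D) : ∃ B : ℕ, ∃ x0 : ℕ, 3 ≤ x0 ∧ ∀ N : ℕ, x0 ≤ N →
    ∀ Q M : ℕ, (Q : ℝ) ≤ (N : ℝ) ^ (1 / 2 - ε) → (Q : ℝ) * M ≤ (N : ℝ) ^ (1 - ε) →
    ∀ a y : ℕ → ℕ, (∀ q ∈ Icc 1 Q, (a q).Coprime q) → (∀ q, y q ≤ N) →
    ∀ T : Finset ℕ, (∀ t ∈ T, (t : ℝ) ≤ (N : ℝ) ^ D ∧ N / Real.log N ^ U < ∑ q ∈ Icc 1 Q,
      ∑ m ∈ (Icc 1 M).filter (fun m => (a q + q * t).Coprime m), er (y q) (q * m) (a q + q * t)) →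
    (T.card : ℝ) ≤ Q * M * (M + Real.sqrt N) / N * Real.log N ^ B := by
  obtain ⟨B, x1, hx1, h⟩ := part3 U
  set δ : ℝ := ε / (2 * (D + 1)) with hδ
  have hδ0 : 0 < δ := by positivity
  obtain ⟨C, hC, hdiv⟩ := H353.divisor_bound_real δ hδ0
  obtain ⟨x2, hx2, h2⟩ := ev_nat 1 B ε hε
  obtain ⟨x3, hx3, h3⟩ := ev_nat (2 * C) B (ε / 2) (by positivity)
  refine ⟨B, max x1 (max x2 x3), hx1.trans (le_max_left _ _), fun N hN Q M hQ hQM a y ha hy T hT => ?_⟩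
  have hNx1 : x1 ≤ N := (le_max_left _ _).trans hN
  have hNx2 : x2 ≤ N := ((le_max_left _ _).trans (le_max_right _ _)).trans hN
  have hNx3 : x3 ≤ N := ((le_max_right _ _).trans (le_max_right _ _)).trans hN
  have hN3 : 3 ≤ N := hx1.trans hNx1
  have hl := one_le_log hN3
  have k2 := h2 N hNx2
  have k3 := h3 N hNx3
  rw [one_mul] at k2
  set L := Real.log N with hL
  have hL0 : 0 < L := by linarith
  have hNr : (0 : ℝ) < N := by
    have : 0 < N := by omega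
    exact_mod_cast this
  have hN1 : (1 : ℝ) ≤ N := by
    have : 1 ≤ N := by omega
    exact_mod_cast this
  have hsqrt : Real.sqrt N = (N : ℝ) ^ (1 / 2 : ℝ) := Real.sqrt_eq_rpow _
  have hQ0 : (0 : ℝ) ≤ Q := Nat.cast_nonneg _
  have hM0 : (0 : ℝ) ≤ M := Nat.cast_nonneg _
  rcases T.eq_empty_or_nonempty with hTe | hTne
  · rw [hTe, card_empty, Nat.cast_zero]
    positivity
  rcases Nat.eq_zero_or_pos Q with hQz | hQ1
  · exfalso
    obtain ⟨t, ht⟩ := hTne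
    have h1 := (hT t ht).2
    subst hQz
    simp only [show Icc 1 0 = (∅ : Finset ℕ) from rfl, sum_empty] at h1
    have : 0 < (N : ℝ) / L ^ U := by positivity
    linarith
  have hQ1' : (1 : ℝ) ≤ Q := by exact_mod_cast hQ1
  have hMN : M ≤ N := by
    have h1 : (M : ℝ) ≤ N := by
      calc (M : ℝ) = 1 * M := by ring
        _ ≤ Q * M := by gcongr
        _ ≤ (N : ℝ) ^ (1 - ε) := hQM
        _ ≤ (N : ℝ) ^ (1 : ℝ) := Real.rpow_le_rpow_of_exponent_le hN1 (by linarith)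
        _ = N := Real.rpow_one _
    exact_mod_cast h1
  have hQL : (Q : ℝ) * L ^ B ≤ Real.sqrt N := by
    calc (Q : ℝ) * L ^ B ≤ (N : ℝ) ^ (1 / 2 - ε) * (N : ℝ) ^ ε := by gcongr
      _ = Real.sqrt N := by
          rw [← Real.rpow_add hNr, hsqrt]
          congr 1
          ring
  set J : ℕ := ⌊C * (N : ℝ) ^ (ε / 2)⌋₊ with hJ
  have hJ1 : (J : ℝ) ≤ C * (N : ℝ) ^ (ε / 2) := Nat.floor_le (by positivity)
  have hQs : (Q : ℝ) * Real.sqrt N ≤ (N : ℝ) ^ (1 - ε) := by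
    calc (Q : ℝ) * Real.sqrt N ≤ (N : ℝ) ^ (1 / 2 - ε) * Real.sqrt N := by gcongr
      _ = _ := by
          rw [hsqrt, ← Real.rpow_add hNr]
          congr 1
          ring
  have hJQ : (J : ℝ) * Q * (M + Real.sqrt N) * L ^ B ≤ N := by
    calc (J : ℝ) * Q * (M + Real.sqrt N) * L ^ B = J * ((Q * M) + Q * Real.sqrt N) * L ^ B := by ring
      _ ≤ (C * (N : ℝ) ^ (ε / 2)) * ((N : ℝ) ^ (1 - ε) + (N : ℝ) ^ (1 - ε)) * L ^ B := by gcongr
      _ = ((N : ℝ) ^ (ε / 2) * (N : ℝ) ^ (1 - ε)) * (2 * C * L ^ B) := by ring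
      _ ≤ ((N : ℝ) ^ (ε / 2) * (N : ℝ) ^ (1 - ε)) * (N : ℝ) ^ (ε / 2) := by gcongr
      _ = N := by
          rw [← Real.rpow_add hNr, ← Real.rpow_add hNr]
          have : ε / 2 + (1 - ε) + ε / 2 = 1 := by ring
          rw [this, Real.rpow_one]
  have hbound : ∀ t t' : ℕ, t < t' → (t' : ℝ) ≤ (N : ℝ) ^ D →
      ((Icc 1 M).filter (fun m => t ≡ t' [MOD m])).card ≤ J := by
    intro t t' htt ht'
    refine (coin t t' M htt).trans ?_
    apply Nat.le_floor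
    have h4 := hdiv (t' - t) (by omega)
    refine h4.trans ?_
    apply mul_le_mul_of_nonneg_left _ hC.le
    have h5 : ((t' - t : ℕ) : ℝ) ≤ (N : ℝ) ^ D := by
      refine le_trans ?_ ht'
      exact_mod_cast Nat.sub_le _ _
    calc ((t' - t : ℕ) : ℝ) ^ δ ≤ ((N : ℝ) ^ D) ^ δ := Real.rpow_le_rpow (Nat.cast_nonneg _) h5 hδ0.le
      _ = (N : ℝ) ^ (D * δ) := by rw [← Real.rpow_mul hNr.le]
      _ ≤ (N : ℝ) ^ (ε / 2) := by
          apply Real.rpow_le_rpow_of_exponent_le hN1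
          rw [hδ, mul_div_assoc', div_le_div_iff₀ (by positivity) (by norm_num)]
          nlinarith
  exact h N hNx1 Q M J hQL hMN hJQ a y ha hy ℕ T (fun t _ _ => t) (by
    intro t ht t' ht' hne q _
    rcases lt_or_gt_of_ne hne with h4 | h4
    · exact hbound t t' h4 (hT t' ht').1
    · have h5 := hbound t' t h4 (hT t ht).1
      refine le_trans (le_of_eq ?_) h5
      congr 1
      apply filter_congr
      intro m _
      exact ⟨fun h => h.symm, fun h => h.symm⟩) (fun t ht => (hT t ht).2)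

end Pool.Agent.U485.EH
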