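import Pool.Agent.U485.EH.M5

/-!
The statements in terms of the moduli and their divisors.
-/

set_option autoImplicit false

namespace Pool.Agent.U485.EH

open Finset Filter
open Pool.Agent.H441R3.BV (one_le_log)

lemma classes_sum (y q c m : ℕ) (hq : 1 ≤ q) (hm : 1 ≤ m) (hc : c.Coprime q) (f : ℝ → ℝ) :
    ∑ a ∈ (range (q * m)).filter (fun a => a.Coprime (q * m) ∧ a ≡ c [MOD q]), f (er y (q * m) a) =
      ∑ b ∈ (range m).filter (fun b => (c + q * b).Coprime m), f (er y (q * m) (c + q * b)) := by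
  rw [lifts_eq y q c m hm f]
  have hcq := mod_cop q c hq hc
  symm
  apply sum_nbij' (fun b => c % q + q * b) (fun a => a / q)
  · intro b hb
    rw [mem_filter, mem_range] at hb
    rw [mem_filter, mem_range]
    refine ⟨?_, (cop_iff q (c % q) m b hcq.2).2 hb.2, ?_⟩
    · have h1 : b + 1 ≤ m := hb.1
      calc c % q + q * b < q + q * b := by have := hcq.1; omega
        _ = q * (b + 1) := by ring
        _ ≤ q * m := Nat.mul_le_mul_left q h1
    · unfold Nat.ModEq
      rw [Nat.add_mul_mod_self_left, Nat.mod_mod]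
  · intro a ha
    rw [mem_filter, mem_range] at ha
    rw [mem_filter, mem_range]
    have h1 : c % q + q * (a / q) = a := by
      have h2 : a % q = c % q := ha.2.2
      rw [← h2]
      exact Nat.mod_add_div a q
    refine ⟨Nat.div_lt_of_lt_mul ha.1, ?_⟩
    rw [h1]
    exact Nat.Coprime.coprime_dvd_right (dvd_mul_left m q) ha.2.1
  · intro b _
    rw [Nat.add_mul_div_left _ _ (by omega), Nat.div_eq_of_lt hcq.1, zero_add]
  · intro a ha
    rw [mem_filter, mem_range] at ha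
    have h2 : a % q = c % q := ha.2.2
    rw [← h2]
    exact Nat.mod_add_div a q
  · intro b _
    rfl

/-- from the moduli to pairs of a divisor and a cofactor -/
lemma to_pairs (X Q : ℕ) (F : ℕ → ℕ → ℝ) (hF : ∀ q n, 0 ≤ F q n) :
    ∑ n ∈ Icc 1 X, ∑ q ∈ n.divisors.filter (fun q => q ≤ Q), F q n ≤
      ∑ q ∈ Icc 1 Q, ∑ m ∈ Icc 1 (X / q), F q (q * m) := by
  have h := dir X (fun q m => if q ≤ Q then F q (q * m) else 0)
  have e1 : ∑ n ∈ Icc 1 X, ∑ q ∈ n.divisors.filter (fun q => q ≤ Q), F q n =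
      ∑ n ∈ Icc 1 X, ∑ q ∈ n.divisors, (fun q m => if q ≤ Q then F q (q * m) else 0) q (n / q) := by
    apply sum_congr rfl
    intro n _
    rw [sum_filter]
    apply sum_congr rfl
    intro q hq
    simp only
    rw [Nat.mul_div_cancel' (Nat.dvd_of_mem_divisors hq)]
  rw [e1, h]
  have e2 : ∑ q ∈ Icc 1 X, ∑ m ∈ Icc 1 (X / q), (fun q m => if q ≤ Q then F q (q * m) else 0) q m =
      ∑ q ∈ (Icc 1 X).filter (fun q => q ≤ Q), ∑ m ∈ Icc 1 (X / q), F q (q * m) := by
    rw [sum_filter]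
    apply sum_congr rfl
    intro q _
    by_cases hq : q ≤ Q
    · simp [hq]
    · simp [hq]
  rw [e2]
  apply sum_le_sum_of_subset_of_nonneg
  · intro q hq
    rw [mem_filter, mem_Icc] at hq
    rw [mem_Icc]
    exact ⟨hq.1.1, hq.2⟩
  · intro q _ _
    exact sum_nonneg fun m _ => hF _ _

lemma sum_div_le (X Q : ℕ) : ∑ q ∈ Icc 1 Q, ((X / q : ℕ) : ℝ) ≤ X * (1 + Real.log Q) := by
  refine le_trans ?_ (mul_le_mul_of_nonneg_left (harm Q) (Nat.cast_nonneg X))
  rw [mul_sum]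
  apply sum_le_sum
  intro q _
  rw [mul_one_div]
  exact Nat.cast_div_le

/-- the invertible classes modulo `n` over the class `c` modulo `q` -/
def cls (n q c : ℕ) : Finset ℕ := (range n).filter (fun a => a.Coprime n ∧ a ≡ c [MOD q])

/-- **the mean square** -/
theorem main1 (A : ℕ) : ∃ B : ℕ, ∃ C : ℝ, 0 ≤ C ∧ ∃ x0 : ℕ, 3 ≤ x0 ∧ ∀ N : ℕ, x0 ≤ N → ∀ Q X : ℕ,
    (Q : ℝ) * Real.log N ^ B ≤ Real.sqrt N → X ≤ N →
    ∀ c y : ℕ → ℕ, (∀ q, 1 ≤ q → (c q).Coprime q) → (∀ q, y q ≤ N) →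
    ∑ n ∈ Icc 1 X, ∑ q ∈ n.divisors.filter (fun q => q ≤ Q), (Nat.totient q : ℝ) *
      ∑ a ∈ cls n q (c q), er (y q) n a ^ 2 ≤ C * (X * N + N ^ 2 / Real.log N ^ A) := by
  obtain ⟨B, C, hC, x0, hx0, h⟩ := part1 A
  refine ⟨B, 2 * C, by positivity, x0, hx0, fun N hN Q X hQ hX c y hc hy => ?_⟩
  have hN3 : 3 ≤ N := hx0.trans hN
  have hl := one_le_log hN3
  have h1 := h N hN Q hQ (fun q => X / q) (fun q => (Nat.div_le_self X q).trans hX) c y
    (fun q hq => hc q (mem_Icc.1 hq).1) hy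
  refine (to_pairs X Q (fun q n => (Nat.totient q : ℝ) * ∑ a ∈ cls n q (c q), er (y q) n a ^ 2)
    (fun q n => mul_nonneg (Nat.cast_nonneg _) (sum_nonneg fun a _ => sq_nonneg _))).trans ?_
  have e1 : ∑ q ∈ Icc 1 Q, ∑ m ∈ Icc 1 (X / q), (Nat.totient q : ℝ) *
      ∑ a ∈ cls (q * m) q (c q), er (y q) (q * m) a ^ 2 =
      ∑ q ∈ Icc 1 Q, (Nat.totient q : ℝ) * ∑ m ∈ Icc 1 (X / q),
      ∑ b ∈ (range m).filter (fun b => (c q + q * b).Coprime m), er (y q) (q * m) (c q + q * b) ^ 2 := by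
    apply sum_congr rfl
    intro q hq
    rw [mul_sum]
    apply sum_congr rfl
    intro m hm
    rw [mem_Icc] at hq hm
    congr 1
    exact classes_sum (y q) q (c q) m hq.1 hm.1 (hc q hq.1) (fun x => x ^ 2)
  rw [e1]
  refine h1.trans ?_
  set L := Real.log N with hL
  have hL0 : 0 < L := by linarith
  have hNr : (0 : ℝ) < N := by
    have : 0 < N := by omega
    exact_mod_cast this
  have hQN : Q ≤ N := by
    have hs2 : Real.sqrt N * Real.sqrt N = N := Real.mul_self_sqrt hNr.le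
    have hs0 : 0 ≤ Real.sqrt N := Real.sqrt_nonneg _
    have hp1 : 1 ≤ L ^ B := one_le_pow₀ hl
    have hQ0 : (0 : ℝ) ≤ Q := Nat.cast_nonneg _
    have h4 : (Q : ℝ) ≤ Real.sqrt N := by nlinarith
    have h5 : Real.sqrt N ≤ N := by
      have : 1 ≤ Real.sqrt N := by
        rw [Real.one_le_sqrt]
        have : 1 ≤ N := by omega
        exact_mod_cast this
      nlinarith
    exact_mod_cast h4.trans h5
  have h2 : ∑ q ∈ Icc 1 Q, ((X / q : ℕ) : ℝ) ≤ X * (2 * L) :=
    (sum_div_le X Q).trans (mul_le_mul_of_nonneg_left (log_le2 hN3 hQN) (Nat.cast_nonneg X))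
  have h3 : (∑ q ∈ Icc 1 Q, ((X / q : ℕ) : ℝ)) * N / L ≤ 2 * (X * N) := by
    rw [div_le_iff₀ hL0]
    calc _ ≤ X * (2 * L) * N := by gcongr
      _ = _ := by ring
  have h4 : 0 ≤ (N : ℝ) ^ 2 / L ^ A := by positivity
  have h5 : 0 ≤ (X : ℝ) * N := by positivity
  calc C * ((∑ q ∈ Icc 1 Q, ((X / q : ℕ) : ℝ)) * N / L + N ^ 2 / L ^ A) ≤
      C * (2 * (X * N) + N ^ 2 / L ^ A) := by gcongr
    _ ≤ 2 * C * (X * N + N ^ 2 / L ^ A) := by nlinarith

/-- **the mean value** -/
theorem main2 (A : ℕ) : ∃ B : ℕ, ∃ C : ℝ, 0 ≤ C ∧ ∃ x0 : ℕ, 3 ≤ x0 ∧ ∀ N : ℕ, x0 ≤ N → ∀ Q X : ℕ,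
    (Q : ℝ) * Real.log N ^ B ≤ Real.sqrt N → (X : ℝ) * Real.log N ^ B ≤ N →
    ∀ c y : ℕ → ℕ, (∀ q, 1 ≤ q → (c q).Coprime q) → (∀ q, y q ≤ N) →
    ∑ n ∈ Icc 1 X, ∑ q ∈ n.divisors.filter (fun q => q ≤ Q), ((Nat.totient q : ℝ) / Nat.totient n) *
      ∑ a ∈ cls n q (c q), er (y q) n a ≤ C * (N / Real.log N ^ A) := by
  obtain ⟨B, C, hC, x0, hx0, h⟩ := part2 A
  refine ⟨B + 2, C, hC, max x0 8, hx0.trans (le_max_left _ _), fun N hN Q X hQ hX c y hc hy => ?_⟩
  have hNx0 : x0 ≤ N := (le_max_left _ _).trans hN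
  have hN8 : 8 ≤ N := (le_max_right _ _).trans hN
  have hN3 : 3 ≤ N := hx0.trans hNx0
  have hl := one_le_log hN3
  set L := Real.log N with hL
  have hL0 : 0 < L := by linarith
  have hL2 : 2 ≤ L := by
    have h1 : Real.log 8 ≤ L := Real.log_le_log (by norm_num) (by exact_mod_cast hN8)
    have h2 : Real.log 8 = 3 * Real.log 2 := by
      rw [show (8 : ℝ) = 2 ^ 3 by norm_num, Real.log_pow]
      norm_num
    have := Real.log_two_gt_d9
    linarith
  have hNr : (0 : ℝ) < N := by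
    have : 0 < N := by omega
    exact_mod_cast this
  have hs2 : Real.sqrt N * Real.sqrt N = N := Real.mul_self_sqrt hNr.le
  have hs0 : 0 ≤ Real.sqrt N := Real.sqrt_nonneg _
  have hp1 : 1 ≤ L ^ (B + 2) := one_le_pow₀ hl
  have hQ0 : (0 : ℝ) ≤ Q := Nat.cast_nonneg _
  have hX0 : (0 : ℝ) ≤ X := Nat.cast_nonneg _
  have hQN : Q ≤ N := by
    have h4 : (Q : ℝ) ≤ Real.sqrt N := by nlinarith
    have h5 : Real.sqrt N ≤ N := by
      have : 1 ≤ Real.sqrt N := by
        rw [Real.one_le_sqrt]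
        have : 1 ≤ N := by omega
        exact_mod_cast this
      nlinarith
    exact_mod_cast h4.trans h5
  have hXN : X ≤ N := by
    have : (X : ℝ) ≤ N := by nlinarith
    exact_mod_cast this
  have hQB : (Q : ℝ) * L ^ B ≤ Real.sqrt N := by
    refine le_trans ?_ hQ
    apply mul_le_mul_of_nonneg_left _ hQ0
    exact pow_le_pow_right₀ hl (by omega)
  have h2 : ∑ q ∈ Icc 1 Q, ((X / q : ℕ) : ℝ) ≤ X * (2 * L) :=
    (sum_div_le X Q).trans (mul_le_mul_of_nonneg_left (log_le2 hN3 hQN) hX0)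
  have h3 : (∑ q ∈ Icc 1 Q, ((X / q : ℕ) : ℝ)) * L ^ B ≤ N := by
    calc _ ≤ X * (2 * L) * L ^ B := by gcongr
      _ ≤ X * (L * L) * L ^ B := by gcongr
      _ = X * L ^ (B + 2) := by ring
      _ ≤ N := hX
  have h1 := h N hNx0 Q hQB (fun q => X / q) (fun q => (Nat.div_le_self X q).trans hXN) h3 c y
    (fun q hq => hc q (mem_Icc.1 hq).1) hy
  refine (to_pairs X Q (fun q n => ((Nat.totient q : ℝ) / Nat.totient n) * ∑ a ∈ cls n q (c q), er (y q) n a)
    (fun q n => mul_nonneg (by positivity) (sum_nonneg fun a _ => er_nonneg _ _ _))).trans ?_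
  refine le_trans (le_of_eq ?_) h1
  apply sum_congr rfl
  intro q hq
  apply sum_congr rfl
  intro m hm
  rw [mem_Icc] at hq hm
  congr 1
  exact classes_sum (y q) q (c q) m hq.1 hm.1 (hc q hq.1) (fun x => x)

/-- **few exceptional lifts** -/
theorem main3 (U : ℕ) (ε D : ℝ) (hε : 0 < ε) (hD : 0 ≤ D) : ∃ B : ℕ, ∃ x0 : ℕ, 3 ≤ x0 ∧ ∀ N : ℕ, x0 ≤ N →
    ∀ Q₀ Q X : ℕ, 1 ≤ Q₀ → (Q : ℝ) ≤ (N : ℝ) ^ (1 / 2 - ε) → (X : ℝ) ≤ (N : ℝ) ^ (1 - ε) →
    ∀ c y : ℕ → ℕ, (∀ q, 1 ≤ q → (c q).Coprime q) → (∀ q, y q ≤ N) →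
    ∀ T : Finset ℕ, (∀ t ∈ T, (t : ℝ) ≤ (N : ℝ) ^ D ∧ N / Real.log N ^ U < ∑ n ∈ Icc 1 X,
      ∑ q ∈ n.divisors.filter (fun q => Q₀ ≤ q ∧ q ≤ Q ∧ (c q + q * t).Coprime n), er (y q) n (c q + q * t)) →
    (T.card : ℝ) ≤ X * (X / Q₀ + Real.sqrt N) / N * Real.log N ^ B := by
  obtain ⟨B, x1, hx1, h⟩ := part4 (U + 2) (ε / 2) D (by positivity) hD
  obtain ⟨x2, hx2, h2⟩ := ev_nat 2 0 (ε / 2) (by positivity)
  refine ⟨B + 3, max x1 (max x2 8), hx1.trans (le_max_left _ _),
    fun N hN Q₀ Q X hQ₀ hQ hX c y hc hy T hT => ?_⟩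
  classical
  have hNx1 : x1 ≤ N := (le_max_left _ _).trans hN
  have hNx2 : x2 ≤ N := ((le_max_left _ _).trans (le_max_right _ _)).trans hN
  have hN8 : 8 ≤ N := ((le_max_right _ _).trans (le_max_right _ _)).trans hN
  have hN3 : 3 ≤ N := hx1.trans hNx1
  have hl := one_le_log hN3
  have k2 := h2 N hNx2
  rw [pow_zero, mul_one] at k2
  set L := Real.log N with hL
  have hL0 : 0 < L := by linarith
  have hL2 : 2 ≤ L := by
    have h1 : Real.log 8 ≤ L := Real.log_le_log (by norm_num) (by exact_mod_cast hN8)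
    have h2 : Real.log 8 = 3 * Real.log 2 := by
      rw [show (8 : ℝ) = 2 ^ 3 by norm_num, Real.log_pow]
      norm_num
    have := Real.log_two_gt_d9
    linarith
  have hNr : (0 : ℝ) < N := by
    have : 0 < N := by omega
    exact_mod_cast this
  have hN1 : (1 : ℝ) ≤ N := by
    have : 1 ≤ N := by omega
    exact_mod_cast this
  have hX0 : (0 : ℝ) ≤ X := Nat.cast_nonneg _
  have hs0 : 0 ≤ Real.sqrt N := Real.sqrt_nonneg _
  have hQ₀r : (0 : ℝ) < Q₀ := by exact_mod_cast hQ₀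
  have hQN : Q ≤ N := by
    have : (Q : ℝ) ≤ N := by
      calc (Q : ℝ) ≤ (N : ℝ) ^ (1 / 2 - ε) := hQ
        _ ≤ (N : ℝ) ^ (1 : ℝ) := Real.rpow_le_rpow_of_exponent_le hN1 (by linarith)
        _ = N := Real.rpow_one _
    exact_mod_cast this
  -- the blocks
  set K : ℕ := Nat.log 2 Q + 1 with hK
  have hKL : (K : ℝ) ≤ L ^ 2 := by
    have h1 : (Nat.log 2 Q : ℝ) * Real.log 2 ≤ L := by
      rcases Nat.eq_zero_or_pos Q with h0 | h0
      · subst h0
        simp
        exact hL0.le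
      · have h3 : (2 : ℝ) ^ (Nat.log 2 Q) ≤ N := by
          have h4 : 2 ^ (Nat.log 2 Q) ≤ N := (Nat.pow_log_le_self 2 (by omega)).trans hQN
          exact_mod_cast h4
        have h4 := Real.log_le_log (by positivity) h3
        rwa [Real.log_pow] at h4
    have h3 := Real.log_two_gt_d9
    have h4 : (0 : ℝ) ≤ Nat.log 2 Q := Nat.cast_nonneg _
    rw [hK]
    push_cast
    nlinarith
  have hK0 : (0 : ℝ) < K := by
    rw [hK]
    positivity
  set Qk : ℕ → ℕ := fun k => min (2 ^ (k + 1) * Q₀) Q with hQk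
  set Mk : ℕ → ℕ := fun k => X / (2 ^ k * Q₀) with hMk
  set S : ℕ → ℕ → ℝ := fun k t => ∑ q ∈ Icc 1 (Qk k), ∑ m ∈ (Icc 1 (Mk k)).filter (fun m => (c q + q * t).Coprime m),
    er (y q) (q * m) (c q + q * t) with hS
  set Tk : ℕ → Finset ℕ := fun k => T.filter (fun t => N / L ^ (U + 2) < S k t) with hTk
  -- one block
  have hblock : ∀ k ∈ range K, ((Tk k).card : ℝ) ≤ 2 * (X * (X / Q₀ + Real.sqrt N) / N) * L ^ B := by
    intro k _
    have hpos : (0 : ℝ) < 2 ^ k * Q₀ := by positivity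
    have hMk1 : (Mk k : ℝ) ≤ X / (2 ^ k * Q₀) := by
      simp only [hMk]
      refine (Nat.cast_div_le).trans (le_of_eq ?_)
      push_cast
      rfl
    have hMk2 : (Mk k : ℝ) ≤ X / Q₀ := by
      refine hMk1.trans ?_
      apply div_le_div_of_nonneg_left hX0 hQ₀r
      have : (1 : ℝ) ≤ 2 ^ k := one_le_pow₀ (by norm_num)
      nlinarith
    have hQk1 : (Qk k : ℝ) ≤ 2 * (2 ^ k * Q₀) := by
      have h1 : Qk k ≤ 2 ^ (k + 1) * Q₀ := min_le_left _ _
      have h3 : ((2 ^ (k + 1) * Q₀ : ℕ) : ℝ) = 2 * (2 ^ k * Q₀) := by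
        push_cast
        ring
      rw [← h3]
      exact_mod_cast h1
    have hQk2 : (Qk k : ℝ) ≤ Q := by
      have h1 : Qk k ≤ Q := min_le_right _ _
      exact_mod_cast h1
    have hprod : (Qk k : ℝ) * Mk k ≤ 2 * X := by
      calc (Qk k : ℝ) * Mk k ≤ (2 * (2 ^ k * Q₀)) * (X / (2 ^ k * Q₀)) := by gcongr
        _ = 2 * X := by field_simp
    have h3 := h N hNx1 (Qk k) (Mk k) (by
        refine (hQk2.trans hQ).trans ?_
        apply Real.rpow_le_rpow_of_exponent_le hN1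
        linarith) (by
        refine hprod.trans ?_
        calc 2 * (X : ℝ) ≤ (N : ℝ) ^ (ε / 2) * (N : ℝ) ^ (1 - ε) := by gcongr
          _ = (N : ℝ) ^ (1 - ε / 2) := by
              rw [← Real.rpow_add hNr]
              congr 1
              ring) c y (fun q hq => hc q (mem_Icc.1 hq).1) hy (Tk k) (fun t ht => by
        simp only [hTk, mem_filter] at ht
        exact ⟨(hT t ht.1).1, ht.2⟩)
    refine h3.trans ?_
    apply mul_le_mul_of_nonneg_right _ (by positivity)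
    rw [mul_div_assoc', ← mul_assoc]
    apply div_le_div_of_nonneg_right _ hNr.le
    gcongr
  -- every exceptional integer is exceptional for a block
  have hcover : T ⊆ (range K).biUnion Tk := by
    intro t ht
    rw [mem_biUnion]
    by_contra hcon
    push Not at hcon
    have hsmall : ∀ k ∈ range K, S k t ≤ N / L ^ (U + 2) := by
      intro k hk
      have h3 := hcon k hk
      simp only [hTk, mem_filter, not_and, not_lt] at h3
      exact h3 ht
    have h4 := (hT t ht).2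
    have hGnn : ∀ q n : ℕ, 0 ≤ (if Q₀ ≤ q ∧ (c q + q * t).Coprime n then er (y q) n (c q + q * t) else 0) := by
      intro q n
      split_ifs
      · exact er_nonneg _ _ _
      · exact le_rfl
    have h5 : ∑ n ∈ Icc 1 X, ∑ q ∈ n.divisors.filter (fun q => Q₀ ≤ q ∧ q ≤ Q ∧ (c q + q * t).Coprime n),
        er (y q) n (c q + q * t) ≤ ∑ k ∈ range K, S k t := by
      have e1 : ∑ n ∈ Icc 1 X, ∑ q ∈ n.divisors.filter (fun q => Q₀ ≤ q ∧ q ≤ Q ∧ (c q + q * t).Coprime n),
          er (y q) n (c q + q * t) = ∑ n ∈ Icc 1 X, ∑ q ∈ n.divisors.filter (fun q => q ≤ Q),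
          (if Q₀ ≤ q ∧ (c q + q * t).Coprime n then er (y q) n (c q + q * t) else 0) := by
        apply sum_congr rfl
        intro n _
        rw [← sum_filter, filter_filter]
        apply sum_congr _ (fun _ _ => rfl)
        apply filter_congr
        intro q _
        tauto
      rw [e1]
      refine (to_pairs X Q _ hGnn).trans ?_
      have hmaps : ∀ q ∈ (Icc 1 Q).filter (fun q => Q₀ ≤ q), Nat.log 2 (q / Q₀) ∈ range K := by
        intro q hq
        rw [mem_filter, mem_Icc] at hq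
        rw [mem_range, hK]
        have : Nat.log 2 (q / Q₀) ≤ Nat.log 2 Q := Nat.log_mono_right ((Nat.div_le_self _ _).trans hq.1.2)
        omega
      have e2 : ∑ q ∈ Icc 1 Q, ∑ m ∈ Icc 1 (X / q),
          (if Q₀ ≤ q ∧ (c q + q * t).Coprime (q * m) then er (y q) (q * m) (c q + q * t) else 0) =
          ∑ q ∈ (Icc 1 Q).filter (fun q => Q₀ ≤ q), ∑ m ∈ Icc 1 (X / q),
          (if (c q + q * t).Coprime m then er (y q) (q * m) (c q + q * t) else 0) := by
        rw [sum_filter]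
        apply sum_congr rfl
        intro q hq
        rw [mem_Icc] at hq
        by_cases hq0 : Q₀ ≤ q
        · rw [if_pos hq0]
          apply sum_congr rfl
          intro m _
          have := cop_iff q (c q) m t (hc q hq.1)
          by_cases h6 : (c q + q * t).Coprime m
          · rw [if_pos h6, if_pos ⟨hq0, this.2 h6⟩]
          · rw [if_neg h6, if_neg (fun h7 => h6 (this.1 h7.2))]
        · rw [if_neg hq0]
          apply sum_eq_zero
          intro m _
          rw [if_neg (fun h7 => hq0 h7.1)]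
      rw [e2, ← sum_fiberwise_of_maps_to hmaps]
      apply sum_le_sum
      intro k _
      have hsub : ((Icc 1 Q).filter (fun q => Q₀ ≤ q)).filter (fun q => Nat.log 2 (q / Q₀) = k) ⊆ Icc 1 (Qk k) := by
        intro q hq
        rw [mem_filter, mem_filter, mem_Icc] at hq
        obtain ⟨⟨⟨h6, h7⟩, h8⟩, h9⟩ := hq
        rw [mem_Icc]
        refine ⟨h6, le_min ?_ h7⟩
        have h10 : q / Q₀ < 2 ^ (k + 1) := by
          rw [← h9]
          exact Nat.lt_pow_succ_log_self (by norm_num) _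
        have h11 := (Nat.div_lt_iff_lt_mul hQ₀).1 h10
        exact h11.le
      calc ∑ q ∈ ((Icc 1 Q).filter (fun q => Q₀ ≤ q)).filter (fun q => Nat.log 2 (q / Q₀) = k), ∑ m ∈ Icc 1 (X / q),
            (if (c q + q * t).Coprime m then er (y q) (q * m) (c q + q * t) else 0)
          ≤ ∑ q ∈ ((Icc 1 Q).filter (fun q => Q₀ ≤ q)).filter (fun q => Nat.log 2 (q / Q₀) = k),
            ∑ m ∈ (Icc 1 (Mk k)).filter (fun m => (c q + q * t).Coprime m), er (y q) (q * m) (c q + q * t) := by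
            apply sum_le_sum
            intro q hq
            rw [mem_filter, mem_filter, mem_Icc] at hq
            obtain ⟨⟨⟨h6, h7⟩, h8⟩, h9⟩ := hq
            rw [← sum_filter]
            apply sum_le_sum_of_subset_of_nonneg
            · apply filter_subset_filter
              apply Icc_subset_Icc_right
              simp only [hMk]
              apply Nat.div_le_div_left _ (by positivity)
              have h10 : 2 ^ k ≤ q / Q₀ := by
                rw [← h9]
                exact Nat.pow_log_le_self 2 (Nat.div_pos h8 hQ₀).ne'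
              exact (Nat.le_div_iff_mul_le hQ₀).1 h10
            · intro m _ _
              exact er_nonneg _ _ _
        _ ≤ S k t := by
            simp only [hS]
            apply sum_le_sum_of_subset_of_nonneg hsub
            intro q _ _
            exact sum_nonneg fun m _ => er_nonneg _ _ _
    have h6 : ∑ k ∈ range K, S k t ≤ N / L ^ U := by
      refine (sum_le_card_nsmul _ _ _ hsmall).trans ?_
      rw [card_range, nsmul_eq_mul]
      calc (K : ℝ) * (N / L ^ (U + 2)) ≤ L ^ 2 * (N / L ^ (U + 2)) := by gcongr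
        _ = _ := by
            rw [pow_add]
            field_simp
    linarith
  have hfin : (T.card : ℝ) ≤ ∑ k ∈ range K, ((Tk k).card : ℝ) := by
    have h3 := (card_le_card hcover).trans card_biUnion_le
    exact_mod_cast h3
  refine (hfin.trans (sum_le_card_nsmul _ _ _ hblock)).trans ?_
  rw [card_range, nsmul_eq_mul]
  have hY0 : 0 ≤ X * (X / Q₀ + Real.sqrt N) / N := by positivity
  calc (K : ℝ) * (2 * (X * (X / Q₀ + Real.sqrt N) / N) * L ^ B) ≤
      L ^ 2 * (L * (X * (X / Q₀ + Real.sqrt N) / N) * L ^ B) := by gcongr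
    _ = _ := by ring

end Pool.Agent.U485.EH
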