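import Pool.Agent.U485.EH.Bv
import Pool.Agent.Helper602.MK.J3

/-!
The mean square over the lifts.
-/

set_option autoImplicit false

namespace Pool.Agent.U485.EH

open Finset Filter
open Pool.Agent.H441R3.BV (one_le_log)

/-- the classes which are not invertible contain at most one prime -/
lemma piA_bad (y q d b : ℕ) (h : ¬ b.Coprime d) : piA y (q * d) b ≤ 1 := by
  unfold piA
  rw [card_le_one]
  have key : ∀ p : ℕ, p.Prime → p ≡ b [MOD (q * d)] → p = Nat.gcd b d := by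
    intro p hp h1
    have h2 : p ≡ b [MOD d] := h1.of_mul_left q
    have h3 : Nat.gcd b d ∣ p := by
      have h4 : p ≡ b [MOD (Nat.gcd b d)] := h2.of_dvd (Nat.gcd_dvd_right b d)
      exact (h4.dvd_iff dvd_rfl).2 (Nat.gcd_dvd_left b d)
    rcases (Nat.dvd_prime hp).1 h3 with h4 | h4
    · exact absurd h4 h
    · exact h4.symm
  intro p hp p' hp'
  rw [mem_filter] at hp hp'
  rw [key p hp.2.1 hp.2.2, key p' hp'.2.1 hp'.2.2]

lemma FF_er (q a y d t : ℕ) (hq : 1 ≤ q) (ha : a < q) (hc : (a + q * t).Coprime d) :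
    |FF q a y d t| = er y (q * d) (a + q * t) := by
  unfold FF er GG
  rw [CC_eq q a y d t hq ha, if_pos hc]

lemma FF_le (N q a y d t : ℕ) (hq : 1 ≤ q) (hd : 1 ≤ d) (ha : a < q) (haq : a.Coprime q) (hy : y ≤ N) :
    |FF q a y d t| ≤ Es N (q * d) + 1 := by
  by_cases hc : (a + q * t).Coprime d
  · rw [FF_er q a y d t hq ha hc]
    have h1 := le_Es N (q * d) y (a + q * t) (Nat.mul_pos hq hd) hy ((cop_iff q a d t haq).2 hc)
    linarith
  · unfold FF GG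
    rw [if_neg hc, sub_zero, CC_eq q a y d t hq ha, abs_of_nonneg (Nat.cast_nonneg _)]
    have h1 : (piA y (q * d) (a + q * t) : ℝ) ≤ 1 := by exact_mod_cast piA_bad y q d _ hc
    have h2 := Es_nonneg N (q * d)
    linarith

/-- the inequality of Brun and Titchmarsh -/
lemma bt : ∃ C : ℝ, 1 ≤ C ∧ ∀ N : ℕ, 3 ≤ N → ∀ q a y : ℕ, 1 ≤ q → q * q ≤ N → y ≤ N →
    CC q a y 1 0 ≤ C * (N / ((Nat.totient q : ℝ) * Real.log N)) := by
  obtain ⟨C, hC, h⟩ := Pool.Agent.Helper602.MK.BTLib.brun_titchmarsh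
  refine ⟨4 * C, by linarith, fun N hN q a y hq hqN hy => ?_⟩
  have hl := one_le_log hN
  have hNr : (0 : ℝ) < N := by
    have : 0 < N := by omega
    exact_mod_cast this
  have hq0 : (0 : ℝ) < q := by exact_mod_cast hq
  have hφ : (0 : ℝ) < Nat.totient q := by exact_mod_cast Nat.totient_pos.2 hq
  have hqN' : q ≤ N := by nlinarith
  set K := N / q + 1 with hK
  have hK2 : 2 ≤ K := by
    have : 1 ≤ N / q := (Nat.one_le_div_iff (by omega)).2 hqN'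
    omega
  have h1 := h a q K hq hK2
  have hsub : CC q a y 1 0 ≤ (((range K).filter (fun k => (a + k * q).Prime)).card : ℝ) := by
    rw [CC_one]
    unfold cc
    rw [sum_boole]
    have : (range (y / q + 1)).filter (fun k => (a + q * k).Prime ∧ a + q * k ≤ y) ⊆
        (range K).filter (fun k => (a + k * q).Prime) := by
      intro k hk
      rw [mem_filter, mem_range] at hk ⊢
      refine ⟨?_, ?_⟩
      · have : y / q ≤ N / q := Nat.div_le_div_right hy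
        omega
      · rw [mul_comm k q]
        exact hk.2.1
    exact_mod_cast card_le_card this
  have hKu : (K : ℝ) ≤ 2 * (N / q) := by
    have h5 : ((N / q : ℕ) : ℝ) ≤ (N : ℝ) / q := Nat.cast_div_le
    have h6 : (1 : ℝ) ≤ N / q := by
      rw [one_le_div hq0]
      exact_mod_cast hqN'
    rw [hK]
    push_cast
    linarith
  have hKl : (N : ℝ) / q ≤ K := by
    have h5 : (N : ℝ) < (q : ℝ) * ((N / q : ℕ) + 1) := by exact_mod_cast Nat.lt_mul_div_succ N hq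
    rw [div_le_iff₀ hq0, hK]
    push_cast
    linarith
  have hlK : Real.log N / 2 ≤ Real.log K := by
    have h5 : Real.sqrt N ≤ K := by
      refine le_trans ?_ hKl
      rw [le_div_iff₀ hq0]
      have h6 : (q : ℝ) ≤ Real.sqrt N := by
        apply Real.le_sqrt_of_sq_le
        rw [sq]
        exact_mod_cast hqN
      calc Real.sqrt N * q ≤ Real.sqrt N * Real.sqrt N := by gcongr
        _ = N := Real.mul_self_sqrt hNr.le
    have h6 := Real.log_le_log (Real.sqrt_pos.2 hNr) h5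
    rw [Real.log_sqrt hNr.le] at h6
    exact h6
  refine hsub.trans (h1.trans ?_)
  have hlN : 0 < Real.log N := by linarith
  calc C * ((q : ℝ) / (Nat.totient q : ℝ)) * K / Real.log K ≤
      C * ((q : ℝ) / (Nat.totient q : ℝ)) * (2 * (N / q)) / (Real.log N / 2) := by gcongr
    _ = _ := by
        field_simp
        ring

lemma piN_bt : ∃ C : ℝ, 1 ≤ C ∧ ∀ N : ℕ, 3 ≤ N → ∀ y : ℕ, y ≤ N → (piN y : ℝ) ≤ C * (N / Real.log N) := by
  obtain ⟨C, hC, h⟩ := bt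
  refine ⟨C, hC, fun N hN y hy => ?_⟩
  have h1 := h N hN 1 0 y le_rfl (by omega) hy
  rw [Nat.totient_one, Nat.cast_one, one_mul, CC_eq 1 0 y 1 0 le_rfl (by norm_num)] at h1
  have h2 : piA y (1 * 1) (0 + 1 * 0) = piN y := by
    unfold piA piN
    congr 1
    apply filter_congr
    intro p _
    simp [Nat.modEq_one]
  rw [h2] at h1
  exact h1

lemma log_le2 {N M : ℕ} (hN : 3 ≤ N) (hM : M ≤ N) : 1 + Real.log M ≤ 2 * Real.log N := by
  have hl := one_le_log hN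
  rcases Nat.eq_zero_or_pos M with h0 | h0
  · subst h0
    simp only [Nat.cast_zero, Real.log_zero]
    linarith
  · have : Real.log M ≤ Real.log N := Real.log_le_log (by exact_mod_cast h0) (by exact_mod_cast hM)
    linarith

/-- the high part for one modulus -/
noncomputable def HH (R M q a y : ℕ) : ℝ :=
  ∑ m ∈ Icc 1 M, (1 / (m : ℝ)) * ∑ d ∈ m.divisors.filter (fun d => ¬ d ≤ R), W (FF q a y) d

lemma HH_nonneg (R M q a y : ℕ) : 0 ≤ HH R M q a y :=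
  sum_nonneg fun m _ => mul_nonneg (by positivity) (sum_nonneg fun d _ => W_nonneg _ d)

/-- **the sum of the high parts** -/
lemma high_sum : ∃ C : ℝ, 1 ≤ C ∧ ∀ N : ℕ, 3 ≤ N → ∀ Q R : ℕ, Q * Q ≤ N → ∀ M : ℕ → ℕ, (∀ q, M q ≤ N) →
    ∀ a y : ℕ → ℕ, (∀ q ∈ Icc 1 Q, (a q).Coprime q) → (∀ q, y q ≤ N) →
    ∑ q ∈ Icc 1 Q, (Nat.totient q : ℝ) * HH R (M q) q (a q) (y q) ≤
      C * ((∑ q ∈ Icc 1 Q, (M q : ℝ)) * N / Real.log N + N ^ 2 * Real.log N ^ 3 / ((R : ℝ) + 1)) := by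
  obtain ⟨c1, hc1, hbt⟩ := bt
  obtain ⟨c2, hc2, hpi⟩ := piN_bt
  refine ⟨144 * c1 + 64 * c2 ^ 2, by nlinarith, fun N hN Q R hQ M hM a y ha hy => ?_⟩
  have hl := one_le_log hN
  set L := Real.log N with hL
  have hL0 : 0 < L := by linarith
  have hNr : (0 : ℝ) < N := by
    have : 0 < N := by omega
    exact_mod_cast this
  have hR0 : (0 : ℝ) < (R : ℝ) + 1 := by positivity
  have hpt : ∀ q ∈ Icc 1 Q, (Nat.totient q : ℝ) * HH R (M q) q (a q) (y q) ≤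
      48 * c1 * (N ^ 2 / ((R : ℝ) + 1)) * (1 / (q : ℝ)) + 48 * c1 * (N / L) * (M q : ℝ) +
      16 * c2 ^ 2 * (N ^ 2 * L / ((R : ℝ) + 1)) * (1 / (Nat.totient q : ℝ)) := by
    intro q hq
    have hq' := mem_Icc.1 hq
    have hM0 : (0 : ℝ) ≤ M q := Nat.cast_nonneg _
    have hlM0 : 0 ≤ 1 + Real.log (M q) := log1_nonneg (M q)
    have hlM : 1 + Real.log (M q) ≤ 2 * L := log_le2 hN (hM q)
    have hq0 : (0 : ℝ) < q := by exact_mod_cast hq'.1
    have hφ : (0 : ℝ) < Nat.totient q := by exact_mod_cast Nat.totient_pos.2 hq'.1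
    have hqq : q * q ≤ N := (Nat.mul_le_mul hq'.2 hq'.2).trans hQ
    have hqN : q ≤ N := by nlinarith
    have h1 := high q (a q) (y q) (M q) R hq'.1 (ha q hq)
    have h2 := hbt N hN q (a q) (y q) hq'.1 hqq (hy q)
    have h3 := hpi N hN (y q) (hy q)
    have h4 : ((y q / q + 1 : ℕ) : ℝ) ≤ 2 * (N / q) := by
      have h5 : ((y q / q : ℕ) : ℝ) ≤ (y q : ℝ) / q := Nat.cast_div_le
      have h6 : (y q : ℝ) / q ≤ N / q := by
        apply div_le_div_of_nonneg_right _ hq0.le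
        exact_mod_cast hy q
      have h7 : (1 : ℝ) ≤ N / q := by
        rw [one_le_div hq0]
        exact_mod_cast hqN
      push_cast
      linarith
    have hCC0 : 0 ≤ CC q (a q) (y q) 1 0 := CC_nonneg _ _ _ _ _
    have hpi0 : (0 : ℝ) ≤ piN (y q) := Nat.cast_nonneg _
    unfold HH
    calc (Nat.totient q : ℝ) * _ ≤ (Nat.totient q : ℝ) * (12 * CC q (a q) (y q) 1 0 * ((((y q / q + 1 : ℕ) : ℝ)) *
          (1 + Real.log (M q)) / ((R : ℝ) + 1) + 4 * (M q : ℝ)) +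
          2 * ((piN (y q) : ℝ) / (Nat.totient q : ℝ)) ^ 2 * (1 + Real.log (M q)) ^ 3 / ((R : ℝ) + 1)) :=
          mul_le_mul_of_nonneg_left h1 hφ.le
      _ ≤ (Nat.totient q : ℝ) * (12 * (c1 * (N / ((Nat.totient q : ℝ) * L))) * ((2 * (N / q)) *
          (2 * L) / ((R : ℝ) + 1) + 4 * (M q : ℝ)) +
          2 * ((c2 * (N / L)) / (Nat.totient q : ℝ)) ^ 2 * (2 * L) ^ 3 / ((R : ℝ) + 1)) := by
          gcongr
      _ = _ := by
          field_simp
          ring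
  refine (sum_le_sum hpt).trans ?_
  have hsum : ∑ q ∈ Icc 1 Q, (48 * c1 * (N ^ 2 / ((R : ℝ) + 1)) * (1 / (q : ℝ)) + 48 * c1 * (N / L) * (M q : ℝ) +
      16 * c2 ^ 2 * (N ^ 2 * L / ((R : ℝ) + 1)) * (1 / (Nat.totient q : ℝ))) =
      48 * c1 * (N ^ 2 / ((R : ℝ) + 1)) * ∑ q ∈ Icc 1 Q, 1 / (q : ℝ) + 48 * c1 * ((∑ q ∈ Icc 1 Q, (M q : ℝ)) * N / L) +
      16 * c2 ^ 2 * (N ^ 2 * L / ((R : ℝ) + 1)) * ∑ q ∈ Icc 1 Q, 1 / (Nat.totient q : ℝ) := by
    have e1 : 48 * c1 * ((∑ q ∈ Icc 1 Q, (M q : ℝ)) * N / L) = 48 * c1 * (N / L) * ∑ q ∈ Icc 1 Q, (M q : ℝ) := by ring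
    rw [e1, sum_add_distrib, sum_add_distrib, mul_sum, mul_sum, mul_sum]
  rw [hsum]
  have hQN : Q ≤ N := by nlinarith
  have hlQ0 : 0 ≤ 1 + Real.log Q := log1_nonneg Q
  have hlQ : 1 + Real.log Q ≤ 2 * L := log_le2 hN hQN
  have s1 : ∑ q ∈ Icc 1 Q, 1 / (q : ℝ) ≤ 2 * L := (harm Q).trans hlQ
  have s2 : ∑ q ∈ Icc 1 Q, 1 / (Nat.totient q : ℝ) ≤ 4 * L ^ 2 := by
    refine (Pool.Agent.H441R3.BV.sum_inv_tot Q).trans ?_
    calc (1 + Real.log Q) ^ 2 ≤ (2 * L) ^ 2 := pow_le_pow_left₀ hlQ0 hlQ 2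
      _ = _ := by ring
  have t1 : 48 * c1 * (N ^ 2 / ((R : ℝ) + 1)) * ∑ q ∈ Icc 1 Q, 1 / (q : ℝ) ≤
      96 * c1 * (N ^ 2 * L ^ 3 / ((R : ℝ) + 1)) := by
    calc 48 * c1 * (N ^ 2 / ((R : ℝ) + 1)) * ∑ q ∈ Icc 1 Q, 1 / (q : ℝ) ≤
        48 * c1 * (N ^ 2 / ((R : ℝ) + 1)) * (2 * L) := by gcongr
      _ = 96 * c1 * (N ^ 2 * L / ((R : ℝ) + 1)) := by ring
      _ ≤ _ := by
          have : L ≤ L ^ 3 := by
            calc L = L ^ 1 := (pow_one L).symm
              _ ≤ L ^ 3 := pow_le_pow_right₀ hl (by norm_num)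
          gcongr
  have t2 : 16 * c2 ^ 2 * (N ^ 2 * L / ((R : ℝ) + 1)) * ∑ q ∈ Icc 1 Q, 1 / (Nat.totient q : ℝ) ≤
      64 * c2 ^ 2 * (N ^ 2 * L ^ 3 / ((R : ℝ) + 1)) := by
    calc 16 * c2 ^ 2 * (N ^ 2 * L / ((R : ℝ) + 1)) * ∑ q ∈ Icc 1 Q, 1 / (Nat.totient q : ℝ) ≤
        16 * c2 ^ 2 * (N ^ 2 * L / ((R : ℝ) + 1)) * (4 * L ^ 2) := by gcongr
      _ = _ := by ring
  have hA : 0 ≤ (N : ℝ) ^ 2 * L ^ 3 / ((R : ℝ) + 1) := by positivity
  have hB : 0 ≤ (∑ q ∈ Icc 1 Q, (M q : ℝ)) * N / L := by positivity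
  have hc1' : 0 ≤ c1 := by linarith
  have hc2' : 0 ≤ c2 ^ 2 := by positivity
  nlinarith [mul_nonneg hc1' hA, mul_nonneg hc1' hB, mul_nonneg hc2' hA, mul_nonneg hc2' hB]

end Pool.Agent.U485.EH
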