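import Pool.Agent.U485.EH.Fo

/-!
The primes in the classes `a + q t` modulo `q d`, and the expected number.
-/

set_option autoImplicit false

namespace Pool.Agent.U485.EH

open Finset
open Pool.Agent.Helper112

/-- `π(y)` -/
def piN (y : ℕ) : ℕ := ((Icc 1 y).filter (fun p : ℕ => p.Prime)).card

/-- `π(y; q, a)` -/
def piA (y q a : ℕ) : ℕ := ((Icc 1 y).filter (fun p : ℕ => p.Prime ∧ p ≡ a [MOD q])).card

/-- the indicator function of `a + q k` being a prime `≤ y` -/
noncomputable def cc (q a y k : ℕ) : ℝ := if (a + q * k).Prime ∧ a + q * k ≤ y then 1 else 0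

lemma cc_nonneg (q a y k : ℕ) : 0 ≤ cc q a y k := by
  unfold cc
  split_ifs <;> norm_num

lemma cc_sq (q a y k : ℕ) : cc q a y k ^ 2 = cc q a y k := by
  unfold cc
  split_ifs <;> norm_num

/-- the number of the primes -/
noncomputable def CC (q a y d t : ℕ) : ℝ :=
  ∑ k ∈ (range (y / q + 1)).filter (fun k => k % d = t % d), cc q a y k

/-- the expected number -/
noncomputable def GG (q a y d t : ℕ) : ℝ :=
  if (a + q * t).Coprime d then (piN y : ℝ) / (Nat.totient (q * d) : ℝ) else 0

/-- the difference -/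
noncomputable def FF (q a y d t : ℕ) : ℝ := CC q a y d t - GG q a y d t

lemma CC_nonneg (q a y d t : ℕ) : 0 ≤ CC q a y d t := sum_nonneg fun k _ => cc_nonneg _ _ _ k

lemma GG_nonneg (q a y d t : ℕ) : 0 ≤ GG q a y d t := by
  unfold GG
  split_ifs
  · positivity
  · exact le_rfl

lemma modEq_iff (q a d t k : ℕ) (hq : 1 ≤ q) : a + q * k ≡ a + q * t [MOD (q * d)] ↔ k % d = t % d := by
  constructor
  · intro h
    have h1 := Nat.ModEq.add_left_cancel' a h
    exact Nat.ModEq.mul_left_cancel' (by omega) h1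
  · intro h
    have h1 : k ≡ t [MOD d] := h
    exact Nat.ModEq.add_left a (Nat.ModEq.mul_left' q h1)

lemma CC_eq (q a y d t : ℕ) (hq : 1 ≤ q) (ha : a < q) : CC q a y d t = piA y (q * d) (a + q * t) := by
  unfold CC cc piA
  rw [sum_boole, filter_filter]
  congr 1
  apply card_nbij' (fun k => a + q * k) (fun p => p / q)
  · intro k hk
    rw [coe_filter, Set.mem_ofPred_eq, mem_range] at hk
    rw [coe_filter, Set.mem_ofPred_eq, mem_Icc]
    obtain ⟨_, h2, h3, h4⟩ := hk
    exact ⟨⟨h3.one_lt.le, h4⟩, h3, (modEq_iff q a d t k hq).2 h2⟩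
  · intro p hp
    rw [coe_filter, Set.mem_ofPred_eq, mem_Icc] at hp
    rw [coe_filter, Set.mem_ofPred_eq, mem_range]
    obtain ⟨⟨_, h2⟩, h3, h4⟩ := hp
    have h5 : p % q = a := by
      have h6 : p ≡ a + q * t [MOD q] := h4.of_mul_right d
      have h7 : p % q = (a + q * t) % q := h6
      rw [h7, Nat.add_mul_mod_self_left, Nat.mod_eq_of_lt ha]
    have h6 : a + q * (p / q) = p := by
      rw [← h5]
      exact Nat.mod_add_div p q
    refine ⟨Nat.lt_succ_of_le (Nat.div_le_div_right h2), ?_, by rw [h6]; exact h3, by rw [h6]; exact h2⟩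
    rw [← modEq_iff q a d t _ hq, h6]
    exact h4
  · intro k _
    simp only
    rw [Nat.add_mul_div_left _ _ (by omega), Nat.div_eq_of_lt ha, zero_add]
  · intro p hp
    rw [coe_filter, Set.mem_ofPred_eq, mem_Icc] at hp
    obtain ⟨⟨_, h2⟩, h3, h4⟩ := hp
    have h5 : p % q = a := by
      have h6 : p ≡ a + q * t [MOD q] := h4.of_mul_right d
      have h7 : p % q = (a + q * t) % q := h6
      rw [h7, Nat.add_mul_mod_self_left, Nat.mod_eq_of_lt ha]
    simp only
    rw [← h5]
    exact Nat.mod_add_div p q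

lemma FF_per (q a y : ℕ) : Per (FF q a y) := by
  intro m t hm
  unfold FF CC GG
  rw [Nat.mod_mod]
  congr 1
  have h1 : (a + q * t).Coprime m ↔ (a + q * (t % m)).Coprime m := by
    unfold Nat.Coprime
    have h2 : a + q * (t % m) ≡ a + q * t [MOD m] := Nat.ModEq.add_left a (Nat.ModEq.mul_left q (Nat.mod_modEq t m))
    rw [h2.gcd_eq]
  by_cases h : (a + q * t).Coprime m
  · rw [if_pos h, if_pos (h1.1 h)]
  · rw [if_neg h, if_neg (fun h' => h (h1.2 h'))]

lemma CC_compat (q a y : ℕ) : Compat (CC q a y) := by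
  intro m d hm hd b₀ hb₀
  have hd1 : 0 < d := Nat.pos_of_dvd_of_pos hd hm
  unfold CC
  simp_rw [sum_filter]
  have e1 : ∑ b ∈ range m, (if b % d = b₀ then ∑ k ∈ range (y / q + 1), (if k % m = b % m then cc q a y k else 0) else 0) =
      ∑ b ∈ range m, ∑ k ∈ range (y / q + 1), if k % m = b ∧ b % d = b₀ then cc q a y k else 0 := by
    apply sum_congr rfl
    intro b hb
    rw [mem_range] at hb
    by_cases h : b % d = b₀
    · rw [if_pos h]
      apply sum_congr rfl
      intro k _
      rw [Nat.mod_eq_of_lt hb]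
      by_cases h2 : k % m = b <;> simp [h2, h]
    · rw [if_neg h]
      symm
      apply sum_eq_zero
      intro k _
      rw [if_neg (fun h2 => h h2.2)]
  rw [e1, sum_comm]
  apply sum_congr rfl
  intro k _
  rw [Nat.mod_eq_of_lt hb₀]
  have hk : k % m % d = k % d := Nat.mod_mod_of_dvd k hd
  by_cases h : k % d = b₀
  · rw [if_pos h, sum_eq_single_of_mem (k % m) (mem_range.2 (Nat.mod_lt _ hm))]
    · rw [if_pos ⟨rfl, by rw [hk]; exact h⟩]
    · intro b _ hne
      rw [if_neg (fun h2 => hne h2.1.symm)]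
  · rw [if_neg h]
    apply sum_eq_zero
    intro b _
    rw [if_neg]
    rintro ⟨h2, h3⟩
    apply h
    rw [← hk, h2, h3]

lemma fiber_card {m d : ℕ} [NeZero m] [NeZero d] (hd : d ∣ m) (v : (ZMod d)ˣ) :
    (univ.filter (fun k : (ZMod m)ˣ => ZMod.unitsMap hd k = v)).card * Nat.totient d = Nat.totient m := by
  classical
  have hs := ZMod.unitsMap_surjective hd
  have h1 : ∀ w : (ZMod d)ˣ, (univ.filter (fun k : (ZMod m)ˣ => ZMod.unitsMap hd k = w)).card
      = (univ.filter (fun k : (ZMod m)ˣ => ZMod.unitsMap hd k = v)).card := by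
    intro w
    exact MonoidHom.card_fiber_eq_of_mem_range (ZMod.unitsMap hd) (hs w) (hs v)
  have h2 : Fintype.card (ZMod m)ˣ = ∑ w : (ZMod d)ˣ,
      (univ.filter (fun k : (ZMod m)ˣ => ZMod.unitsMap hd k = w)).card := by
    rw [← Finset.card_univ]
    exact Finset.card_eq_sum_card_fiberwise (fun _ _ => Finset.mem_univ _)
  rw [Finset.sum_congr rfl (fun w _ => h1 w), Finset.sum_const, Finset.card_univ,
    ZMod.card_units_eq_totient, ZMod.card_units_eq_totient, smul_eq_mul] at h2
  rw [h2, mul_comm]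

lemma cop_iff (q a d t : ℕ) (haq : a.Coprime q) : (a + q * t).Coprime (q * d) ↔ (a + q * t).Coprime d := by
  rw [Nat.coprime_mul_iff_right]
  constructor
  · exact fun h => h.2
  · intro h
    refine ⟨?_, h⟩
    rw [Nat.coprime_add_mul_left_left]
    exact haq

lemma lift_card (q a m d b₀ : ℕ) (hq : 1 ≤ q) (hm : 1 ≤ m) (hd : d ∣ m) (hb₀ : b₀ < d)
    (haq : a.Coprime q) (hc : (a + q * b₀).Coprime d) :
    ((range m).filter (fun b => b % d = b₀ ∧ (a + q * b).Coprime m)).card * Nat.totient (q * d) =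
      Nat.totient (q * m) := by
  classical
  have hd1 : 0 < d := Nat.pos_of_dvd_of_pos hd hm
  have : NeZero (q * m) := ⟨(Nat.mul_pos hq hm).ne'⟩
  have : NeZero (q * d) := ⟨(Nat.mul_pos hq hd1).ne'⟩
  have hdm : q * d ∣ q * m := Nat.mul_dvd_mul_left q hd
  have hcop : (a + q * b₀).Coprime (q * d) := (cop_iff q a d b₀ haq).2 hc
  rw [← fiber_card hdm (ZMod.unitOfCoprime (a + q * b₀) hcop)]
  congr 1
  apply card_bij (fun b hb => ZMod.unitOfCoprime (a + q * b)
    ((cop_iff q a m b haq).2 (mem_filter.1 hb).2.2))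
  · intro b hb
    rw [mem_filter]
    refine ⟨mem_univ _, ?_⟩
    ext
    rw [ZMod.unitsMap_val, ZMod.coe_unitOfCoprime, ZMod.coe_unitOfCoprime, ZMod.cast_natCast hdm,
      ZMod.natCast_eq_natCast_iff, modEq_iff q a d b₀ b hq, (mem_filter.1 hb).2.1, Nat.mod_eq_of_lt hb₀]
  · intro b hb b' hb' h
    have h1 := congrArg (fun u : (ZMod (q * m))ˣ => (u : ZMod (q * m))) h
    simp only [ZMod.coe_unitOfCoprime] at h1
    rw [ZMod.natCast_eq_natCast_iff, modEq_iff q a m b' b hq,
      Nat.mod_eq_of_lt (mem_range.1 (mem_filter.1 hb).1), Nat.mod_eq_of_lt (mem_range.1 (mem_filter.1 hb').1)] at h1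
    exact h1
  · intro u hu
    rw [mem_filter] at hu
    set r := (u : ZMod (q * m)).val with hr
    have h1 : r ≡ a + q * b₀ [MOD (q * d)] := by
      have h2 := congrArg (fun u : (ZMod (q * d))ˣ => (u : ZMod (q * d))) hu.2
      simp only [ZMod.unitsMap_val, ZMod.coe_unitOfCoprime] at h2
      rw [← ZMod.natCast_eq_natCast_iff, ← h2, hr, ZMod.cast_eq_val]
    have h2 : q ∣ r + q * m * a - a := by
      have h3 : r ≡ a [MOD q] := by
        have h4 : r ≡ a + q * b₀ [MOD q] := h1.of_mul_right d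
        refine h4.trans ?_
        unfold Nat.ModEq
        rw [Nat.add_mul_mod_self_left]
      have h5 : a ≡ r + q * m * a [MOD q] := by
        refine h3.symm.trans ?_
        unfold Nat.ModEq
        rw [mul_assoc, Nat.add_mul_mod_self_left]
      rw [← Nat.modEq_iff_dvd' (by nlinarith [Nat.mul_pos hq hm, Nat.zero_le r, Nat.zero_le a])]
      exact h5
    obtain ⟨s, hs⟩ := h2
    have hle : a ≤ r + q * m * a := by nlinarith [Nat.mul_pos hq hm, Nat.zero_le r, Nat.zero_le a]
    have hs2 : a + q * s = r + q * m * a := by omega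
    have hs3 : a + q * s ≡ r [MOD (q * m)] := by
      unfold Nat.ModEq
      rw [hs2, Nat.add_mul_mod_self_left]
    have hb1 : a + q * (s % m) ≡ a + q * s [MOD (q * m)] := by
      rw [modEq_iff q a m s _ hq, Nat.mod_mod]
    have hsd : s % d = b₀ := by
      have h5 : a + q * s ≡ a + q * b₀ [MOD (q * d)] := (hs3.of_dvd hdm).trans h1
      rw [modEq_iff q a d b₀ s hq, Nat.mod_eq_of_lt hb₀] at h5
      exact h5
    have hcm : (a + q * (s % m)).Coprime m := by
      have h6 : r.Coprime (q * m) := ZMod.val_coe_unit_coprime u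
      have h7 : (a + q * (s % m)).Coprime (q * m) := by
        unfold Nat.Coprime
        rw [(hb1.trans hs3).gcd_eq]
        exact h6
      exact (cop_iff q a m _ haq).1 h7
    refine ⟨s % m, mem_filter.2 ⟨mem_range.2 (Nat.mod_lt _ hm), ?_, hcm⟩, ?_⟩
    · rw [Nat.mod_mod_of_dvd s hd, hsd]
    · ext
      rw [ZMod.coe_unitOfCoprime]
      have h8 : ((a + q * (s % m) : ℕ) : ZMod (q * m)) = ((r : ℕ) : ZMod (q * m)) := by
        rw [ZMod.natCast_eq_natCast_iff]
        exact hb1.trans hs3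
      rw [h8, hr, ZMod.natCast_zmod_val]

lemma GG_compat (q a y : ℕ) (hq : 1 ≤ q) (haq : a.Coprime q) : Compat (GG q a y) := by
  intro m d hm hd b₀ hb₀
  have hd1 : 0 < d := Nat.pos_of_dvd_of_pos hd hm
  unfold GG
  rw [← sum_filter, filter_filter, sum_const, nsmul_eq_mul]
  by_cases hc : (a + q * b₀).Coprime d
  · rw [if_pos hc]
    have h1 := lift_card q a m d b₀ hq hm hd hb₀ haq hc
    have h2 : (0 : ℝ) < Nat.totient (q * d) := by exact_mod_cast Nat.totient_pos.2 (Nat.mul_pos hq hd1)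
    have h3 : (0 : ℝ) < Nat.totient (q * m) := by exact_mod_cast Nat.totient_pos.2 (Nat.mul_pos hq hm)
    have h4 : (((range m).filter (fun b => b % d = b₀ ∧ (a + q * b).Coprime m)).card : ℝ) *
        Nat.totient (q * d) = Nat.totient (q * m) := by exact_mod_cast h1
    rw [← h4]
    have h5 : (0 : ℝ) < (((range m).filter (fun b => b % d = b₀ ∧ (a + q * b).Coprime m)).card : ℝ) := by
      by_contra hcon
      push Not at hcon
      have h6 : (((range m).filter (fun b => b % d = b₀ ∧ (a + q * b).Coprime m)).card : ℝ) *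
        Nat.totient (q * d) ≤ 0 := mul_nonpos_of_nonpos_of_nonneg hcon h2.le
      linarith
    field_simp
  · rw [if_neg hc]
    have h1 : (range m).filter (fun b => b % d = b₀ ∧ (a + q * b).Coprime m) = ∅ := by
      rw [filter_eq_empty_iff]
      rintro b _ ⟨h2, h3⟩
      apply hc
      have h4 : a + q * b₀ ≡ a + q * b [MOD d] := by
        apply Nat.ModEq.add_left
        apply Nat.ModEq.mul_left
        unfold Nat.ModEq
        rw [h2, Nat.mod_eq_of_lt hb₀]
      unfold Nat.Coprime
      rw [h4.gcd_eq]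
      exact Nat.Coprime.coprime_dvd_right hd h3
    rw [h1, card_empty, Nat.cast_zero, zero_mul]

lemma FF_compat (q a y : ℕ) (hq : 1 ≤ q) (haq : a.Coprime q) : Compat (FF q a y) := by
  intro m d hm hd b₀ hb₀
  unfold FF
  rw [sum_sub_distrib, CC_compat q a y m d hm hd b₀ hb₀, GG_compat q a y hq haq m d hm hd b₀ hb₀]

/-- the Fourier transform of the expected number at the primitive frequencies -/
lemma prim_hat (q a y d h : ℕ) (hd : 1 ≤ d) (haq : a.Coprime q) (hh : h.Coprime d) :
    ‖hat (GG q a y) d h‖ ≤ (piN y : ℝ) / (Nat.totient (q * d) : ℝ) := by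
  classical
  have hd0 : (d : ℝ) ≠ 0 := by
    have : 0 < d := hd
    positivity
  set X : ℝ := (piN y : ℝ) / (Nat.totient (q * d) : ℝ) with hX
  have hX0 : 0 ≤ X := by positivity
  set T : ℕ → ℂ := fun δ => ∑ b ∈ (range d).filter (fun b => δ ∣ a + q * b), ee ((b : ℝ) * h / d) with hT
  -- expansion
  have h1 : hat (GG q a y) d h = X * ∑ δ ∈ d.divisors, (ArithmeticFunction.moebius δ : ℂ) * T δ := by
    unfold hat
    rw [mul_sum]
    have e1 : ∀ b ∈ range d, ((GG q a y d b : ℝ) : ℂ) * ee ((b : ℝ) * h / d) =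
        ∑ δ ∈ d.divisors, (X : ℂ) * ((ArithmeticFunction.moebius δ : ℂ) *
          if δ ∣ a + q * b then ee ((b : ℝ) * h / d) else 0) := by
      intro b _
      have e2 : ((GG q a y d b : ℝ) : ℂ) = X * ∑ δ ∈ (Nat.gcd (a + q * b) d).divisors, (ArithmeticFunction.moebius δ : ℂ) := by
        have e3 : ∑ δ ∈ (Nat.gcd (a + q * b) d).divisors, (ArithmeticFunction.moebius δ : ℂ) =
            if Nat.gcd (a + q * b) d = 1 then 1 else 0 := by
          have e4 := congrArg (fun f : ArithmeticFunction ℤ => f (Nat.gcd (a + q * b) d))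
            ArithmeticFunction.moebius_mul_coe_zeta
          simp only [ArithmeticFunction.coe_mul_zeta_apply, ArithmeticFunction.one_apply] at e4
          exact_mod_cast congrArg (fun z : ℤ => (z : ℂ)) e4
        rw [e3]
        unfold GG
        by_cases hc : (a + q * b).Coprime d
        · rw [if_pos hc, if_pos hc]
          simp [hX]
        · rw [if_neg hc, if_neg hc]
          simp
      have e5 : (Nat.gcd (a + q * b) d).divisors = d.divisors.filter (fun δ => δ ∣ a + q * b) := by
        ext δ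
        rw [Nat.mem_divisors, mem_filter, Nat.mem_divisors, Nat.dvd_gcd_iff]
        constructor
        · rintro ⟨⟨h1, h2⟩, h3⟩
          exact ⟨⟨h2, by omega⟩, h1⟩
        · rintro ⟨⟨h1, h2⟩, h3⟩
          exact ⟨⟨h3, h1⟩, (Nat.gcd_pos_of_pos_right _ (by omega)).ne'⟩
      rw [e2, e5, sum_filter, mul_sum, sum_mul]
      apply sum_congr rfl
      intro δ _
      split_ifs
      · ring
      · ring
    rw [sum_congr rfl e1, sum_comm]
    apply sum_congr rfl
    intro δ _
    rw [← mul_sum, ← mul_sum, hT]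
    simp only
    rw [sum_filter]
  -- the proper divisors
  have h2 : ∀ δ ∈ d.divisors, δ ≠ d → T δ = 0 := by
    intro δ hδ hne
    have hdd := Nat.dvd_of_mem_divisors hδ
    have hδ1 : 0 < δ := Nat.pos_of_dvd_of_pos hdd hd
    have hδd : δ < d := lt_of_le_of_ne (Nat.le_of_dvd hd hdd) hne
    have e1 : T δ = ee ((δ : ℝ) * h / d) * T δ := by
      rw [hT]
      simp only
      rw [mul_sum]
      symm
      apply sum_nbij' (fun b => (b + δ) % d) (fun b => (b + (d - δ)) % d)
      · intro b hb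
        rw [mem_filter, mem_range] at hb ⊢
        refine ⟨Nat.mod_lt _ hd, ?_⟩
        have h3 : a + q * ((b + δ) % d) ≡ a + q * b [MOD δ] := by
          apply Nat.ModEq.add_left
          apply Nat.ModEq.mul_left
          unfold Nat.ModEq
          rw [Nat.mod_mod_of_dvd _ hdd, Nat.add_mod_right]
        exact (h3.dvd_iff dvd_rfl).2 hb.2
      · intro b hb
        rw [mem_filter, mem_range] at hb ⊢
        refine ⟨Nat.mod_lt _ hd, ?_⟩
        have h3 : a + q * ((b + (d - δ)) % d) ≡ a + q * b [MOD δ] := by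
          apply Nat.ModEq.add_left
          apply Nat.ModEq.mul_left
          unfold Nat.ModEq
          rw [Nat.mod_mod_of_dvd _ hdd]
          obtain ⟨e, he⟩ := (Nat.dvd_sub hdd (dvd_refl δ) : δ ∣ d - δ)
          rw [he, Nat.add_mul_mod_self_left]
        exact (h3.dvd_iff dvd_rfl).2 hb.2
      · intro b hb
        rw [mem_filter, mem_range] at hb
        rw [Nat.mod_add_mod, show b + δ + (d - δ) = b + d by omega, Nat.add_mod_right, Nat.mod_eq_of_lt hb.1]
      · intro b hb
        rw [mem_filter, mem_range] at hb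
        rw [Nat.mod_add_mod, show b + (d - δ) + δ = b + d by omega, Nat.add_mod_right, Nat.mod_eq_of_lt hb.1]
      · intro b _
        rw [← ee_per (b + δ) h d hd, ← ls_ee_add]
        congr 1
        push_cast
        ring
    have e2 : ee ((δ : ℝ) * h / d) ≠ 1 := by
      intro h3
      obtain ⟨n, hn⟩ := ls_ee_eq_one h3
      rw [div_eq_iff hd0] at hn
      have h4 : ((δ * h : ℕ) : ℤ) = n * (d : ℤ) := by
        have h5 : (((δ * h : ℕ) : ℤ) : ℝ) = ((n * (d : ℤ) : ℤ) : ℝ) := by
          push_cast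
          exact hn
        exact_mod_cast h5
      have h5 : (d : ℤ) ∣ ((δ * h : ℕ) : ℤ) := ⟨n, by rw [h4]; ring⟩
      have h6 : d ∣ δ * h := by exact_mod_cast h5
      have h7 : d ∣ δ := (Nat.Coprime.symm hh).dvd_of_dvd_mul_right h6
      exact absurd (Nat.le_of_dvd hδ1 h7) (by omega)
    have e3 : (1 - ee ((δ : ℝ) * h / d)) * T δ = 0 := by
      rw [sub_mul, one_mul, ← e1, sub_self]
    rcases mul_eq_zero.1 e3 with h3 | h3
    · exact absurd (sub_eq_zero.1 h3).symm e2
    · exact h3
  have h3 : ‖T d‖ ≤ 1 := by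
    rw [hT]
    simp only
    refine (norm_sum_le _ _).trans ?_
    simp_rw [ls_norm_ee]
    rw [sum_const, nsmul_eq_mul, mul_one]
    have h4 : ((range d).filter (fun b => d ∣ a + q * b)).card ≤ 1 := by
      rw [card_le_one]
      intro b hb b' hb'
      rw [mem_filter, mem_range] at hb hb'
      have h5 : Nat.Coprime d q := by
        apply Nat.Coprime.symm
        apply Nat.coprime_of_dvd
        intro p hp h6 h7
        have h8 : p ∣ a := by
          have h9 : p ∣ a + q * b := h7.trans hb.2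
          exact (Nat.dvd_add_left (h6.mul_right b)).1 h9
        exact Nat.not_coprime_of_dvd_of_dvd hp.one_lt h8 h6 haq
      have h6 : a + q * b ≡ a + q * b' [MOD d] := by
        have h7 : a + q * b ≡ 0 [MOD d] := (Nat.modEq_zero_iff_dvd).2 hb.2
        have h8 : a + q * b' ≡ 0 [MOD d] := (Nat.modEq_zero_iff_dvd).2 hb'.2
        exact h7.trans h8.symm
      have h7 := Nat.ModEq.add_left_cancel' a h6
      have h8 : b ≡ b' [MOD d] := Nat.ModEq.cancel_left_of_coprime h5 h7
      have h9 : b % d = b' % d := h8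
      rwa [Nat.mod_eq_of_lt hb.1, Nat.mod_eq_of_lt hb'.1] at h9
    exact_mod_cast h4
  rw [h1, sum_eq_single_of_mem d (Nat.mem_divisors_self d (by omega))
    (fun δ hδ hne => by rw [h2 δ hδ hne, mul_zero]), norm_mul, norm_mul, Complex.norm_real, Real.norm_eq_abs,
    abs_of_nonneg hX0]
  have h4 : ‖(ArithmeticFunction.moebius d : ℂ)‖ ≤ 1 := by
    rw [Complex.norm_intCast]
    exact_mod_cast ArithmeticFunction.abs_moebius_le_one
  calc X * (‖(ArithmeticFunction.moebius d : ℂ)‖ * ‖T d‖) ≤ X * (1 * 1) := by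
        apply mul_le_mul_of_nonneg_left _ hX0
        exact mul_le_mul h4 h3 (norm_nonneg _) (by norm_num)
    _ = X := by ring

lemma W_GG (q a y d : ℕ) (hq : 1 ≤ q) (hd : 1 ≤ d) (haq : a.Coprime q) :
    W (GG q a y) d ≤ ((piN y : ℝ) / (Nat.totient q : ℝ)) ^ 2 * (1 / (Nat.totient d : ℝ)) := by
  have hφq : (0 : ℝ) < Nat.totient q := by exact_mod_cast Nat.totient_pos.2 hq
  have hφd : (0 : ℝ) < Nat.totient d := by exact_mod_cast Nat.totient_pos.2 hd
  have hφ : (0 : ℝ) < Nat.totient (q * d) := by exact_mod_cast Nat.totient_pos.2 (Nat.mul_pos hq hd)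
  have hsm : (Nat.totient q : ℝ) * Nat.totient d ≤ Nat.totient (q * d) := by
    exact_mod_cast Nat.totient_super_multiplicative q d
  unfold W
  have h1 : ∀ h ∈ (range d).filter (fun h => h.Coprime d), ‖hat (GG q a y) d h‖ ^ 2 ≤
      ((piN y : ℝ) / (Nat.totient (q * d) : ℝ)) ^ 2 := by
    intro h hh
    rw [mem_filter] at hh
    exact pow_le_pow_left₀ (norm_nonneg _) (prim_hat q a y d h hd haq hh.2) 2
  refine (sum_le_card_nsmul _ _ _ h1).trans ?_
  have h2 : ((range d).filter (fun h => h.Coprime d)).card = Nat.totient d := by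
    rw [Nat.totient_eq_card_coprime]
    congr 1
    apply filter_congr
    intro h _
    exact Nat.coprime_comm
  rw [h2, nsmul_eq_mul]
  have h3 : (piN y : ℝ) / (Nat.totient (q * d) : ℝ) ≤ (piN y : ℝ) / ((Nat.totient q : ℝ) * Nat.totient d) :=
    div_le_div_of_nonneg_left (Nat.cast_nonneg _) (by positivity) hsm
  calc (Nat.totient d : ℝ) * ((piN y : ℝ) / (Nat.totient (q * d) : ℝ)) ^ 2 ≤
      (Nat.totient d : ℝ) * ((piN y : ℝ) / ((Nat.totient q : ℝ) * Nat.totient d)) ^ 2 := by
        apply mul_le_mul_of_nonneg_left _ hφd.le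
        apply pow_le_pow_left₀ (by positivity) h3
    _ = _ := by field_simp

lemma hat_CC (q a y d h : ℕ) (hd : 1 ≤ d) :
    hat (CC q a y) d h = ∑ k ∈ range (y / q + 1), (cc q a y k : ℂ) * ee ((k : ℝ) * h / d) := by
  unfold hat CC
  have hmaps : ∀ k ∈ range (y / q + 1), k % d ∈ range d := fun k _ => mem_range.2 (Nat.mod_lt _ hd)
  rw [← sum_fiberwise_of_maps_to hmaps]
  apply sum_congr rfl
  intro b hb
  rw [Complex.ofReal_sum, sum_mul, Nat.mod_eq_of_lt (mem_range.1 hb)]
  apply sum_congr rfl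
  intro k hk
  rw [mem_filter] at hk
  rw [ee_per k h d hd, hk.2]

lemma Icc_range {M : Type*} [AddCommMonoid M] (f : ℕ → M) (K : ℕ) :
    ∑ n ∈ Icc 1 K, f n = ∑ k ∈ range K, f (k + 1) := by
  symm
  apply sum_nbij' (fun k => k + 1) (fun n => n - 1)
  · intro k hk
    rw [mem_range] at hk
    rw [mem_Icc]
    omega
  · intro n hn
    rw [mem_Icc] at hn
    rw [mem_range]
    omega
  · intro k _
    simp
  · intro n hn
    rw [mem_Icc] at hn
    omega
  · intro k _
    rfl

/-- the number of the primes `≤ y` in the class `a` modulo `q` -/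
lemma CC_one (q a y : ℕ) : CC q a y 1 0 = ∑ k ∈ range (y / q + 1), cc q a y k := by
  unfold CC
  simp [Nat.mod_one]

/-- the large sieve -/
lemma ls_CC (q a y D : ℕ) :
    ∑ d ∈ Icc 1 D, W (CC q a y) d ≤ 6 * (((y / q + 1 : ℕ) : ℝ) + (D : ℝ) ^ 2) * CC q a y 1 0 := by
  have h := additive_large_sieve (y / q + 1) D (fun n => (cc q a y (n - 1) : ℂ))
  have e1 : ∑ n ∈ Icc 1 (y / q + 1), ‖(cc q a y (n - 1) : ℂ)‖ ^ 2 = CC q a y 1 0 := by
    rw [CC_one, Icc_range]
    apply sum_congr rfl
    intro k _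
    rw [Nat.add_sub_cancel, Complex.norm_real, Real.norm_eq_abs, sq_abs, cc_sq]
  rw [e1] at h
  refine le_trans (le_of_eq ?_) h
  apply sum_congr rfl
  intro d hd
  rw [mem_Icc] at hd
  unfold W
  apply sum_congr rfl
  intro a' _
  rw [hat_CC q a y d a' hd.1, Icc_range]
  have e2 : ∑ k ∈ range (y / q + 1), (cc q a y (k + 1 - 1) : ℂ) * ee (((k + 1 : ℕ) : ℝ) * a' / d) =
      ee ((a' : ℝ) / d) * ∑ k ∈ range (y / q + 1), (cc q a y k : ℂ) * ee ((k : ℝ) * a' / d) := by
    rw [mul_sum]
    apply sum_congr rfl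
    intro k _
    have e3 : ((k + 1 : ℕ) : ℝ) * a' / d = (a' : ℝ) / d + (k : ℝ) * a' / d := by
      push_cast
      ring
    rw [Nat.add_sub_cancel, e3, ls_ee_add]
    ring
  rw [e2, norm_mul, ls_norm_ee, one_mul]

lemma W_FF (q a y d : ℕ) : W (FF q a y) d ≤ 2 * W (CC q a y) d + 2 * W (GG q a y) d := by
  unfold W
  rw [mul_sum, mul_sum, ← sum_add_distrib]
  apply sum_le_sum
  intro h _
  have e1 : hat (FF q a y) d h = hat (CC q a y) d h - hat (GG q a y) d h := by
    unfold hat
    rw [← sum_sub_distrib]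
    apply sum_congr rfl
    intro b _
    unfold FF
    push_cast
    ring
  rw [e1]
  have h1 := norm_sub_le (hat (CC q a y) d h) (hat (GG q a y) d h)
  have h2 := norm_nonneg (hat (CC q a y) d h - hat (GG q a y) d h)
  nlinarith [sq_nonneg (‖hat (CC q a y) d h‖ - ‖hat (GG q a y) d h‖), norm_nonneg (hat (CC q a y) d h),
    norm_nonneg (hat (GG q a y) d h)]

end Pool.Agent.U485.EH
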